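import Mathlib

/-! The frog model with finite lifetime on a graph. -/

namespace Pool.Agent.P.MP_e2f79e_pr

open MeasureTheory ProbabilityTheory Filter Topology
open scoped NNReal ENNReal

variable {V : Type*}

/-- The automorphism group acts transitively on the vertices. -/
def VertexTransitive (G : SimpleGraph V) : Prop := ∀ x y : V, ∃ φ : G ≃g G, φ x = y

/-- The vertex boundary of `F`: the vertices outside `F` having a neighbour in `F`. -/
def vertexBoundary (G : SimpleGraph V) (F : Finset V) : Set V :=
  {y | y ∉ F ∧ ∃ x ∈ F, G.Adj x y}

/-- There are nonempty finite sets `F n` with `|boundary of F n| / |F n|` tending to `0`. -/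
def Amenable (G : SimpleGraph V) : Prop :=
  ∃ F : ℕ → Finset V, (∀ n, (F n).Nonempty) ∧
    Tendsto (fun n => ((vertexBoundary G (F n)).ncard : ℝ) / (F n).card) atTop (𝓝 0)

/-- The number of vertices at graph distance at most `n` from `o`. -/
noncomputable def growth (G : SimpleGraph V) (o : V) (n : ℕ) : ℕ := {v | G.dist o v ≤ n}.ncard

/-- Position after `n` jumps of a particle started at `x`: jump number `j` moves the particle
from `v` to `U j v`. -/
def pos (U : ℕ → V → V) (x : V) : ℕ → V
  | 0 => x
  | n + 1 => U n (pos U x n)

/-- The randomness of one particle: its jump rules and its holding times. -/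
abbrev Particle (V : Type*) := (ℕ → V → V) × (ℕ → ℝ)

/-- The randomness at one vertex: the number of particles and a sequence of particles. -/
abbrev Site (V : Type*) := ℕ × (ℕ → Particle V)

variable [MeasurableSpace V]

/-- A jump rule: independently for every vertex, a uniformly chosen neighbour. -/
noncomputable def jumpLaw (G : SimpleGraph V) : Measure (V → V) :=
  Measure.infinitePi fun v => uniformOn (G.neighborSet v)

/-- Independent jump rules and independent exponential holding times of rate one. -/
noncomputable def particleLaw (G : SimpleGraph V) : Measure (Particle V) :=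
  (Measure.infinitePi fun _ : ℕ => jumpLaw G).prod (Measure.infinitePi fun _ : ℕ => expMeasure 1)

/-- A Poisson number of independent particles. -/
noncomputable def siteLaw (G : SimpleGraph V) (lam : ℝ≥0) : Measure (Site V) :=
  (poissonMeasure lam).prod (Measure.infinitePi fun _ : ℕ => particleLaw G)

/-- Independent vertices. -/
noncomputable def frogLaw (G : SimpleGraph V) (lam : ℝ≥0) : Measure (V → Site V) :=
  Measure.infinitePi fun _ : V => siteLaw G lam

/-- The particle `p` started at `x` is at `y` at some time at most `t` after its activation. -/
def Visits (t : ℝ) (p : Particle V) (x y : V) : Prop :=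
  ∃ n : ℕ, ∑ j ∈ Finset.range n, p.2 j ≤ t ∧ pos p.1 x n = y

/-- Some particle placed at `x` visits `y` during its lifetime `t`. -/
def Wakes (t : ℝ) (ω : V → Site V) (x y : V) : Prop :=
  ∃ i < (ω x).1, Visits t ((ω x).2 i) x y

/-- Infinitely many vertices are visited when only the particles at `o` are active at first. -/
def Survives (t : ℝ) (o : V) : Set (V → Site V) :=
  {ω | {y | Relation.ReflTransGen (Wakes t ω) o y}.Infinite}

/-- The critical lifetime. -/
noncomputable def tc (G : SimpleGraph V) (o : V) (lam : ℝ≥0) : ℝ≥0∞ :=
  ⨆ (t : ℝ≥0) (_ : frogLaw G lam (Survives t o) = 0), (t : ℝ≥0∞)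

end Pool.Agent.P.MP_e2f79e_pr
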