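import Mathlib

/-! Expectations under finite product weights. -/

set_option linter.unusedSectionVars false

namespace Pool.Agent.P.MP_e2f79e_pr

open Finset

variable {E α β : Type*} [Fintype E] [DecidableEq E] [Fintype α] [Fintype β]

/-- Expectation of `f` under the product of the weights `μ e`. -/
noncomputable def Ex (μ : E → α → ℝ) (f : (E → α) → ℝ) : ℝ :=
  ∑ ω : E → α, (∏ e, μ e (ω e)) * f ω

/-- Each `μ e` is a probability vector. -/
structure IsP (μ : E → α → ℝ) : Prop where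
  nonneg : ∀ e a, 0 ≤ μ e a
  sum_one : ∀ e, ∑ a, μ e a = 1

lemma Ex_prod (μ : E → α → ℝ) (g : E → α → ℝ) :
    Ex μ (fun ω => ∏ e, g e (ω e)) = ∏ e, ∑ a, μ e a * g e a := by
  unfold Ex
  rw [Finset.prod_univ_sum]
  simp [Finset.prod_mul_distrib]

lemma Ex_const {μ : E → α → ℝ} (h : IsP μ) (c : ℝ) : Ex μ (fun _ => c) = c := by
  have := Ex_prod μ (fun _ _ => 1)
  simp only [prod_const_one, mul_one, h.sum_one] at this
  unfold Ex at *
  rw [← Finset.sum_mul]
  simp only [mul_one] at this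
  rw [this, one_mul]

lemma Ex_add (μ : E → α → ℝ) (f g : (E → α) → ℝ) :
    Ex μ (fun ω => f ω + g ω) = Ex μ f + Ex μ g := by
  simp [Ex, mul_add, Finset.sum_add_distrib]

lemma Ex_sub (μ : E → α → ℝ) (f g : (E → α) → ℝ) :
    Ex μ (fun ω => f ω - g ω) = Ex μ f - Ex μ g := by
  simp [Ex, mul_sub, Finset.sum_sub_distrib]

lemma Ex_mul_left (μ : E → α → ℝ) (c : ℝ) (f : (E → α) → ℝ) :
    Ex μ (fun ω => c * f ω) = c * Ex μ f := by
  simp only [Ex, Finset.mul_sum]
  exact Finset.sum_congr rfl fun _ _ => by ring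

lemma Ex_mono' {μ : E → α → ℝ} (h : ∀ e a, 0 ≤ μ e a) {f g : (E → α) → ℝ}
    (hfg : ∀ ω, (∀ e, μ e (ω e) ≠ 0) → f ω ≤ g ω) : Ex μ f ≤ Ex μ g := by
  unfold Ex
  refine Finset.sum_le_sum fun ω _ => ?_
  by_cases hω : ∀ e, μ e (ω e) ≠ 0
  · exact mul_le_mul_of_nonneg_left (hfg ω hω) (Finset.prod_nonneg fun e _ => h e _)
  · push Not at hω
    obtain ⟨e, he⟩ := hω
    rw [Finset.prod_eq_zero (Finset.mem_univ e) he]; simp

lemma Ex_mono {μ : E → α → ℝ} (h : IsP μ) {f g : (E → α) → ℝ}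
    (hfg : ∀ ω, f ω ≤ g ω) : Ex μ f ≤ Ex μ g :=
  Ex_mono' h.nonneg fun ω _ => hfg ω

lemma Ex_nonneg {μ : E → α → ℝ} (h : IsP μ) {f : (E → α) → ℝ}
    (hf : ∀ ω, 0 ≤ f ω) : 0 ≤ Ex μ f := by
  simpa [Ex_const h] using Ex_mono h (f := fun _ => 0) hf

lemma Ex_le_const {μ : E → α → ℝ} (h : IsP μ) {f : (E → α) → ℝ} {c : ℝ}
    (hf : ∀ ω, f ω ≤ c) : Ex μ f ≤ c := by
  simpa [Ex_const h] using Ex_mono h (g := fun _ => c) hf

lemma const_le_Ex {μ : E → α → ℝ} (h : IsP μ) {f : (E → α) → ℝ} {c : ℝ}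
    (hf : ∀ ω, c ≤ f ω) : c ≤ Ex μ f := by
  simpa [Ex_const h] using Ex_mono h (f := fun _ => c) hf

/-- Resampling the coordinates in `s`. -/
lemma Ex_resample {μ μ' : E → α → ℝ} (h : IsP μ) (s : Finset E)
    (hs : ∀ e, e ∉ s → μ e = μ' e) (f : (E → α) → ℝ) :
    Ex μ' f = Ex μ (fun ω => Ex μ' (fun ω' => f (s.piecewise ω' ω))) := by
  have key : Ex μ' f = Ex μ' (fun τ => Ex μ (fun _ => f τ)) := by
    simp only [Ex_const h]
  rw [key]
  unfold Ex
  simp only [Finset.mul_sum]
  rw [← Finset.sum_product', ← Finset.sum_product']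
  let σ : ((E → α) × (E → α)) ≃ ((E → α) × (E → α)) :=
    { toFun := fun p => (s.piecewise p.2 p.1, s.piecewise p.1 p.2)
      invFun := fun p => (s.piecewise p.2 p.1, s.piecewise p.1 p.2)
      left_inv := by
        rintro ⟨a, b⟩
        ext e <;> by_cases he : e ∈ s <;> simp [he]
      right_inv := by
        rintro ⟨a, b⟩
        ext e <;> by_cases he : e ∈ s <;> simp [he] }
  symm
  refine Finset.sum_equiv σ (by simp) ?_
  rintro ⟨ω, ω'⟩ _
  simp only [σ, Equiv.coe_fn_mk]
  rw [← mul_assoc, ← mul_assoc, ← Finset.prod_mul_distrib, ← Finset.prod_mul_distrib]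
  congr 1
  refine Finset.prod_congr rfl fun e _ => ?_
  by_cases he : e ∈ s
  · simp [he, mul_comm]
  · simp [he, hs e he]

/-- Comparison by resampling the coordinates in `s`. -/
lemma Ex_le_of_resample {μ μ' : E → α → ℝ} (h : IsP μ) (s : Finset E)
    (hs : ∀ e, e ∉ s → μ e = μ' e) {f g : (E → α) → ℝ}
    (hfg : ∀ ω, Ex μ (fun ω' => f (s.piecewise ω' ω)) ≤ Ex μ' (fun ω' => g (s.piecewise ω' ω))) :
    Ex μ f ≤ Ex μ' g := by
  rw [Ex_resample h s hs g, Ex_resample h s (fun _ _ => rfl) f]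
  exact Ex_mono h hfg

/-- A function not depending on the coordinates in `s`. -/
lemma Ex_congr_of_indep {μ μ' : E → α → ℝ} (h : IsP μ) (h' : IsP μ') (s : Finset E)
    (hs : ∀ e, e ∉ s → μ e = μ' e) {f : (E → α) → ℝ}
    (hf : ∀ ω ω', f (s.piecewise ω' ω) = f ω) : Ex μ f = Ex μ' f := by
  rw [Ex_resample h s hs f]
  simp only [hf, Ex_const h']

lemma Ex_eval {μ : E → α → ℝ} (h : IsP μ) (x : E) (F : α → ℝ) :
    Ex μ (fun ω => F (ω x)) = ∑ a, μ x a * F a := by
  have := Ex_prod μ (fun e a => if e = x then F a else 1)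
  simp only [Finset.prod_ite_eq', Finset.mem_univ, if_true] at this
  rw [this, Finset.prod_eq_single x]
  · simp
  · intro e _ he
    simp [he, h.sum_one]
  · simp

lemma IsP.piecewise {μ μ' : E → α → ℝ} (h : IsP μ) (h' : IsP μ') (s : Finset E) :
    IsP (s.piecewise μ' μ) := by
  constructor
  · intro e a; by_cases he : e ∈ s <;> simp [he, h.nonneg, h'.nonneg]
  · intro e; by_cases he : e ∈ s <;> simp [he, h.sum_one, h'.sum_one]

/-- Site by site replacement. -/
lemma Ex_le_of_site {μ μ' : E → α → ℝ} (h : IsP μ) (h' : IsP μ') {f : (E → α) → ℝ}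
    (hf : ∀ x ω, ∑ a, μ x a * f (Function.update ω x a) ≤
      ∑ a, μ' x a * f (Function.update ω x a)) : Ex μ f ≤ Ex μ' f := by
  have key : ∀ s : Finset E, Ex μ f ≤ Ex (s.piecewise μ' μ) f := by
    intro s
    induction s using Finset.induction_on with
    | empty => simp
    | insert x s hx ih =>
      refine ih.trans ?_
      refine Ex_le_of_resample (h.piecewise h' s) {x} ?_ ?_
      · intro e he
        have he' : e ≠ x := by simpa using he
        by_cases hes : e ∈ s <;> simp [Finset.piecewise, he', hes]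
      · intro ω
        have e1 : ∀ ω' : E → α, ({x} : Finset E).piecewise ω' ω = Function.update ω x (ω' x) :=
          fun ω' => Finset.piecewise_singleton _ _ _
        simp only [e1]
        rw [Ex_eval (h.piecewise h' s) x (fun a => f (Function.update ω x a)),
          Ex_eval (h.piecewise h' (insert x s)) x (fun a => f (Function.update ω x a))]
        simpa [hx] using hf x ω
  simpa using key Finset.univ

/-- Push-forward of each coordinate. -/
lemma Ex_map [DecidableEq β] (μ : E → α → ℝ) (g : E → α → β) (f : (E → β) → ℝ) :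
    Ex μ (fun ω => f (fun e => g e (ω e))) =
      Ex (fun e b => ∑ a with g e a = b, μ e a) f := by
  unfold Ex
  have : ∀ τ : E → β, (∏ e, ∑ a with g e a = τ e, μ e a) =
      ∑ ω : E → α with (fun e => g e (ω e)) = τ, ∏ e, μ e (ω e) := by
    intro τ
    rw [Finset.prod_univ_sum]
    refine Finset.sum_congr ?_ fun _ _ => rfl
    ext ω
    simp [Fintype.mem_piFinset, funext_iff]
  simp only [this, Finset.sum_mul]
  rw [← Finset.sum_fiberwise (s := Finset.univ) (g := fun ω : E → α => fun e => g e (ω e))]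
  refine Finset.sum_congr rfl fun τ _ => Finset.sum_congr rfl fun ω hω => ?_
  rw [(Finset.mem_filter.1 hω).2]

/-- Disintegration of a pair-valued product weight. -/
lemma Ex_pair (π : E → α → ℝ) (κ : E → α → β → ℝ) (F : (E → α × β) → ℝ) :
    Ex (fun e (p : α × β) => π e p.1 * κ e p.1 p.2) F =
      Ex π (fun y => Ex (fun e => κ e (y e)) (fun ω => F (fun e => (y e, ω e)))) := by
  unfold Ex
  simp only [Finset.mul_sum]
  rw [← Finset.sum_product']
  refine Finset.sum_equiv (Equiv.arrowProdEquivProdArrow E (fun _ => α) (fun _ => β)) (by simp) ?_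
  intro z _
  simp [Equiv.arrowProdEquivProdArrow, Finset.prod_mul_distrib, mul_assoc]

/-- Grouping coordinates. -/
lemma Ex_curry {E' : Type*} [Fintype E'] [DecidableEq E'] (μ : E × E' → α → ℝ)
    (f : (E × E' → α) → ℝ) :
    Ex μ f = Ex (fun e (o : E' → α) => ∏ e', μ (e, e') (o e'))
      (fun ω => f (fun p => ω p.1 p.2)) := by
  unfold Ex
  refine Finset.sum_equiv (Equiv.curry E E' α) (by simp) ?_
  intro ω _
  simp [Fintype.prod_prod_type, Equiv.curry, Function.curry]

lemma IsP.curry {E' : Type*} [Fintype E'] [DecidableEq E'] {μ : E × E' → α → ℝ} (h : IsP μ) :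
    IsP (fun e (o : E' → α) => ∏ e', μ (e, e') (o e')) := by
  constructor
  · intro e o; exact Finset.prod_nonneg fun _ _ => h.nonneg _ _
  · intro e
    have h2 : IsP (fun e' => μ (e, e')) := ⟨fun _ _ => h.nonneg _ _, fun _ => h.sum_one _⟩
    simpa [Ex] using Ex_const h2 1

lemma measurable_Ex {X : Type*} [MeasurableSpace X] {μ : X → E → α → ℝ}
    (hμ : ∀ e a, Measurable fun x => μ x e a) (f : (E → α) → ℝ) :
    Measurable fun x => Ex (μ x) f := by
  unfold Ex
  refine Finset.measurable_sum _ fun ω _ => ?_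
  exact (Finset.measurable_prod _ fun e _ => hμ e _).mul_const _

end Pool.Agent.P.MP_e2f79e_pr
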