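import Pool.Agent.P.MP_e2f79e_pr.Steps

/-! The Gaussian free field on a finite network: autoregressive structure and the
Edwards-Sokal coupling. -/

set_option linter.unusedSectionVars false

namespace Pool.Agent.P.MP_e2f79e_pr

open MeasureTheory ProbabilityTheory Finset Real Matrix

variable {ι : Type*} [Fintype ι] [DecidableEq ι] {o : ι} {T : Finset ι}

/-- The quadratic form of `1 - M ^ 2`. -/
def Qf (M : Matrix ι ι ℝ) (φ : ι → ℝ) : ℝ := ∑ a, φ a ^ 2 - ∑ a, (M *ᵥ φ) a ^ 2

/-- Unnormalised density. -/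
noncomputable def rho (M : Matrix ι ι ℝ) (φ : ι → ℝ) : ℝ := exp (-Qf M φ / 2)

lemma measurable_mulVec (M : Matrix ι ι ℝ) : Measurable fun φ : ι → ℝ => M *ᵥ φ := by
  refine measurable_pi_iff.2 fun a => ?_
  simp only [mulVec, dotProduct]
  fun_prop

lemma measurable_rho (M : Matrix ι ι ℝ) : Measurable (rho M) := by
  have := fun a => (measurable_pi_apply a).comp (measurable_mulVec M)
  unfold rho Qf
  simp only [mulVec, dotProduct]
  fun_prop

lemma rho_pos (M : Matrix ι ι ℝ) (φ : ι → ℝ) : 0 < rho M φ := exp_pos _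

lemma integrable_rho {M : Matrix ι ι ℝ} {θ : ℝ} (hθ : 0 < θ)
    (hco : ∀ φ, θ * ∑ a, φ a ^ 2 ≤ Qf M φ) : Integrable (rho M) := by
  have h1 : Integrable (fun φ : ι → ℝ => ∏ a, exp (-(θ / 2) * φ a ^ 2)) volume :=
    Integrable.fintype_prod (f := fun _ x => exp (-(θ / 2) * x ^ 2))
      fun _ => integrable_exp_neg_mul_sq (by positivity)
  refine h1.mono' (measurable_rho M).aestronglyMeasurable (ae_of_all _ fun φ => ?_)
  rw [Real.norm_eq_abs, abs_of_pos (rho_pos M φ), ← exp_sum, ← Finset.mul_sum]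
  refine exp_le_exp.2 ?_
  linarith [hco φ]

/-- The normalised field. -/
noncomputable def gff (M : Matrix ι ι ℝ) : Measure (ι → ℝ) :=
  volume.withDensity fun φ => ENNReal.ofReal (rho M φ / ∫ ψ, rho M ψ)

lemma Z_pos {M : Matrix ι ι ℝ} (h : Integrable (rho M)) : 0 < ∫ ψ, rho M ψ := by
  rw [integral_pos_iff_support_of_nonneg (fun φ => (rho_pos M φ).le) h]
  have : Function.support (rho M) = Set.univ := by
    ext φ; simp [(rho_pos M φ).ne']
  rw [this]
  exact Measure.measure_univ_pos.2 (NeZero.ne _)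

lemma gff_prob {M : Matrix ι ι ℝ} (h : Integrable (rho M)) : IsProbabilityMeasure (gff M) := by
  constructor
  have hZ := Z_pos h
  rw [gff, withDensity_apply _ MeasurableSet.univ, Measure.restrict_univ,
    ← ofReal_integral_eq_lintegral_ofReal (h.div_const _)
      (ae_of_all _ fun φ => (div_pos (rho_pos M φ) hZ).le), integral_div, div_self hZ.ne']
  simp

lemma integral_gff {M : Matrix ι ι ℝ} (h : Integrable (rho M)) (F : (ι → ℝ) → ℝ) :
    ∫ φ, F φ ∂(gff M) = ∫ φ, (rho M φ / ∫ ψ, rho M ψ) * F φ := by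
  have hZ := Z_pos h
  rw [gff, integral_withDensity_eq_integral_toReal_smul
    (((measurable_rho M).div_const _).ennreal_ofReal) (ae_of_all _ fun _ => ENNReal.ofReal_lt_top)]
  refine integral_congr_ae (ae_of_all _ fun φ => ?_)
  simp only [smul_eq_mul]
  rw [ENNReal.toReal_ofReal (div_pos (rho_pos M φ) hZ).le]

lemma sum_mulVec_symm {M : Matrix ι ι ℝ} (hM : ∀ a b, M a b = M b a) (φ ψ : ι → ℝ) :
    ∑ a, φ a * (M *ᵥ ψ) a = ∑ a, ψ a * (M *ᵥ φ) a := by
  simp only [mulVec, dotProduct, Finset.mul_sum]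
  rw [Finset.sum_comm]
  refine Finset.sum_congr rfl fun a _ => Finset.sum_congr rfl fun b _ => ?_
  rw [hM b a]; ring

lemma prod_pdf (ξ : ι → ℝ) : ∏ z, gaussianPDFReal 0 1 (ξ z) =
    (√(2 * π))⁻¹ ^ Fintype.card ι * exp (-(∑ z, ξ z ^ 2) / 2) := by
  simp only [gaussianPDFReal, NNReal.coe_one, mul_one, sub_zero, Finset.prod_mul_distrib,
    Finset.prod_const, Finset.card_univ]
  rw [← exp_sum, ← Finset.sum_neg_distrib, Finset.sum_div]

lemma rho_symm {M : Matrix ι ι ℝ} (hM : ∀ a b, M a b = M b a) (φ ψ : ι → ℝ) :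
    rho M ψ * ∏ z, gaussianPDFReal 0 1 ((φ - M *ᵥ ψ) z) =
      rho M φ * ∏ z, gaussianPDFReal 0 1 ((ψ - M *ᵥ φ) z) := by
  rw [prod_pdf, prod_pdf, rho, rho, mul_left_comm, mul_left_comm (exp _), ← exp_add, ← exp_add]
  congr 2
  have h := sum_mulVec_symm hM φ ψ
  simp only [Qf, Pi.sub_apply, sub_sq, Finset.sum_add_distrib, Finset.sum_sub_distrib, mul_assoc,
    ← Finset.mul_sum]
  linarith

lemma gff_ar {M : Matrix ι ι ℝ} (hM : ∀ a b, M a b = M b a) (h : Integrable (rho M)) :
    MeasurePreserving (fun p : (ι → ℝ) × (ι → ℝ) => p.2 + M *ᵥ p.1)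
      ((gff M).prod (gam ι)) (gff M) := by
  have := gff_prob h
  have hm : Measurable fun p : (ι → ℝ) × (ι → ℝ) => p.2 + M *ᵥ p.1 :=
    measurable_snd.add ((measurable_mulVec M).comp measurable_fst)
  refine ⟨hm, Measure.ext_of_lintegral _ fun f hf => ?_⟩
  set r : (ι → ℝ) → ENNReal := fun φ => ENNReal.ofReal (rho M φ / ∫ ψ, rho M ψ) with hr
  set g : (ι → ℝ) → ENNReal := fun ζ => ENNReal.ofReal (∏ z, gaussianPDFReal 0 1 (ζ z)) with hg
  have mr : Measurable r := ((measurable_rho M).div_const _).ennreal_ofReal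
  have mg : Measurable g := by
    refine Measurable.ennreal_ofReal (Finset.measurable_prod _ fun z _ => ?_)
    exact (measurable_gaussianPDFReal 0 1).comp (measurable_pi_apply z)
  have hZ := Z_pos h
  have hsym : ∀ φ ψ, r ψ * g (φ - M *ᵥ ψ) = r φ * g (ψ - M *ᵥ φ) := by
    intro φ ψ
    simp only [hr, hg]
    rw [← ENNReal.ofReal_mul (div_pos (rho_pos _ _) hZ).le,
      ← ENNReal.ofReal_mul (div_pos (rho_pos _ _) hZ).le, div_mul_eq_mul_div, div_mul_eq_mul_div,
      rho_symm hM]
  have hg1 : ∀ c : ι → ℝ, ∫⁻ ψ, g (ψ - c) = 1 := by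
    intro c
    rw [lintegral_sub_right_eq_self g c]
    have : (gam ι) Set.univ = 1 := measure_univ
    rwa [gam_eq_withDensity, withDensity_apply _ MeasurableSet.univ, Measure.restrict_univ] at this
  have inner : ∀ ψ : ι → ℝ, ∫⁻ ξ, f (ξ + M *ᵥ ψ) ∂(gam ι) = ∫⁻ φ, g (φ - M *ᵥ ψ) * f φ := by
    intro ψ
    rw [gam_eq_withDensity, lintegral_withDensity_eq_lintegral_mul _ mg (by fun_prop),
      ← lintegral_add_right_eq_self (fun φ => g (φ - M *ᵥ ψ) * f φ) (M *ᵥ ψ)]
    simp
  have mM := measurable_mulVec M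
  rw [lintegral_map hf hm,
    lintegral_prod (fun p : (ι → ℝ) × (ι → ℝ) => f (p.2 + M *ᵥ p.1)) (hf.comp hm).aemeasurable]
  simp only [inner]
  have m2 : Measurable fun p : (ι → ℝ) × (ι → ℝ) => g (p.2 - M *ᵥ p.1) * f p.2 :=
    (mg.comp (measurable_snd.sub (mM.comp measurable_fst))).mul (hf.comp measurable_snd)
  rw [gff, lintegral_withDensity_eq_lintegral_mul _ mr m2.lintegral_prod_right',
    lintegral_withDensity_eq_lintegral_mul _ mr hf]
  simp only [Pi.mul_apply]
  have e1 : ∀ ψ, r ψ * ∫⁻ φ, g (φ - M *ᵥ ψ) * f φ = ∫⁻ φ, r φ * f φ * g (ψ - M *ᵥ φ) := by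
    intro ψ
    rw [← lintegral_const_mul _ (f := fun φ => g (φ - M *ᵥ ψ) * f φ)
      ((mg.comp (measurable_id.sub_const _)).mul hf)]
    refine lintegral_congr fun φ => ?_
    rw [← mul_assoc, hsym]; ring
  simp only [e1]
  rw [lintegral_lintegral_swap]
  · refine lintegral_congr fun φ => ?_
    rw [lintegral_const_mul _ (f := fun x => g (x - M *ᵥ φ))
      (mg.comp (measurable_id.sub_const _)), hg1, mul_one]
  · exact (((mr.comp measurable_snd).mul (hf.comp measurable_snd)).mul
      (mg.comp (measurable_fst.sub (mM.comp measurable_snd)))).aemeasurable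

lemma integral_gff_ar {M : Matrix ι ι ℝ} (hM : ∀ a b, M a b = M b a) (h : Integrable (rho M))
    {F : (ι → ℝ) → ℝ} (hF : U01 F) :
    ∫ φ, F φ ∂(gff M) = ∫ φ, ∫ ξ, F (ξ + M *ᵥ φ) ∂(gam ι) ∂(gff M) := by
  have := gff_prob h
  rw [← hF.integral_comp (gff_ar hM h),
    integral_prod _ ((hF.comp (gff_ar hM h).measurable).integrable _)]

/-! ### Edwards-Sokal -/

lemma Qf_eq {M : Matrix ι ι ℝ} (hM : ∀ a b, M a b = M b a) (φ : ι → ℝ) :
    Qf M φ = ∑ a, (1 - ∑ b, (M * M) a b) * φ a ^ 2 +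
      ∑ e : ι × ι, (M * M) e.1 e.2 * (φ e.1 - φ e.2) ^ 2 / 2 := by
  have hC : ∀ a b, (M * M) a b = (M * M) b a := by
    intro a b
    simp only [mul_apply]
    exact Finset.sum_congr rfl fun z _ => by rw [hM a z, hM z b, mul_comm]
  have h1 : ∑ a, (M *ᵥ φ) a ^ 2 = ∑ a, ∑ b, (M * M) a b * (φ a * φ b) := by
    have := sum_mulVec_symm hM (M *ᵥ φ) φ
    simp only [← sq] at this
    rw [this, mulVec_mulVec]
    simp only [mulVec, dotProduct, Finset.mul_sum]
    exact Finset.sum_congr rfl fun a _ => Finset.sum_congr rfl fun b _ => by ring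
  have h2 : ∑ a, ∑ b, (M * M) a b * φ b ^ 2 = ∑ a, ∑ b, (M * M) a b * φ a ^ 2 := by
    rw [Finset.sum_comm]
    exact Finset.sum_congr rfl fun a _ => Finset.sum_congr rfl fun b _ => by rw [hC]
  have h3 : ∑ e : ι × ι, (M * M) e.1 e.2 * (φ e.1 - φ e.2) ^ 2 / 2 =
      (∑ a, ∑ b, (M * M) a b * φ a ^ 2 + ∑ a, ∑ b, (M * M) a b * φ b ^ 2) / 2 -
        ∑ a, ∑ b, (M * M) a b * (φ a * φ b) := by
    rw [Fintype.sum_prod_type, ← Finset.sum_add_distrib, Finset.sum_div, ← Finset.sum_sub_distrib]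
    refine Finset.sum_congr rfl fun a _ => ?_
    rw [← Finset.sum_add_distrib, Finset.sum_div, ← Finset.sum_sub_distrib]
    exact Finset.sum_congr rfl fun b _ => by ring
  rw [h3, h2, Qf, h1]
  simp only [sub_mul, one_mul, Finset.sum_sub_distrib, Finset.sum_mul]
  ring

/-- Edwards-Sokal intensities. -/
noncomputable def IES (C : ι → ι → ℝ) (h : ℝ) (φ : ι → ℝ) : ι × ι → ℝ :=
  fun e => C e.1 e.2 * max ((h + φ e.1) * (h + φ e.2)) 0

lemma IES_nonneg {C : ι → ι → ℝ} (hC : ∀ a b, 0 ≤ C a b) (h : ℝ) (φ : ι → ℝ) (e : ι × ι) :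
    0 ≤ IES C h φ e := mul_nonneg (hC _ _) (le_max_right _ _)

lemma ES_pos {C : ι → ι → ℝ} (hC : ∀ a b, 0 ≤ C a b) (hs : ∀ a b, C a b = C b a) (h : ℝ)
    (φ : ι → ℝ) (ho : 0 < h + φ o) :
    Ex (bw (IES C h φ)) (fun ω => ind (conn o T (symc ω))) ≤
      Phi o T (Iw C (fun a => max (h + φ a) 0) 0) := by
  classical
  let IW : ι × ι → ℝ := fun e => C e.1 e.2 * max (h + φ e.1) 0 * max (h + φ e.2) 0
  have hIW : ∀ e, 0 ≤ IW e := fun e => by
    have := hC e.1 e.2; simp only [IW]; positivity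
  let cut : (ι × ι → Bool) → ι × ι → Bool := fun ω e =>
    ω e && decide (0 < h + φ e.1 ∧ 0 < h + φ e.2)
  have s1 : Ex (bw (IES C h φ)) (fun ω => ind (conn o T (symc ω))) ≤
      Ex (bw (IES C h φ)) (fun ω => ind (conn o T (symc (cut ω)))) := by
    refine Ex_mono' (isP_bw (IES_nonneg hC h φ)).nonneg fun ω hω => ind_mono ?_
    have hsame : ∀ e, ω e = true → 0 < (h + φ e.1) * (h + φ e.2) := by
      intro e he
      have := hω e
      by_contra hn
      simp [he, bw, IES, max_eq_right (not_lt.1 hn)] at this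
    rintro ⟨t, ht, hr⟩
    have key : ∀ v, Reach (symc ω) o v → 0 < h + φ v ∧ Reach (symc (cut ω)) o v := by
      intro v hv
      induction hv with
      | refl => exact ⟨ho, Relation.ReflTransGen.refl⟩
      | @tail b c _ hbc ih =>
        simp only [symc, Prod.swap_prod_mk, Bool.or_eq_true] at hbc
        have hc : 0 < h + φ c := by
          rcases hbc with hbc | hbc
          · exact (pos_iff_pos_of_mul_pos (hsame _ hbc)).1 ih.1
          · exact (pos_iff_pos_of_mul_pos (hsame _ hbc)).2 ih.1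
        refine ⟨hc, ih.2.tail ?_⟩
        simpa [symc, cut, hc, ih.1] using hbc
    exact ⟨t, ht, (key t hr).2⟩
  have s2 : Ex (bw (IES C h φ)) (fun ω => ind (conn o T (symc (cut ω)))) =
      Ex (bw IW) (fun ω => ind (conn o T (symc (cut ω)))) := by
    refine Ex_congr_of_indep (isP_bw (IES_nonneg hC h φ)) (isP_bw hIW)
      (univ.filter fun e => ¬ (0 < h + φ e.1 ∧ 0 < h + φ e.2)) (fun e he => ?_) fun ω ω' => ?_
    · simp only [Finset.mem_filter, Finset.mem_univ, true_and, not_not] at he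
      funext b
      simp [bw, IES, IW, max_eq_left he.1.le, max_eq_left he.2.le,
        max_eq_left (mul_pos he.1 he.2).le, mul_assoc]
    · congr 3
      funext e
      by_cases he : 0 < h + φ e.1 ∧ 0 < h + φ e.2
      · simp [cut, he, Finset.piecewise]
      · simp only [cut, he, decide_false, Bool.and_false]
  have s3 : Ex (bw IW) (fun ω => ind (conn o T (symc (cut ω)))) ≤
      Ex (bw IW) (fun ω => ind (conn o T (symc ω))) := by
    refine Ex_mono (isP_bw hIW) fun ω => ind_mono (conn.mono fun e => ?_)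
    simp only [symc, cut, Bool.or_eq_true, Bool.and_eq_true]
    tauto
  have s4 := undirected_le_Phi (o := o) (T := T) hIW (fun e => by
    simp only [IW, Prod.fst_swap, Prod.snd_swap, hs e.2 e.1]; ring)
  have s5 : (fun e => 2 * IW e) = Iw C (fun a => max (h + φ a) 0) 0 := by
    funext e; simp [IW, Iw]; ring
  rw [s5] at s4
  linarith

lemma ES_flip {M : Matrix ι ι ℝ} (hM : ∀ a b, M a b = M b a)
    (hrow : ∀ a, a ∉ T → ∑ b, (M * M) a b = 1) (h : ℝ) {ω : ι × ι → Bool}
    (hω : ¬ conn o T (symc ω)) (A : Finset ι) (hA : ∀ a, a ∈ A ↔ Reach (symc ω) o a)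
    (φ : ι → ℝ) :
    rho M (fun a => if a ∈ A then -2 * h - φ a else φ a) *
        ∏ e, bw (IES (M * M) h (fun a => if a ∈ A then -2 * h - φ a else φ a)) e (ω e) =
      rho M φ * ∏ e, bw (IES (M * M) h φ) e (ω e) := by
  have hr : ∀ ψ, rho M ψ = (∏ a, exp (-((1 - ∑ b, (M * M) a b) * ψ a ^ 2) / 2)) *
      ∏ e : ι × ι, exp (-((M * M) e.1 e.2 * (ψ e.1 - ψ e.2) ^ 2 / 2) / 2) := by
    intro ψ
    rw [rho, Qf_eq hM, ← exp_sum, ← exp_sum, ← exp_add]
    congr 1
    simp only [neg_div, Finset.sum_neg_distrib, ← Finset.sum_div]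
    ring
  rw [hr, hr, mul_assoc, mul_assoc, ← Finset.prod_mul_distrib, ← Finset.prod_mul_distrib]
  congr 1
  · refine Finset.prod_congr rfl fun a _ => ?_
    by_cases ha : a ∈ A
    · have : a ∉ T := fun h => hω ⟨a, h, (hA a).1 ha⟩
      simp [hrow a this]
    · simp [ha]
  · refine Finset.prod_congr rfl fun e _ => ?_
    obtain ⟨a, b⟩ := e
    have key : ∀ c s t : ℝ, exp (-(c * (-s - t) ^ 2 / 2) / 2) * exp (-(c * max (-s * t) 0)) =
        exp (-(c * (s - t) ^ 2 / 2) / 2) * exp (-(c * max (s * t) 0)) := by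
      intro c s t
      rw [← exp_add, ← exp_add]
      congr 1
      rcases le_total (s * t) 0 with h | h
      · rw [max_eq_right h, max_eq_left (by linarith)]; ring
      · rw [max_eq_left h, max_eq_right (by linarith)]; ring
    by_cases ha : a ∈ A <;> by_cases hb : b ∈ A
    · simp only [ha, hb, if_true, bw, IES]
      have e1 : (-2 * h - φ a - (-2 * h - φ b)) ^ 2 = (φ a - φ b) ^ 2 := by ring
      have e2 : (h + (-2 * h - φ a)) * (h + (-2 * h - φ b)) = (h + φ a) * (h + φ b) := by ring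
      rw [e1, e2]
    · have : ω (a, b) = false := by
        by_contra h1
        exact hb ((hA b).2 (((hA a).1 ha).tail (by simp [symc, Bool.eq_true_of_not_eq_false h1])))
      simp only [ha, hb, if_true, if_false, bw, IES, this, Bool.false_eq_true]
      have := key ((M * M) a b) (h + φ a) (h + φ b)
      convert this using 6 <;> ring
    · have : ω (a, b) = false := by
        by_contra h1
        exact ha ((hA a).2 (((hA b).1 hb).tail (by simp [symc, Bool.eq_true_of_not_eq_false h1])))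
      simp only [ha, hb, if_true, if_false, bw, IES, this, Bool.false_eq_true]
      have := key ((M * M) a b) (h + φ b) (h + φ a)
      convert this using 6 <;> ring
    · simp [ha, hb, bw, IES]

lemma ES_main {M : Matrix ι ι ℝ} (hM : ∀ a b, M a b = M b a) (hM0 : ∀ a b, 0 ≤ M a b)
    (hrow : ∀ a, a ∉ T → ∑ b, (M * M) a b = 1) (hi : Integrable (rho M)) (h : ℝ) :
    1 ≤ ∫ φ, Phi o T (Iw (M * M) (fun a => max (h + φ a) 0) 0) ∂(gff M) +
      2 * (gff M).real {φ | φ o ≤ -h} := by
  classical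
  have := gff_prob hi
  have hC : ∀ a b, 0 ≤ (M * M) a b := fun a b =>
    Finset.sum_nonneg fun z _ => mul_nonneg (hM0 _ _) (hM0 _ _)
  have hCs : ∀ a b, (M * M) a b = (M * M) b a := by
    intro a b
    simp only [mul_apply]
    exact Finset.sum_congr rfl fun z _ => by rw [hM a z, hM z b, mul_comm]
  have hP := fun φ => isP_bw (IES_nonneg hC h φ)
  let w : (ι × ι → Bool) → (ι → ℝ) → ℝ := fun ω φ => ∏ e, bw (IES (M * M) h φ) e (ω e)
  have hbw : ∀ e b, Measurable fun φ : ι → ℝ => bw (IES (M * M) h φ) e b := by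
    refine measurable_bw fun e => ?_
    unfold IES; fun_prop
  have hw : ∀ ω, U01 (w ω) := by
    intro ω
    refine ⟨Finset.measurable_prod _ fun e _ => hbw e _,
      fun φ => Finset.prod_nonneg fun e _ => (hP φ).nonneg _ _,
      fun φ => Finset.prod_le_one (fun e _ => (hP φ).nonneg _ _) fun e _ => ?_⟩
    rw [← (hP φ).sum_one e]
    exact Finset.single_le_sum (fun b _ => (hP φ).nonneg e b) (Finset.mem_univ _)
  let pos : (ι → ℝ) → ℝ := Set.indicator {φ | 0 < h + φ o} fun _ => 1
  let neg : (ι → ℝ) → ℝ := Set.indicator {φ | φ o < -h} fun _ => 1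
  let npos : (ι → ℝ) → ℝ := Set.indicator {φ | φ o ≤ -h} fun _ => 1
  have mnp : MeasurableSet {φ : ι → ℝ | φ o ≤ -h} :=
    measurableSet_le (by fun_prop) measurable_const
  have hpos : U01 pos := U01.indicator (measurableSet_lt measurable_const (by fun_prop))
  have hneg : U01 neg := U01.indicator (measurableSet_lt (by fun_prop) measurable_const)
  have hnpos : U01 npos := U01.indicator mnp
  let B : Finset (ι × ι → Bool) := univ.filter fun ω => ¬ conn o T (symc ω)
  have hflip : ∀ ω ∈ B, ∫ φ, pos φ * w ω φ ∂(gff M) = ∫ φ, neg φ * w ω φ ∂(gff M) := by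
    intro ω hω
    simp only [B, Finset.mem_filter, Finset.mem_univ, true_and] at hω
    let A : Finset ι := univ.filter fun a => Reach (symc ω) o a
    have hA : ∀ a, a ∈ A ↔ Reach (symc ω) o a := by simp [A]
    have hoA : o ∈ A := (hA o).2 Relation.ReflTransGen.refl
    have hmp : MeasurePreserving
        (fun (φ : ι → ℝ) a => (if a ∈ A then (fun x => -2 * h - x) else id) (φ a)) := by
      refine volume_preserving_pi fun a => ?_
      by_cases ha : a ∈ A
      · simpa [ha] using Measure.measurePreserving_sub_left volume (-2 * h)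
      · simpa [ha] using MeasurePreserving.id _
    rw [integral_gff hi, integral_gff hi, ← hmp.map_eq, integral_map hmp.measurable.aemeasurable,
      hmp.map_eq]
    · refine integral_congr_ae (ae_of_all _ fun φ => ?_)
      have e1 : (fun a => (if a ∈ A then (fun x => -2 * h - x) else id) (φ a)) =
          fun a => if a ∈ A then -2 * h - φ a else φ a := by
        funext a; by_cases ha : a ∈ A <;> simp [ha]
      have e2 := ES_flip hM hrow h hω A hA φ
      have e3 : pos (fun a => if a ∈ A then -2 * h - φ a else φ a) = neg φ := by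
        simp only [pos, neg, Set.indicator, Set.mem_ofPred_eq, hoA, if_true]
        refine if_congr ?_ rfl rfl
        constructor <;> intro <;> linarith
      simp only [e1, e3, w]
      rw [div_mul_eq_mul_div, div_mul_eq_mul_div, mul_left_comm, e2, mul_left_comm]
    · exact (((measurable_rho M).div_const _).mul (hpos.mul (hw ω)).meas).aestronglyMeasurable
  have hU : U01 fun φ : ι → ℝ => Phi o T (Iw (M * M) (fun a => max (h + φ a) 0) 0) :=
    U01_Phi hC (fun _ _ => le_max_right _ _) (fun _ => le_rfl) fun a => by fun_prop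
  have hsplit : ∀ φ, Ex (bw (IES (M * M) h φ)) (fun ω => ind (conn o T (symc ω))) +
      ∑ ω ∈ B, w ω φ = 1 := by
    intro φ
    have e1 : ∑ ω ∈ B, w ω φ =
        Ex (bw (IES (M * M) h φ)) (fun ω => ind (¬ conn o T (symc ω))) := by
      simp only [B, Ex, Finset.sum_filter, w]
      refine Finset.sum_congr rfl fun ω _ => ?_
      by_cases h1 : conn o T (symc ω) <;> simp [h1, ind]
    rw [e1, ← Ex_add]
    simp only [ind_not, add_sub_cancel, Ex_const (hP φ)]
  have h1 : ∀ φ, 1 ≤ Phi o T (Iw (M * M) (fun a => max (h + φ a) 0) 0) +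
      (∑ ω ∈ B, pos φ * w ω φ + npos φ) := by
    intro φ
    by_cases hφ : 0 < h + φ o
    · have e1 : pos φ = 1 := Set.indicator_of_mem (s := {φ : ι → ℝ | 0 < h + φ o}) hφ _
      simp only [e1, one_mul]
      linarith [ES_pos (T := T) hC hCs h φ hφ, hsplit φ, hnpos.nonneg φ]
    · have e1 : npos φ = 1 :=
        Set.indicator_of_mem (s := {φ : ι → ℝ | φ o ≤ -h}) (by simp; linarith) _
      have := Finset.sum_nonneg (s := B) fun ω _ => (hpos.mul (hw ω)).nonneg φ
      linarith [hU.nonneg φ]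
  have h2 : ∀ φ, ∑ ω ∈ B, neg φ * w ω φ ≤ npos φ := by
    intro φ
    rw [← Finset.mul_sum]
    have e1 : ∑ ω ∈ B, w ω φ ≤ 1 := by
      linarith [hsplit φ, Ex_nonneg (hP φ) fun ω => ind_nonneg (conn o T (symc ω))]
    have e2 : neg φ ≤ npos φ := by
      simp only [neg, npos, Set.indicator, Set.mem_ofPred_eq]
      split_ifs with h1 h2
      · exact le_rfl
      · exact absurd h1.le h2
      · exact zero_le_one
      · exact le_rfl
    nlinarith [hneg.nonneg φ, Finset.sum_nonneg (s := B) fun ω _ => (hw ω).nonneg φ]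
  have i1 : Integrable (fun φ => ∑ ω ∈ B, pos φ * w ω φ) (gff M) :=
    integrable_finsetSum _ fun ω _ => (hpos.mul (hw ω)).integrable _
  have i2 : Integrable (fun φ => ∑ ω ∈ B, neg φ * w ω φ) (gff M) :=
    integrable_finsetSum _ fun ω _ => (hneg.mul (hw ω)).integrable _
  have j1 := integral_mono (integrable_const (1 : ℝ))
    ((hU.integrable (gff M)).add (i1.add (hnpos.integrable _))) h1
  have j2 := integral_mono i2 (hnpos.integrable (gff M)) h2
  rw [integral_add' (hU.integrable _) (i1.add (hnpos.integrable _)),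
    integral_add' i1 (hnpos.integrable _),
    integral_finsetSum _ fun ω _ => (hpos.mul (hw ω)).integrable _,
    Finset.sum_congr rfl hflip,
    ← integral_finsetSum _ fun ω _ => (hneg.mul (hw ω)).integrable _] at j1
  have e1 : ∫ φ, npos φ ∂(gff M) = (gff M).real {φ | φ o ≤ -h} := by
    simp only [npos]
    rw [integral_indicator mnp]; simp
  simp only [integral_const, probReal_univ, smul_eq_mul, mul_one] at j1
  linarith

end Pool.Agent.P.MP_e2f79e_pr
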