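import Mathlib

/-! Resampling, the Harris inequality and Gaussian tails for finite product measures. -/

set_option linter.unusedSectionVars false

namespace Pool.Agent.P.MP_e2f79e_pr

open MeasureTheory ProbabilityTheory Finset Real

/-- Measurable functions with values in the unit interval. -/
structure U01 {X : Type*} [MeasurableSpace X] (f : X → ℝ) : Prop where
  meas : Measurable f
  nonneg : ∀ x, 0 ≤ f x
  le_one : ∀ x, f x ≤ 1

section U01

variable {X Y : Type*} [MeasurableSpace X] [MeasurableSpace Y]

lemma U01.integrable {f : X → ℝ} (h : U01 f) (μ : Measure X) [IsFiniteMeasure μ] :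
    Integrable f μ :=
  Integrable.of_bound h.meas.aestronglyMeasurable 1 (ae_of_all _ fun x => by
    rw [Real.norm_eq_abs, abs_of_nonneg (h.nonneg x)]; exact h.le_one x)

lemma U01.comp {f : X → ℝ} (h : U01 f) {g : Y → X} (hg : Measurable g) : U01 (fun y => f (g y)) :=
  ⟨h.meas.comp hg, fun _ => h.nonneg _, fun _ => h.le_one _⟩

lemma U01.mul {f g : X → ℝ} (h : U01 f) (h' : U01 g) : U01 (fun x => f x * g x) :=
  ⟨h.meas.mul h'.meas, fun x => mul_nonneg (h.nonneg x) (h'.nonneg x),
    fun x => mul_le_one₀ (h.le_one x) (h'.nonneg x) (h'.le_one x)⟩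

lemma U01.integral_right {f : X × Y → ℝ} (h : U01 f) (ν : Measure Y) [IsProbabilityMeasure ν] :
    U01 (fun x => ∫ y, f (x, y) ∂ν) := by
  refine ⟨(h.meas.stronglyMeasurable.integral_prod_right' (ν := ν)).measurable,
    fun x => integral_nonneg fun y => h.nonneg _, fun x => ?_⟩
  have := integral_mono ((h.comp (measurable_prodMk_left (x := x))).integrable ν)
    (integrable_const (1 : ℝ)) (fun y => h.le_one (x, y))
  simpa using this

lemma U01.integral_comp {f : Y → ℝ} (h : U01 f) {g : X → Y} {μ : Measure X} {ν : Measure Y}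
    (hg : MeasurePreserving g μ ν) : ∫ x, f (g x) ∂μ = ∫ y, f y ∂ν := by
  rw [← hg.map_eq, integral_map hg.measurable.aemeasurable h.meas.aestronglyMeasurable]

lemma U01.indicator {s : Set X} (hs : MeasurableSet s) : U01 (s.indicator (fun _ => (1 : ℝ))) :=
  ⟨measurable_const.indicator hs, fun x => by by_cases h : x ∈ s <;> simp [h],
    fun x => by by_cases h : x ∈ s <;> simp [h]⟩

end U01

variable {ι : Type*} [Fintype ι] [DecidableEq ι] (m : Measure ℝ) [IsProbabilityMeasure m]

lemma measurable_piecewise (s : Finset ι) :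
    Measurable fun p : (ι → ℝ) × (ι → ℝ) => s.piecewise p.2 p.1 := by
  refine measurable_pi_iff.2 fun i => ?_
  by_cases h : i ∈ s <;> simp only [Finset.piecewise, h, if_true, if_false] <;> fun_prop

lemma measurable_piecewise' (s : Finset ι) :
    Measurable fun p : (ι → ℝ) × (ι → ℝ) => s.piecewise p.1 p.2 :=
  (measurable_piecewise s).comp measurable_swap

lemma mp_swap (s : Finset ι) :
    MeasurePreserving (fun p : (ι → ℝ) × (ι → ℝ) => (s.piecewise p.2 p.1, s.piecewise p.1 p.2))
      ((Measure.pi fun _ : ι => m).prod (Measure.pi fun _ : ι => m))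
      ((Measure.pi fun _ : ι => m).prod (Measure.pi fun _ : ι => m)) := by
  have h1 := measurePreserving_arrowProdEquivProdArrow ℝ ℝ ι (fun _ => m) (fun _ => m)
  have h2 : MeasurePreserving (fun (a : ι → ℝ × ℝ) i => (if i ∈ s then Prod.swap else id) (a i))
      (Measure.pi fun _ : ι => m.prod m) (Measure.pi fun _ : ι => m.prod m) := by
    refine measurePreserving_pi _ _ fun i => ?_
    by_cases h : i ∈ s
    · simpa [h] using Measure.measurePreserving_swap
    · simpa [h] using MeasurePreserving.id _
  have h3 := (h1.comp h2).comp (h1.symm _)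
  convert h3 using 1
  funext p
  ext i <;> by_cases h : i ∈ s <;>
    simp [h, MeasurableEquiv.arrowProdEquivProdArrow, Equiv.arrowProdEquivProdArrow]

lemma mp_resample (s : Finset ι) :
    MeasurePreserving (fun p : (ι → ℝ) × (ι → ℝ) => s.piecewise p.2 p.1)
      ((Measure.pi fun _ : ι => m).prod (Measure.pi fun _ : ι => m))
      (Measure.pi fun _ : ι => m) :=
  measurePreserving_fst.comp (mp_swap m s)

lemma integral_update {F : (ι → ℝ) → ℝ} (hF : U01 F) (x : ι) :
    ∫ ω, F ω ∂(Measure.pi fun _ : ι => m) =
      ∫ ω, ∫ u, F (Function.update ω x u) ∂m ∂(Measure.pi fun _ : ι => m) := by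
  rw [← hF.integral_comp (mp_resample m {x}),
    integral_prod _ ((hF.comp (measurable_piecewise {x})).integrable _)]
  refine integral_congr_ae (ae_of_all _ fun ω => ?_)
  simp only [Finset.piecewise_singleton]
  have : U01 fun u => F (Function.update ω x u) := hF.comp (measurable_update ω)
  exact this.integral_comp (measurePreserving_eval (fun _ : ι => m) x)

/-- Harris inequality: `f` depends only on the coordinates in `J` and is increasing, `g` is
decreasing in the coordinates of `J`. -/
lemma harris {f g : (ι → ℝ) → ℝ} (hf : U01 f) (hg : U01 g) (J : Finset ι)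
    (hfJ : ∀ ω ω', f (J.piecewise ω ω') = f ω)
    (hfm : ∀ x ∈ J, ∀ ω u u', u ≤ u' → f (Function.update ω x u) ≤ f (Function.update ω x u'))
    (hgm : ∀ x ∈ J, ∀ ω u u', u ≤ u' → g (Function.update ω x u') ≤ g (Function.update ω x u)) :
    ∫ ω, f ω * g ω ∂(Measure.pi fun _ : ι => m) ≤
      (∫ ω, f ω ∂(Measure.pi fun _ : ι => m)) * ∫ ω, g ω ∂(Measure.pi fun _ : ι => m) := by
  set P : Measure (ι → ℝ) := Measure.pi fun _ : ι => m with hP
  have hU : ∀ s : Finset ι, U01 fun p : (ι → ℝ) × (ι → ℝ) => f p.1 * g (s.piecewise p.2 p.1) :=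
    fun s => (hf.comp measurable_fst).mul (hg.comp (measurable_piecewise s))
  have key : ∀ s : Finset ι, s ⊆ J → ∫ ω, f ω * g ω ∂P ≤
      ∫ p, f p.1 * g (s.piecewise p.2 p.1) ∂(P.prod P) := by
    intro s
    induction s using Finset.induction_on with
    | empty =>
      intro _
      simp only [Finset.piecewise_empty]
      exact le_of_eq ((hf.mul hg).integral_comp measurePreserving_fst).symm
    | insert x s hx ih =>
      intro hs
      have hxJ : x ∈ J := hs (Finset.mem_insert_self _ _)
      refine (ih ((Finset.subset_insert _ _).trans hs)).trans ?_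
      have e1 := (hU s).integral_comp (mp_swap m {x})
      have e2 := (hU (insert x s)).integral_comp (mp_swap m {x})
      have hm : Measurable fun p : (ι → ℝ) × (ι → ℝ) =>
          ((({x} : Finset ι).piecewise p.2 p.1), (({x} : Finset ι).piecewise p.1 p.2)) :=
        (mp_swap m {x}).measurable
      have i1 := (hU s).integrable (P.prod P)
      have i2 := (hU (insert x s)).integrable (P.prod P)
      have i3 := ((hU s).comp hm).integrable (P.prod P)
      have i4 := ((hU (insert x s)).comp hm).integrable (P.prod P)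
      have h5 := integral_mono (i1.add i3) (i2.add i4) ?_
      · rw [integral_add' i1 i3, integral_add' i2 i4] at h5
        simp only [← hP] at e1 e2
        linarith
      · rintro ⟨ω, ω'⟩
        simp only [Pi.add_apply]
        set τ := s.piecewise ω' ω
        have a1 : s.piecewise ω' ω = Function.update τ x (ω x) := by
          funext i; by_cases h : i = x
          · subst h; simp [hx]
          · simp [h, τ]
        have a2 : (insert x s).piecewise ω' ω = Function.update τ x (ω' x) := by
          rw [Finset.piecewise_insert]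
        have a3 : s.piecewise (({x} : Finset ι).piecewise ω ω') (({x} : Finset ι).piecewise ω' ω)
            = Function.update τ x (ω' x) := by
          funext i; by_cases h : i = x
          · subst h; simp [hx]
          · by_cases h' : i ∈ s <;> simp [h, h', τ, Finset.piecewise]
        have a4 : (insert x s).piecewise (({x} : Finset ι).piecewise ω ω')
            (({x} : Finset ι).piecewise ω' ω) = Function.update τ x (ω x) := by
          funext i; by_cases h : i = x
          · subst h; simp
          · by_cases h' : i ∈ s <;> simp [h, h', τ, Finset.piecewise]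
        have a5 : ({x} : Finset ι).piecewise ω' ω = Function.update ω x (ω' x) :=
          Finset.piecewise_singleton _ _ _
        have a6 : f ω = f (Function.update ω x (ω x)) := by simp
        rw [a2, a3, a4, a5, a6]
        have a7 : g τ = g (Function.update τ x (ω x)) := by rw [← a1]
        rw [a7]
        rcases le_total (ω x) (ω' x) with h | h
        · nlinarith [hfm x hxJ ω _ _ h, hgm x hxJ τ _ _ h]
        · nlinarith [hfm x hxJ ω _ _ h, hgm x hxJ τ _ _ h]
  refine (key J subset_rfl).trans (le_of_eq ?_)
  rw [← integral_prod_mul]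
  have : U01 fun p : (ι → ℝ) × (ι → ℝ) => f p.2 * g p.1 :=
    (hf.comp measurable_snd).mul (hg.comp measurable_fst)
  have e := this.integral_comp (mp_swap m J)
  simp only [hfJ] at e
  rw [e, ← integral_prod_swap]
  rfl

/-- The standard Gaussian measure on a finite product. -/
noncomputable abbrev gam (ι : Type*) [Fintype ι] : Measure (ι → ℝ) :=
  Measure.pi fun _ : ι => gaussianReal 0 1

lemma gam_tail (c : ι → ℝ) {v a : ℝ} (hv : 0 < v) (hc : ∑ z, c z ^ 2 ≤ v) (ha : 0 ≤ a) :
    (gam ι).real {ζ | a ≤ ∑ z, c z * ζ z} ≤ exp (-a ^ 2 / (2 * v)) := by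
  have ht : 0 ≤ a / v := by positivity
  have hprod : ∀ ζ : ι → ℝ, exp (a / v * ∑ z, c z * ζ z) = ∏ z, exp ((a / v * c z) * ζ z) := by
    intro ζ
    rw [← exp_sum, Finset.mul_sum]
    congr 1
    exact Finset.sum_congr rfl fun _ _ => by ring
  have hint : Integrable (fun ζ : ι → ℝ => exp (a / v * ∑ z, c z * ζ z)) (gam ι) := by
    simp only [hprod]
    exact Integrable.fintype_prod (f := fun z x => exp ((a / v * c z) * x))
      fun z => integrable_exp_mul_gaussianReal _
  have h := measure_ge_le_exp_mul_mgf (X := fun ζ : ι → ℝ => ∑ z, c z * ζ z) a ht hint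
  refine h.trans ?_
  have hm : mgf (fun ζ : ι → ℝ => ∑ z, c z * ζ z) (gam ι) (a / v) =
      exp ((a / v) ^ 2 * (∑ z, c z ^ 2) / 2) := by
    unfold mgf
    simp only [hprod]
    rw [integral_fintype_prod_eq_prod (fun z x => exp ((a / v * c z) * x))]
    have : ∀ z, ∫ x, exp ((a / v * c z) * x) ∂(gaussianReal 0 1) =
        exp ((a / v * c z) ^ 2 / 2) := by
      intro z
      have := congrFun (mgf_id_gaussianReal (μ := 0) (v := 1)) (a / v * c z)
      simpa [mgf] using this
    simp only [this]
    rw [← exp_sum, Finset.mul_sum, Finset.sum_div]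
    congr 1
    exact Finset.sum_congr rfl fun _ _ => by ring
  rw [hm, ← exp_add]
  refine exp_le_exp.2 ?_
  have h1 : (a / v) ^ 2 * (∑ z, c z ^ 2) / 2 ≤ (a / v) ^ 2 * v / 2 := by gcongr
  have h2 : -(a / v) * a + (a / v) ^ 2 * v / 2 = -a ^ 2 / (2 * v) := by field_simp; ring
  linarith

lemma gam_eq_withDensity :
    gam ι = (volume : Measure (ι → ℝ)).withDensity
      (fun ζ => ENNReal.ofReal (∏ z, gaussianPDFReal 0 1 (ζ z))) := by
  refine Measure.pi_eq fun s hs => ?_
  rw [withDensity_apply _ (MeasurableSet.univ_pi hs)]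
  have hi : ∀ z, Integrable ((s z).indicator (gaussianPDFReal 0 1)) volume :=
    fun z => (integrable_gaussianPDFReal 0 1).indicator (hs z)
  have e1 : ∀ ζ : ι → ℝ, (Set.univ.pi s).indicator
      (fun ζ => ENNReal.ofReal (∏ z, gaussianPDFReal 0 1 (ζ z))) ζ =
      ENNReal.ofReal (∏ z, (s z).indicator (gaussianPDFReal 0 1) (ζ z)) := by
    intro ζ
    by_cases h : ζ ∈ Set.univ.pi s
    · rw [Set.indicator_of_mem h]
      congr 1
      exact Finset.prod_congr rfl fun z _ => (Set.indicator_of_mem (h z trivial) _).symm
    · rw [Set.indicator_of_notMem h]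
      simp only [Set.mem_pi, Set.mem_univ, true_imp_iff, not_forall] at h
      obtain ⟨z, hz⟩ := h
      rw [Finset.prod_eq_zero (Finset.mem_univ z) (Set.indicator_of_notMem hz _)]
      simp
  rw [← lintegral_indicator (MeasurableSet.univ_pi hs)]
  simp only [e1]
  have hnn : ∀ z x, 0 ≤ (s z).indicator (gaussianPDFReal 0 1) x :=
    fun z x => Set.indicator_nonneg (fun _ _ => gaussianPDFReal_nonneg _ _ _) _
  have hi2 : Integrable (fun ζ : ι → ℝ => ∏ z, (s z).indicator (gaussianPDFReal 0 1) (ζ z))
      volume := Integrable.fintype_prod hi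
  rw [← ofReal_integral_eq_lintegral_ofReal hi2
    (ae_of_all _ fun ζ => Finset.prod_nonneg fun z _ => hnn z _)]
  rw [integral_fintype_prod_volume_eq_prod (fun z x => (s z).indicator (gaussianPDFReal 0 1) x),
    ENNReal.ofReal_prod_of_nonneg (fun z _ => integral_nonneg (hnn z))]
  refine Finset.prod_congr rfl fun z _ => ?_
  rw [integral_indicator (hs z), gaussianReal_apply_eq_integral _ one_ne_zero]

end Pool.Agent.P.MP_e2f79e_pr
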