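import Pool.Agent.P.MP_e2f79e_pr.GFF

/-! Percolation on a spread out finite network. -/

set_option linter.unusedSectionVars false

namespace Pool.Agent.P.MP_e2f79e_pr

open MeasureTheory ProbabilityTheory Finset Real Matrix Filter Topology

variable {ι : Type*} [Fintype ι] [DecidableEq ι] {o : ι} {T : Finset ι}

lemma pow_nonneg_entries {M : Matrix ι ι ℝ} (hM0 : ∀ a b, 0 ≤ M a b) (j : ℕ) :
    ∀ a b, 0 ≤ (M ^ j) a b := by
  induction j with
  | zero => intro a b; by_cases h : a = b <;> simp [one_apply, h]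
  | succ j ih =>
    intro a b
    rw [pow_succ, mul_apply]
    exact Finset.sum_nonneg fun z _ => mul_nonneg (ih _ _) (hM0 _ _)

lemma pow_range {D : ι → ι → ℕ} (hD0 : ∀ a, D a a = 0)
    (hDt : ∀ a b c, D a c ≤ D a b + D b c) {M : Matrix ι ι ℝ} {L : ℕ}
    (hML : ∀ a b, M a b ≠ 0 → D a b ≤ L) (j : ℕ) :
    ∀ a b, (M ^ j) a b ≠ 0 → D a b ≤ j * L := by
  induction j with
  | zero =>
    intro a b h
    by_cases h' : a = b
    · simp [h', hD0]
    · simp [h'] at h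
  | succ j ih =>
    intro a b h
    rw [pow_succ, mul_apply] at h
    obtain ⟨z, _, hz⟩ := Finset.exists_ne_zero_of_sum_ne_zero h
    have h1 := ih a z (left_ne_zero_of_mul hz)
    have h2 := hML z b (right_ne_zero_of_mul hz)
    have := hDt a z b
    rw [Nat.succ_mul]; omega

lemma real_eq_integral {X : Type*} [MeasurableSpace X] (μ : Measure X) {s : Set X}
    (hs : MeasurableSet s) : μ.real s = ∫ x, s.indicator (fun _ => (1 : ℝ)) x ∂μ := by
  rw [integral_indicator hs]; simp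

lemma tail_step {M : Matrix ι ι ℝ} (hM : ∀ a b, M a b = M b a) (hi : Integrable (rho M))
    (K : Matrix ι ι ℝ) {a b v : ℝ} (ha : 0 ≤ a) (hv : 0 < v) (hvar : ∑ z, K o z ^ 2 ≤ v) :
    (gff M).real {φ | (K *ᵥ φ) o ≤ -b} ≤
      exp (-a ^ 2 / (2 * v)) + (gff M).real {φ | ((K * M) *ᵥ φ) o ≤ -(b - a)} := by
  have := gff_prob hi
  have m1 : ∀ (K : Matrix ι ι ℝ) (b : ℝ), MeasurableSet {φ : ι → ℝ | (K *ᵥ φ) o ≤ b} :=
    fun K b => measurableSet_le ((measurable_pi_apply o).comp (measurable_mulVec K))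
      measurable_const
  have m2 : MeasurableSet {ξ : ι → ℝ | a ≤ ∑ z, (-K o z) * ξ z} :=
    measurableSet_le measurable_const (by fun_prop)
  have hmp := gff_ar hM hi
  rw [← hmp.measureReal_preimage (m1 K (-b)).nullMeasurableSet]
  have hsub : (fun p : (ι → ℝ) × (ι → ℝ) => p.2 + M *ᵥ p.1) ⁻¹' {φ | (K *ᵥ φ) o ≤ -b} ⊆
      Prod.snd ⁻¹' {ξ : ι → ℝ | a ≤ ∑ z, (-K o z) * ξ z} ∪
        Prod.fst ⁻¹' {φ | ((K * M) *ᵥ φ) o ≤ -(b - a)} := by
    rintro ⟨φ, ξ⟩ h
    simp only [Set.mem_preimage, Set.mem_ofPred_eq, mulVec_add, mulVec_mulVec, Pi.add_apply,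
      Set.mem_union] at h ⊢
    have : ∑ z, (-K o z) * ξ z = -(K *ᵥ ξ) o := by
      simp [mulVec, dotProduct]
    rw [this]
    by_contra hn
    push Not at hn
    linarith [hn.1, hn.2]
  refine (measureReal_mono hsub).trans ((measureReal_union_le _ _).trans ?_)
  rw [measurePreserving_snd.measureReal_preimage m2.nullMeasurableSet,
    measurePreserving_fst.measureReal_preimage (m1 _ _).nullMeasurableSet]
  gcongr
  exact gam_tail _ hv (by simpa using hvar) ha

lemma remainder_small {M : Matrix ι ι ℝ} {θ : ℝ} (hθ : 0 < θ) (hθ1 : θ ≤ 1)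
    (hco : ∀ φ, θ * ∑ a, φ a ^ 2 ≤ Qf M φ) {ε : ℝ} (hε : 0 < ε) :
    ∃ J : ℕ, ∃ S : Set (ι → ℝ), MeasurableSet S ∧ (gff M).real S ≤ ε ∧
      ∀ φ, φ ∉ S → ∀ y, |((M ^ (J + 1)) *ᵥ φ) y| < 1 := by
  have := gff_prob (integrable_rho hθ hco)
  have h1 : ∀ (j : ℕ) (φ : ι → ℝ), ∑ a, ((M ^ j) *ᵥ φ) a ^ 2 ≤ (1 - θ) ^ j * ∑ a, φ a ^ 2 := by
    intro j φ
    induction j with
    | zero => simp
    | succ j ih =>
      rw [pow_succ', ← mulVec_mulVec, pow_succ', mul_assoc]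
      have := hco ((M ^ j) *ᵥ φ)
      unfold Qf at this
      have h2 := mul_le_mul_of_nonneg_left ih (sub_nonneg.2 hθ1)
      linarith
  let S : ℕ → Set (ι → ℝ) := fun j => {φ | 1 ≤ (1 - θ) ^ j * ∑ a, φ a ^ 2}
  have mS : ∀ j, MeasurableSet (S j) := fun j => measurableSet_le measurable_const (by fun_prop)
  have hanti : Antitone S := by
    intro i j hij φ hφ
    simp only [S, Set.mem_ofPred_eq] at hφ ⊢
    refine hφ.trans (mul_le_mul_of_nonneg_right ?_ (by positivity))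
    exact pow_le_pow_of_le_one (sub_nonneg.2 hθ1) (by linarith) hij
  have hlim := tendsto_measure_iInter_atTop (μ := gff M) (fun j => (mS j).nullMeasurableSet) hanti
    ⟨0, measure_ne_top _ _⟩
  have hempty : ⋂ j, S j = ∅ := by
    ext φ
    simp only [Set.mem_iInter, Set.mem_empty_iff_false, iff_false, not_forall]
    have : Tendsto (fun j : ℕ => (1 - θ) ^ j * ∑ a, φ a ^ 2) atTop (𝓝 (0 * ∑ a, φ a ^ 2)) :=
      (tendsto_pow_atTop_nhds_zero_of_lt_one (sub_nonneg.2 hθ1) (by linarith)).mul_const _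
    rw [zero_mul] at this
    obtain ⟨j, hj⟩ := (this.eventually (gt_mem_nhds one_pos)).exists
    exact ⟨j, not_le.2 hj⟩
  rw [hempty, measure_empty] at hlim
  have hlim2 : Tendsto (fun j => (gff M).real (S j)) atTop (𝓝 0) := by
    have := (ENNReal.tendsto_toReal ENNReal.zero_ne_top).comp hlim
    simpa [Function.comp_def, measureReal_def] using this
  obtain ⟨J, hJ⟩ := (hlim2.eventually (gt_mem_nhds hε)).exists
  refine ⟨J, S J, mS J, hJ.le, fun φ hφ y => ?_⟩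
  have h2 : φ ∉ S (J + 1) := fun h => hφ (hanti (Nat.le_succ J) h)
  simp only [S, Set.mem_ofPred_eq, not_le] at h2
  have h3 : ((M ^ (J + 1)) *ᵥ φ) y ^ 2 ≤ ∑ a, ((M ^ (J + 1)) *ᵥ φ) a ^ 2 :=
    Finset.single_le_sum (f := fun a => ((M ^ (J + 1)) *ᵥ φ) a ^ 2)
      (fun _ _ => sq_nonneg _) (Finset.mem_univ y)
  have h4 := h1 (J + 1) φ
  exact (sq_lt_one_iff_abs_lt_one _).1 (by linarith)

theorem network {D : ι → ι → ℕ} (hDs : ∀ a b, D a b = D b a) (hD0 : ∀ a, D a a = 0)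
    (hDt : ∀ a b c, D a c ≤ D a b + D b c) {M : Matrix ι ι ℝ} (hM : ∀ a b, M a b = M b a)
    (hM0 : ∀ a b, 0 ≤ M a b) {L ℓ : ℕ} (hML : ∀ a b, M a b ≠ 0 → D a b ≤ L)
    (hrow : ∀ a, a ∉ T → ∑ b, (M * M) a b = 1) {θ : ℝ} (hθ : 0 < θ) (hθ1 : θ ≤ 1)
    (hco : ∀ φ, θ * ∑ a, φ a ^ 2 ≤ Qf M φ) {a v s : ℕ → ℝ} {R n N : ℕ → ℕ} {c : ℝ}
    (ha : ∀ j, 0 ≤ a j) (hv : ∀ j, 0 < v j) (hs : ∀ j, 0 ≤ s j)
    (hvar : ∀ j x, ∑ z, (M ^ (j + 1)) x z ^ 2 ≤ v j)
    (hch : ∀ j x u w, D x u ≤ 2 * ((j + 1) * L) + 2 * L → D x w ≤ 2 * ((j + 1) * L) + 2 * L →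
      ∃ Ec : Finset (ι × ι), Ec.card ≤ n j ∧ (∀ e ∈ Ec, D e.1 e.2 ≤ ℓ ∧ D x e.1 ≤ R j) ∧
        ∀ ω : ι × ι → Bool, (∀ e ∈ Ec, ω e = true) → Reach ω u w ∨ conn u T ω)
    (hq : ∀ j, exp (-a j ^ 2 / (2 * v j)) ≤ (1 - exp (-s j)) ^ n j)
    (hN : ∀ j y, (univ.filter fun x => D x y ≤ R j).card ≤ N j)
    (hsa : ∀ J, ∑ j ∈ range J, a j ≤ 1)
    (hsq : ∀ J, ∑ j ∈ range J, exp (-a j ^ 2 / (2 * v j)) ≤ 1 / 20)
    (hss : ∀ J, ∑ j ∈ range J, N j * s j ≤ c) :
    1 / 2 ≤ Phi o T (Iw (M * M) (fun _ => 7) (fun e => if D e.1 e.2 ≤ ℓ then c else 0)) := by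
  have hi := integrable_rho hθ hco
  have := gff_prob hi
  have hC : ∀ a b, 0 ≤ (M * M) a b := by simpa [sq] using pow_nonneg_entries hM0 2
  have hCL : ∀ a b, (M * M) a b ≠ 0 → D a b ≤ 2 * L := by
    simpa [sq] using pow_range hD0 hDt hML 2
  let σ : ℕ → ι × ι → ℝ := fun J e => if D e.1 e.2 ≤ ℓ then ∑ j ∈ range J, N j * s j else 0
  have hσ : ∀ J e, 0 ≤ σ J e := by
    intro J e; simp only [σ]; split_ifs
    · exact Finset.sum_nonneg fun j _ => mul_nonneg (Nat.cast_nonneg _) (hs j)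
    · exact le_rfl
  let F : ℕ → (ι → ℝ) → ℝ := fun J φ => Phi o T (Iw (M * M)
    (fun y => 1 + max (4 + ∑ j ∈ range J, a j + ((M ^ (J + 1)) *ᵥ φ) y) 0) (σ J))
  have hF : ∀ J, U01 (F J) := by
    intro J
    refine U01_Phi hC (fun _ _ => by positivity) (hσ J) fun y => ?_
    have := (measurable_pi_apply y).comp (measurable_mulVec (M ^ (J + 1)))
    exact measurable_const.add ((measurable_const.add this).max measurable_const)
  have hU : U01 fun φ : ι → ℝ => Phi o T (Iw (M * M) (fun a => max (4 + φ a) 0) 0) :=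
    U01_Phi hC (fun _ _ => le_max_right _ _) (fun _ => le_rfl) fun a => by fun_prop
  have hmar := (gff_ar hM hi).measurable
  have step0 : ∫ φ, Phi o T (Iw (M * M) (fun a => max (4 + φ a) 0) 0) ∂(gff M) ≤
      ∫ φ, F 0 φ ∂(gff M) := by
    rw [integral_gff_ar hM hi hU]
    refine integral_mono (((hU.comp hmar).integral_right _).integrable _) ((hF 0).integrable _)
      fun φ => ?_
    have := jensen_all (o := o) (T := T) hC (fun y => 4 + (M *ᵥ φ) y)
    have e0 : σ 0 = 0 := by funext e; simp [σ]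
    have e1 : ∀ ξ : ι → ℝ, (fun a => max (4 + (ξ + M *ᵥ φ) a) 0) =
        fun a => max (4 + (M *ᵥ φ) a + ξ a) 0 := by
      intro ξ; funext a; simp only [Pi.add_apply]; congr 1; ring
    simp only [F, e0, e1, range_zero, sum_empty, add_zero, zero_add, pow_one]
    exact this
  have stepJ : ∀ J, ∫ φ, F J φ ∂(gff M) ≤ ∫ φ, F (J + 1) φ ∂(gff M) := by
    intro J
    rw [integral_gff_ar hM hi (hF J)]
    refine integral_mono ((((hF J).comp hmar).integral_right _).integrable _)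
      ((hF _).integrable _) fun φ => ?_
    have := remove_layer (o := o) (T := T) hDs hD0 hDt hC (pow_nonneg_entries hM0 (J + 1)) hCL
      (pow_range hD0 hDt hML (J + 1)) (ha J) (hv J) (hs J) (hvar J) (hch J) (hq J) (hN J)
      (fun y => 4 + ∑ j ∈ range J, a j + ((M ^ (J + 1 + 1)) *ᵥ φ) y) (hσ J)
    have e1 : ∀ ξ : ι → ℝ,
        (fun y => 1 + max (4 + ∑ j ∈ range J, a j + ((M ^ (J + 1)) *ᵥ (ξ + M *ᵥ φ)) y) 0) =
        fun y => 1 + max (4 + ∑ j ∈ range J, a j + ((M ^ (J + 1 + 1)) *ᵥ φ) y +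
          ∑ z, (M ^ (J + 1)) y z * ξ z) 0 := by
      intro ξ; funext y
      rw [mulVec_add, mulVec_mulVec, ← pow_succ]
      simp only [Pi.add_apply, mulVec, dotProduct]
      congr 2; ring
    have e2 : (fun y => 1 + max (4 + ∑ j ∈ range (J + 1), a j + ((M ^ (J + 1 + 1)) *ᵥ φ) y) 0) =
        fun y => 1 + max (4 + ∑ j ∈ range J, a j + ((M ^ (J + 1 + 1)) *ᵥ φ) y + a J) 0 := by
      funext y; rw [Finset.sum_range_succ]; congr 2; ring
    have e3 : σ (J + 1) = fun e => σ J e + if D e.1 e.2 ≤ ℓ then N J * s J else 0 := by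
      funext e
      simp only [σ, Finset.sum_range_succ]
      split_ifs <;> simp
    simp only [F, e1, e2, e3]
    exact this
  have stepAll : ∀ J, ∫ φ, F 0 φ ∂(gff M) ≤ ∫ φ, F J φ ∂(gff M) := by
    intro J
    induction J with
    | zero => exact le_rfl
    | succ J ih => exact ih.trans (stepJ J)
  obtain ⟨J, S, mS, hS, hSJ⟩ := remainder_small hθ hθ1 hco (ε := 1 / 30) (by norm_num)
  have hc : ∀ e : ι × ι, σ J e ≤ if D e.1 e.2 ≤ ℓ then c else 0 := by
    intro e; simp only [σ]; split_ifs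
    · exact hss J
    · exact le_rfl
  have hI7 := Iw_nonneg (W := fun _ => 7) hC (fun _ => by norm_num) fun e => (hσ J e).trans (hc e)
  have last : ∫ φ, F J φ ∂(gff M) ≤
      Phi o T (Iw (M * M) (fun _ => 7) (fun e => if D e.1 e.2 ≤ ℓ then c else 0)) + 1 / 30 := by
    have h1 : ∀ φ, F J φ ≤
        Phi o T (Iw (M * M) (fun _ => 7) (fun e => if D e.1 e.2 ≤ ℓ then c else 0)) +
          S.indicator (fun _ => (1 : ℝ)) φ := by
      intro φ
      by_cases hφ : φ ∈ S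
      · rw [Set.indicator_of_mem hφ]
        linarith [(hF J).le_one φ, Phi_nonneg (o := o) (T := T) hI7]
      · rw [Set.indicator_of_notMem hφ, add_zero]
        refine Phi_mono (Iw_nonneg hC (fun _ => by positivity) (hσ J))
          (Iw_mono hC (fun _ => by positivity) (fun y => ?_) hc)
        have := (abs_lt.1 (hSJ φ hφ y)).2
        have := hsa J
        have : max (4 + ∑ j ∈ range J, a j + ((M ^ (J + 1)) *ᵥ φ) y) 0 ≤ 6 :=
          max_le (by linarith) (by norm_num)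
        linarith
    have h2 := integral_mono ((hF J).integrable (gff M))
      ((integrable_const _).add ((U01.indicator mS).integrable _)) h1
    rw [integral_add' (integrable_const _) ((U01.indicator mS).integrable _),
      ← real_eq_integral _ mS] at h2
    simp only [integral_const, probReal_univ, smul_eq_mul, one_mul] at h2
    linarith
  have tailJ : ∀ J, (gff M).real {φ | ((M ^ (0 + 1)) *ᵥ φ) o ≤ -2} ≤
      ∑ j ∈ range J, exp (-a j ^ 2 / (2 * v j)) +
        (gff M).real {φ | ((M ^ (J + 1)) *ᵥ φ) o ≤ -(2 - ∑ j ∈ range J, a j)} := by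
    intro J
    induction J with
    | zero => simp
    | succ J ih =>
      have := tail_step (o := o) hM hi (M ^ (J + 1)) (b := 2 - ∑ j ∈ range J, a j) (ha J) (hv J)
        (hvar J o)
      rw [← pow_succ, sub_sub, ← Finset.sum_range_succ] at this
      rw [Finset.sum_range_succ]
      linarith
  have tail0 := tail_step (o := o) hM hi 1 (a := 2) (b := 4) (v := 1) (by norm_num) one_pos
    (by simp [one_apply])
  have tailS : (gff M).real {φ | ((M ^ (J + 1)) *ᵥ φ) o ≤ -(2 - ∑ j ∈ range J, a j)} ≤ 1 / 30 := by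
    have hsa' : ∑ j ∈ range J, a j ≤ 1 := hsa J
    refine (measureReal_mono fun φ hφ => ?_).trans hS
    by_contra hn
    have := (abs_lt.1 (hSJ φ hn o)).1
    simp only [Set.mem_ofPred_eq] at hφ
    linarith
  have hes := ES_main (o := o) hM hM0 hrow hi 4
  have he2 : exp (-(2 : ℝ) ^ 2 / (2 * 1)) ≤ 1 / 7 := by
    have h1 : exp (-(2 : ℝ) ^ 2 / (2 * 1)) = (exp 1 * exp 1)⁻¹ := by
      rw [← Real.exp_add, ← Real.exp_neg]; congr 1; norm_num
    have h2 := exp_one_gt_d9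
    rw [h1, one_div]
    exact inv_anti₀ (by norm_num) (by nlinarith)
  have t1 := tailJ J
  have t2 := hsq J
  have t3 := stepAll J
  simp only [one_mulVec, Matrix.one_mul, zero_add, pow_one] at tail0 t1
  have e4 : -(4 - 2 : ℝ) = -2 := by norm_num
  rw [e4] at tail0
  linarith

end Pool.Agent.P.MP_e2f79e_pr
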