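import Pool.Agent.P.MP_e2f79e_pr.Trace
import Pool.Agent.P.MP_e2f79e_pr.Network

/-! Heat kernel bounds for the lazy trace matrix and numerical lemmas. -/

set_option linter.unusedSectionVars false

namespace Pool.Agent.P.MP_e2f79e_pr

open Finset Matrix Real

section matrix

variable {ι : Type*} [Fintype ι] [DecidableEq ι]

lemma sq_contract {B : Matrix ι ι ℝ} (hs : ∀ a b, B a b = B b a) (h0 : ∀ a b, 0 ≤ B a b)
    (hr : ∀ a, ∑ b, B a b ≤ 1) (f : ι → ℝ) : ∑ a, (B *ᵥ f) a ^ 2 ≤ ∑ a, f a ^ 2 := by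
  have h1 : ∀ a, (B *ᵥ f) a ^ 2 ≤ ∑ b, B a b * f b ^ 2 := by
    intro a
    have := Finset.sum_sq_le_sum_mul_sum_of_sq_le_mul (s := univ) (r := fun b => B a b * f b)
      (f := fun b => B a b) (g := fun b => B a b * f b ^ 2) (fun b _ => h0 a b)
      (fun b _ => mul_nonneg (h0 a b) (sq_nonneg _)) (fun b _ => le_of_eq (by ring))
    refine this.trans (mul_le_of_le_one_left ?_ (hr a))
    exact Finset.sum_nonneg fun b _ => mul_nonneg (h0 a b) (sq_nonneg _)
  refine (Finset.sum_le_sum fun a _ => h1 a).trans ?_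
  rw [Finset.sum_comm]
  refine Finset.sum_le_sum fun b _ => ?_
  rw [← Finset.sum_mul]
  simp only [hs _ b]
  exact mul_le_of_le_one_left (sq_nonneg _) (hr b)

lemma abs_contract {B : Matrix ι ι ℝ} (hs : ∀ a b, B a b = B b a) (h0 : ∀ a b, 0 ≤ B a b)
    (hr : ∀ a, ∑ b, B a b ≤ 1) (f : ι → ℝ) : ∑ a, |(B *ᵥ f) a| ≤ ∑ a, |f a| := by
  have h1 : ∀ a, |(B *ᵥ f) a| ≤ ∑ b, B a b * |f b| := by
    intro a
    refine (Finset.abs_sum_le_sum_abs _ _).trans (le_of_eq ?_)
    exact Finset.sum_congr rfl fun b _ => by rw [abs_mul, abs_of_nonneg (h0 a b)]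
  refine (Finset.sum_le_sum fun a _ => h1 a).trans ?_
  rw [Finset.sum_comm]
  refine Finset.sum_le_sum fun b _ => ?_
  rw [← Finset.sum_mul]
  simp only [hs _ b]
  exact mul_le_of_le_one_left (abs_nonneg _) (hr b)

lemma pow_symm {B : Matrix ι ι ℝ} (hs : ∀ a b, B a b = B b a) (n : ℕ) (a b : ι) :
    (B ^ n) a b = (B ^ n) b a := by
  have h : B.IsSymm := Matrix.IsSymm.ext fun a b => hs b a
  exact (h.pow n).apply b a

lemma pow_sq_contract {B : Matrix ι ι ℝ} (hs : ∀ a b, B a b = B b a) (h0 : ∀ a b, 0 ≤ B a b)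
    (hr : ∀ a, ∑ b, B a b ≤ 1) (n : ℕ) (f : ι → ℝ) :
    ∑ a, ((B ^ n) *ᵥ f) a ^ 2 ≤ ∑ a, f a ^ 2 := by
  induction n with
  | zero => simp
  | succ n ih => rw [pow_succ', ← mulVec_mulVec]; exact (sq_contract hs h0 hr _).trans ih

lemma pow_abs_contract {B : Matrix ι ι ℝ} (hs : ∀ a b, B a b = B b a) (h0 : ∀ a b, 0 ≤ B a b)
    (hr : ∀ a, ∑ b, B a b ≤ 1) (n : ℕ) (f : ι → ℝ) :
    ∑ a, |((B ^ n) *ᵥ f) a| ≤ ∑ a, |f a| := by
  induction n with
  | zero => simp
  | succ n ih => rw [pow_succ', ← mulVec_mulVec]; exact (abs_contract hs h0 hr _).trans ih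

end matrix

lemma decay {K : ℝ} (hK : 1 ≤ K) : ∃ K' : ℝ, 0 < K' ∧ ∀ u : ℕ → ℝ, u 0 ≤ 1 →
    (∀ n, u (n + 1) ≤ u n) →
    (∀ n r : ℕ, 1 ≤ r → u n ≤ K * r ^ 2 * (u n - u (n + 1)) + K / r ^ 12) →
    ∀ n : ℕ, 1 ≤ n → u n ≤ K' / n ^ 6 := by
  refine ⟨2 * K * (48 * K) ^ 6, by positivity, fun u h0 hm hN => ?_⟩
  set K' := 2 * K * (48 * K) ^ 6 with hK'
  have hu1 : ∀ n, u n ≤ 1 := fun n =>
    (antitone_nat_of_succ_le hm (Nat.zero_le n)).trans h0
  have small : ∀ n : ℕ, 1 ≤ n → (n : ℝ) ≤ 48 * K → u n ≤ K' / n ^ 6 := by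
    intro n hn h
    have hn' : (0 : ℝ) < n := by exact_mod_cast hn
    refine (hu1 n).trans ?_
    rw [le_div_iff₀ (by positivity), one_mul]
    calc (n : ℝ) ^ 6 ≤ (48 * K) ^ 6 := by gcongr
      _ ≤ K' := by rw [hK']; exact le_mul_of_one_le_left (by positivity) (by linarith)
  intro n hn
  induction n, hn using Nat.le_induction with
  | base => exact small 1 le_rfl (by push_cast; linarith)
  | succ n hn ih =>
    by_cases h : ((n + 1 : ℕ) : ℝ) ≤ 48 * K
    · exact small _ (by omega) h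
    push_cast at h ⊢
    have hn' : (0 : ℝ) < n := by exact_mod_cast hn
    set x : ℝ := (n + 1) / (12 * K) with hx
    have hx4 : 4 < x := by rw [hx, lt_div_iff₀ (by positivity)]; linarith
    set r := Nat.sqrt ⌊x⌋₊ with hr
    have r1 : ((r : ℝ)) ^ 2 ≤ x := by
      have : r ^ 2 ≤ ⌊x⌋₊ := Nat.sqrt_le' _
      exact le_trans (by exact_mod_cast this) (Nat.floor_le (by linarith))
    have r2 : x < ((r : ℝ) + 1) ^ 2 := by
      have h1 : ⌊x⌋₊ + 1 ≤ (r + 1) ^ 2 := Nat.lt_succ_sqrt' _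
      have h2 := Nat.lt_floor_add_one x
      exact h2.trans_le (by exact_mod_cast h1)
    have r3 : 1 ≤ r := by
      by_contra h1
      have : r = 0 := by omega
      rw [this] at r2; norm_num at r2; linarith
    have r3' : (1 : ℝ) ≤ r := by exact_mod_cast r3
    have r4 : n + 1 ≤ 48 * K * (r : ℝ) ^ 2 := by
      have h1 : x ≤ 4 * (r : ℝ) ^ 2 := by nlinarith
      rw [hx, div_le_iff₀ (by positivity)] at h1
      linarith
    have r5 : 12 * K * (r : ℝ) ^ 2 ≤ n + 1 := by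
      rw [hx, le_div_iff₀ (by positivity)] at r1
      linarith
    by_cases h1 : u n ≤ K' / (n + 1) ^ 6
    · exact (hm n).trans h1
    push Not at h1
    have h2 : K / (r : ℝ) ^ 12 ≤ u n / 2 := by
      refine le_trans ?_ (div_le_div_of_nonneg_right h1.le two_pos.le)
      rw [div_div, div_le_div_iff₀ (by positivity) (by positivity)]
      have : ((n : ℝ) + 1) ^ 6 ≤ (48 * K * (r : ℝ) ^ 2) ^ 6 := by gcongr
      calc K * ((n + 1) ^ 6 * 2) ≤ K * ((48 * K * (r : ℝ) ^ 2) ^ 6 * 2) := by gcongr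
        _ = _ := by rw [hK']; ring
    have h3 := hN n r r3
    have hu0 : 0 < u n := lt_trans (by positivity) h1
    have h4 : u n / 2 ≤ (n + 1) / 12 * (u n - u (n + 1)) := by
      have : K * r ^ 2 * (u n - u (n + 1)) ≤ (n + 1) / 12 * (u n - u (n + 1)) :=
        mul_le_mul_of_nonneg_right (by linarith) (sub_nonneg.2 (hm n))
      linarith
    have h5 : u (n + 1) ≤ u n * (1 + (6 : ℕ) * (-(1 / (n + 1)))) := by
      have : 6 * u n / (n + 1) ≤ u n - u (n + 1) := by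
        rw [div_le_iff₀ (by positivity)]; linarith
      have e : u n * (1 + (6 : ℕ) * (-(1 / (n + 1)))) = u n - 6 * u n / (n + 1) := by
        push_cast; ring
      linarith
    have h6 := one_add_mul_le_pow (a := -(1 / ((n : ℝ) + 1))) (by
      have : 1 / ((n : ℝ) + 1) ≤ 1 := by rw [div_le_one (by positivity)]; linarith
      linarith) 6
    have h7 : (1 + -(1 / ((n : ℝ) + 1))) = n / (n + 1) := by field_simp; ring
    rw [h7] at h6
    calc u (n + 1) ≤ u n * (n / (n + 1)) ^ 6 := h5.trans (by gcongr)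
      _ ≤ K' / n ^ 6 * (n / (n + 1)) ^ 6 := by gcongr
      _ = _ := by field_simp

lemma sum_a_le (J : ℕ) : ∑ j ∈ range J, (1 : ℝ) / ((j + 1) * (j + 2)) ≤ 1 := by
  have : ∑ j ∈ range J, (1 : ℝ) / ((j + 1) * (j + 2)) = 1 - 1 / (J + 1) := by
    induction J with
    | zero => simp
    | succ J ih => rw [Finset.sum_range_succ, ih]; push_cast; field_simp; ring
  rw [this]
  have : (0 : ℝ) ≤ 1 / (J + 1) := by positivity
  linarith

lemma params {K' c : ℝ} (hK : 0 < K') (hc0 : 0 < c) (hc1 : c ≤ 1) (Δ K4 : ℕ) :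
    ∃ m : ℕ, 1 ≤ m ∧ ∀ L : ℕ, 1 ≤ L → L ≤ K4 * m ^ 2 → ∀ j : ℕ,
      exp (-((1 : ℝ) / ((j + 1) * (j + 2))) ^ 2 / (2 * (K' / ((m * (j + 1) : ℕ) : ℝ) ^ 6))) ≤
        (1 - exp (-(c * (1 / ((j + 1) * (j + 2))) / (((Δ + 1) ^ (13 * ((j + 1) * L)) : ℕ) : ℝ)))) ^
          (8 * ((j + 1) * L)) ∧
      exp (-((1 : ℝ) / ((j + 1) * (j + 2))) ^ 2 / (2 * (K' / ((m * (j + 1) : ℕ) : ℝ) ^ 6))) ≤
        1 / ((j + 1) * (j + 2)) / 20 := by
  set K3 : ℝ := 2 / c + 2 + 13 * Δ with hK3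
  have hK30 : 0 < K3 := by positivity
  obtain ⟨m, hm⟩ := exists_nat_ge (1 + 48 * K' + 64 * K' * K3 * K4 ^ 2)
  have hm1 : (1 : ℝ) ≤ m := le_trans (by
    have : 0 ≤ 48 * K' + 64 * K' * K3 * K4 ^ 2 := by positivity
    linarith) hm
  refine ⟨m, by exact_mod_cast hm1, fun L hL1 hL j => ?_⟩
  set t : ℝ := j + 1 with ht
  have ht1 : 1 ≤ t := by simp [ht]
  have e2 : (j : ℝ) + 2 = t + 1 := by rw [ht]; ring
  have hL1' : (1 : ℝ) ≤ L := by exact_mod_cast hL1
  have hL' : (L : ℝ) ≤ K4 * m ^ 2 := by exact_mod_cast hL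
  rw [e2]
  have h1 : -((1 : ℝ) / (t * (t + 1))) ^ 2 / (2 * (K' / ((m * (j + 1) : ℕ) : ℝ) ^ 6)) ≤
      -(m ^ 6 * t ^ 2 / (8 * K')) := by
    push_cast
    rw [← ht, neg_div, neg_le_neg_iff, div_le_div_iff₀ (by positivity) (by positivity)]
    have : (m : ℝ) ^ 6 * t ^ 2 * (2 * (K' / (m * t) ^ 6)) = 2 * K' / t ^ 4 := by field_simp
    rw [this, div_pow, one_pow, div_mul_eq_mul_div, div_le_div_iff₀ (by positivity) (by positivity)]
    have : (t * (t + 1)) ^ 2 ≤ (t * (2 * t)) ^ 2 := by gcongr; linarith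
    nlinarith
  have h2 : t * (t + 1) ≤ exp (2 * t) := by
    have := add_one_le_exp t
    calc t * (t + 1) ≤ exp t * exp t := by gcongr; linarith
      _ = _ := by rw [← Real.exp_add]; ring_nf
  have hm6 : (m : ℝ) ^ 4 * m ≤ m ^ 6 := by
    rw [← pow_succ]
    exact pow_le_pow_right₀ hm1 (by norm_num)
  have hm4 : (1 : ℝ) ≤ m ^ 4 := one_le_pow₀ hm1
  constructor
  · refine (exp_le_exp.2 h1).trans ?_
    set N : ℝ := (((Δ + 1) ^ (13 * ((j + 1) * L)) : ℕ) : ℝ) with hN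
    have hN1 : 1 ≤ N := by rw [hN]; exact_mod_cast Nat.one_le_pow _ _ (Nat.succ_pos _)
    have hN2 : N ≤ exp (13 * (t * L) * Δ) := by
      rw [hN]; push_cast
      calc ((Δ : ℝ) + 1) ^ (13 * ((j + 1) * L)) ≤ exp Δ ^ (13 * ((j + 1) * L)) := by
            gcongr; exact add_one_le_exp _
        _ = _ := by rw [← Real.exp_nat_mul]; push_cast; rw [ht]
    set s : ℝ := c * (1 / (t * (t + 1))) / N with hs
    have hs0 : 0 < s := by positivity
    have hs1 : s ≤ 1 := by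
      rw [hs, div_le_one (by linarith)]
      have : 1 / (t * (t + 1)) ≤ 1 := by rw [div_le_one (by positivity)]; nlinarith
      nlinarith [show 0 ≤ 1 / (t * (t + 1)) by positivity]
    have h3 : s / 2 ≤ 1 - exp (-s) := by
      have a1 := add_one_le_exp s
      have a2 : exp (-s) * exp s = 1 := by rw [← Real.exp_add]; simp
      have a3 := exp_pos (-s)
      nlinarith [mul_le_mul_of_nonneg_left a1 a3.le]
    have h4 : exp (-(t * L * K3)) ≤ s / 2 := by
      have a1 : 2 / c ≤ exp (2 / c) := by linarith [add_one_le_exp (2 / c)]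
      have a2 : s / 2 = (2 / c * (t * (t + 1)) * N)⁻¹ := by rw [hs]; field_simp
      rw [a2, Real.exp_neg]
      refine inv_anti₀ (by positivity) ?_
      calc 2 / c * (t * (t + 1)) * N ≤ exp (2 / c) * exp (2 * t) * exp (13 * (t * L) * Δ) := by
            gcongr
        _ = exp (2 / c + 2 * t + 13 * (t * L) * Δ) := by rw [← Real.exp_add, ← Real.exp_add]
        _ ≤ _ := by
            refine exp_le_exp.2 ?_
            rw [hK3]
            have b2 : t ≤ t * L := le_mul_of_one_le_right (by positivity) hL1'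
            have b1 : 1 ≤ t * L := ht1.trans b2
            have b3 : 2 / c ≤ t * L * (2 / c) := le_mul_of_one_le_left (by positivity) b1
            have b4 : t * L * (2 / c + 2 + 13 * Δ) =
                t * L * (2 / c) + 2 * (t * L) + 13 * (t * L) * Δ := by ring
            linarith
    calc exp (-(m ^ 6 * t ^ 2 / (8 * K'))) ≤ exp (-(t * L * K3)) ^ (8 * ((j + 1) * L)) := by
          rw [← Real.exp_nat_mul]
          refine exp_le_exp.2 ?_
          push_cast
          rw [← ht, mul_neg, neg_le_neg_iff, le_div_iff₀ (by positivity)]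
          have b1 : (L : ℝ) ^ 2 ≤ (K4 * m ^ 2) ^ 2 := by gcongr
          have b2 : 64 * K' * K3 * K4 ^ 2 ≤ m := by
            have : 0 ≤ 48 * K' := by positivity
            linarith
          calc 8 * (t * L) * (t * L * K3) * (8 * K') = 64 * K' * K3 * L ^ 2 * t ^ 2 := by ring
            _ ≤ 64 * K' * K3 * (K4 * m ^ 2) ^ 2 * t ^ 2 := by gcongr
            _ = m ^ 4 * (64 * K' * K3 * K4 ^ 2) * t ^ 2 := by ring
            _ ≤ m ^ 4 * m * t ^ 2 := by gcongr
            _ ≤ _ := by gcongr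
      _ ≤ _ := by gcongr; exact h4.trans h3
  · refine (exp_le_exp.2 h1).trans ?_
    have a1 : 20 ≤ exp (4 * t) := by
      have b1 := exp_one_gt_d9
      have b2 : exp 4 = exp 1 ^ 4 := by rw [← Real.exp_nat_mul]; norm_num
      have b3 : (2.7 : ℝ) ^ 4 ≤ exp 1 ^ 4 := by gcongr; linarith
      have b4 : exp 4 ≤ exp (4 * t) := exp_le_exp.2 (by linarith)
      norm_num at b3; linarith
    have a2 : 1 / (t * (t + 1)) / 20 = (t * (t + 1) * 20)⁻¹ := by field_simp
    rw [a2, Real.exp_neg]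
    refine inv_anti₀ (by positivity) ?_
    calc t * (t + 1) * 20 ≤ exp (2 * t) * exp (4 * t) := by gcongr
      _ = exp (6 * t) := by rw [← Real.exp_add]; ring_nf
      _ ≤ _ := by
          refine exp_le_exp.2 ?_
          rw [le_div_iff₀ (by positivity)]
          have b2 : 48 * K' ≤ m := by
            have : 0 ≤ 64 * K' * K3 * K4 ^ 2 := by positivity
            linarith
          have b3 : (m : ℝ) ≤ m ^ 6 := by nlinarith
          have b4 : t ≤ t ^ 2 := by nlinarith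
          calc 6 * t * (8 * K') = 48 * K' * t := by ring
            _ ≤ m ^ 6 * t ^ 2 := by gcongr; linarith

end Pool.Agent.P.MP_e2f79e_pr
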