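import Pool.Agent.P.MP_e2f79e_pr.Defs

/-! The isoperimetric hypothesis. -/

namespace Pool.Agent.P.MP_e2f79e_pr

/-- Isoperimetric dimension at least `d`: for some `c > 0`, every finite set `F` of vertices
satisfies `c |F|^(d-1) ≤ |boundary of F|^d`. -/
def IsoDim {V : Type*} (G : SimpleGraph V) (d : ℕ) : Prop :=
  ∃ c : ℝ, 0 < c ∧ ∀ F : Finset V,
    c * (F.card : ℝ) ^ (d - 1) ≤ ((vertexBoundary G F).ncard : ℝ) ^ d

end Pool.Agent.P.MP_e2f79e_pr
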