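import Pool.Agent.P.MP_e2f79e_pr.Ex

/-! Directed long range percolation on a finite set. -/

set_option linter.unusedSectionVars false

namespace Pool.Agent.P.MP_e2f79e_pr

open Finset Real

open Classical in
/-- Real valued indicator of a proposition. -/
noncomputable def ind (p : Prop) : ℝ := if p then 1 else 0

lemma ind_pos {p : Prop} (h : p) : ind p = 1 := by simp [ind, h]
lemma ind_neg {p : Prop} (h : ¬ p) : ind p = 0 := by simp [ind, h]
lemma ind_nonneg (p : Prop) : 0 ≤ ind p := by unfold ind; split_ifs <;> norm_num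
lemma ind_le_one (p : Prop) : ind p ≤ 1 := by unfold ind; split_ifs <;> norm_num
lemma ind_mono {p q : Prop} (h : p → q) : ind p ≤ ind q := by
  by_cases hp : p
  · rw [ind_pos hp, ind_pos (h hp)]
  · rw [ind_neg hp]; exact ind_nonneg q
lemma ind_congr {p q : Prop} (h : p ↔ q) : ind p = ind q := by rw [propext h]
lemma ind_not (p : Prop) : ind (¬ p) = 1 - ind p := by
  by_cases hp : p <;> simp [ind, hp]
lemma ind_and (p q : Prop) : ind (p ∧ q) = ind p * ind q := by
  by_cases hp : p <;> by_cases hq : q <;> simp [ind, hp, hq]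
lemma ind_forall {E : Type*} (S : Finset E) (p : E → Prop) :
    ind (∀ e ∈ S, p e) = ∏ e ∈ S, ind (p e) := by
  by_cases h : ∀ e ∈ S, p e
  · rw [ind_pos h]; exact (Finset.prod_eq_one fun e he => ind_pos (h e he)).symm
  · rw [ind_neg h]
    push Not at h
    obtain ⟨e, he, hp⟩ := h
    exact (Finset.prod_eq_zero he (ind_neg hp)).symm

section bw

variable {E : Type*} [Fintype E] [DecidableEq E]

/-- Bernoulli weights with intensity `I`. -/
noncomputable def bw (I : E → ℝ) (e : E) (b : Bool) : ℝ :=
  if b then 1 - exp (-I e) else exp (-I e)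

lemma isP_bw {I : E → ℝ} (hI : ∀ e, 0 ≤ I e) : IsP (bw I) := by
  constructor
  · intro e b
    cases b
    · simp [bw, (exp_pos _).le]
    · simp [bw, hI e]
  · intro e; simp [bw]

lemma Ex_bw_union (I I' : E → ℝ) (f : (E → Bool) → ℝ) :
    Ex (bw (fun e => I e + I' e)) f =
      Ex (bw I) (fun ω => Ex (bw I') (fun ω' => f (fun e => ω e || ω' e))) := by
  have h1 := Ex_pair (bw I) (fun e _ => bw I' e) (fun z => f (fun e => (z e).1 || (z e).2))
  rw [← h1, Ex_map _ (fun _ (p : Bool × Bool) => p.1 || p.2) f]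
  congr 1
  funext e b
  rw [Finset.sum_filter, Fintype.sum_prod_type]
  cases b
  · simp [bw, ← exp_add]; ring_nf
  · simp only [bw, Fintype.sum_bool]
    simp only [neg_add, exp_add]
    simp; ring

lemma Ex_ind_forall {α : Type*} [Fintype α] {μ : E → α → ℝ} (h : IsP μ) (S : Finset E)
    (p : E → α → Prop) :
    Ex μ (fun ω => ind (∀ e ∈ S, p e (ω e))) = ∏ e ∈ S, ∑ a, μ e a * ind (p e a) := by
  have h1 : ∀ ω : E → α, ind (∀ e ∈ S, p e (ω e)) =
      ∏ e, (if e ∈ S then ind (p e (ω e)) else 1) := by
    intro ω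
    rw [ind_forall, ← Finset.prod_filter]
    simp
  simp only [h1]
  rw [Ex_prod μ (fun e a => if e ∈ S then ind (p e a) else 1)]
  have h2 : ∀ e, (∑ a, μ e a * if e ∈ S then ind (p e a) else 1) =
      if e ∈ S then ∑ a, μ e a * ind (p e a) else 1 := by
    intro e
    by_cases he : e ∈ S <;> simp [he, h.sum_one]
  simp only [h2]
  rw [← Finset.prod_filter]
  simp

lemma Ex_bw_closed {I : E → ℝ} (hI : ∀ e, 0 ≤ I e) (S : Finset E) :
    Ex (bw I) (fun ω => ind (∀ e ∈ S, ω e = false)) = exp (-∑ e ∈ S, I e) := by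
  rw [Ex_ind_forall (isP_bw hI) S (fun _ b => b = false), ← Finset.sum_neg_distrib, exp_sum]
  refine Finset.prod_congr rfl fun e _ => ?_
  simp [bw, ind]

lemma Ex_bw_open {I : E → ℝ} (hI : ∀ e, 0 ≤ I e) (S : Finset E) :
    Ex (bw I) (fun ω => ind (∀ e ∈ S, ω e = true)) = ∏ e ∈ S, (1 - exp (-I e)) := by
  rw [Ex_ind_forall (isP_bw hI) S (fun _ b => b = true)]
  refine Finset.prod_congr rfl fun e _ => ?_
  simp [bw, ind]

lemma Ex_eval₂ {α : Type*} [Fintype α] {μ : E → α → ℝ} (h : IsP μ) {x y : E} (hxy : x ≠ y)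
    (F : α → α → ℝ) :
    Ex μ (fun ω => F (ω x) (ω y)) = ∑ b, μ y b * ∑ a, μ x a * F a b := by
  rw [Ex_resample h {x} (fun _ _ => rfl)]
  have : ∀ ω : E → α, Ex μ (fun ω' => F (({x} : Finset E).piecewise ω' ω x)
      (({x} : Finset E).piecewise ω' ω y)) = ∑ a, μ x a * F a (ω y) := by
    intro ω
    rw [← Ex_eval h x (fun a => F a (ω y))]
    simp [Finset.piecewise, hxy.symm]
  simp only [this]
  exact Ex_eval h y (fun b => ∑ a, μ x a * F a b)

lemma measurable_bw {X : Type*} [MeasurableSpace X] {I : X → E → ℝ}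
    (hI : ∀ e, Measurable fun x => I x e) (e : E) (b : Bool) :
    Measurable fun x => bw (I x) e b := by
  have := hI e
  cases b <;> simp only [bw, Bool.false_eq_true, if_false, if_true] <;> fun_prop

end bw

variable {ι : Type*} [Fintype ι] [DecidableEq ι]

/-- Directed reachability. -/
def Reach (ω : ι × ι → Bool) : ι → ι → Prop :=
  Relation.ReflTransGen (fun a b => ω (a, b) = true)

lemma Reach.mono {ω ω' : ι × ι → Bool} (h : ∀ e, ω e = true → ω' e = true) {a b : ι}
    (hab : Reach ω a b) : Reach ω' a b := by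
  induction hab with
  | refl => exact Relation.ReflTransGen.refl
  | tail _ hbc ih => exact ih.tail (h _ hbc)

/-- `o` is connected to the target set. -/
def conn (o : ι) (T : Finset ι) (ω : ι × ι → Bool) : Prop := ∃ t ∈ T, Reach ω o t

lemma conn.mono {o : ι} {T : Finset ι} {ω ω' : ι × ι → Bool}
    (h : ∀ e, ω e = true → ω' e = true) (hc : conn o T ω) : conn o T ω' := by
  obtain ⟨t, ht, hr⟩ := hc
  exact ⟨t, ht, hr.mono h⟩

/-- Connection probability. -/
noncomputable def Phi (o : ι) (T : Finset ι) (I : ι × ι → ℝ) : ℝ :=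
  Ex (bw I) (fun ω => ind (conn o T ω))

variable {o : ι} {T : Finset ι}

lemma Phi_nonneg {I : ι × ι → ℝ} (hI : ∀ e, 0 ≤ I e) : 0 ≤ Phi o T I :=
  Ex_nonneg (isP_bw hI) fun _ => ind_nonneg _

lemma Phi_le_one {I : ι × ι → ℝ} (hI : ∀ e, 0 ≤ I e) : Phi o T I ≤ 1 :=
  Ex_le_const (isP_bw hI) fun _ => ind_le_one _

lemma Phi_mono {I I' : ι × ι → ℝ} (hI : ∀ e, 0 ≤ I e) (h : ∀ e, I e ≤ I' e) :
    Phi o T I ≤ Phi o T I' := by
  have : I' = fun e => I e + (I' e - I e) := by funext e; ring
  rw [this]
  unfold Phi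
  rw [Ex_bw_union]
  refine Ex_mono (isP_bw hI) fun ω => ?_
  refine const_le_Ex (isP_bw fun e => sub_nonneg.2 (h e)) fun ω' => ind_mono (conn.mono ?_)
  intro e he; simp [he]

lemma measurable_Phi {X : Type*} [MeasurableSpace X] {I : X → ι × ι → ℝ}
    (hI : ∀ e, Measurable fun x => I x e) : Measurable fun x => Phi o T (I x) :=
  measurable_Ex (measurable_bw hI) _

/-- Gain from sprinkling. -/
lemma Phi_sprinkle {I I' : ι × ι → ℝ} (hI : ∀ e, 0 ≤ I e) (hI' : ∀ e, 0 ≤ I' e)
    (bad : (ι × ι → Bool) → Prop) {s : ℝ} (hs : 0 ≤ s) (n : ℕ)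
    (h1 : ∀ ω, bad ω → ¬ conn o T ω)
    (h2 : ∀ ω, bad ω → ∃ Ec : Finset (ι × ι), Ec.card ≤ n ∧ (∀ e ∈ Ec, s ≤ I' e) ∧
      ∀ ω', (∀ e, ω e = true → ω' e = true) → (∀ e ∈ Ec, ω' e = true) → conn o T ω') :
    Phi o T I + (1 - exp (-s)) ^ n * Ex (bw I) (fun ω => ind (bad ω)) ≤
      Phi o T (fun e => I e + I' e) := by
  unfold Phi
  rw [Ex_bw_union, ← Ex_mul_left, ← Ex_add]
  refine Ex_mono (isP_bw hI) fun ω => ?_
  have hs1 : 0 ≤ 1 - exp (-s) := by simpa using hs
  have hs2 : 1 - exp (-s) ≤ 1 := by linarith [exp_pos (-s)]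
  by_cases hb : bad ω
  · obtain ⟨Ec, hc, hE, hconn⟩ := h2 ω hb
    rw [ind_neg (h1 ω hb), ind_pos hb, zero_add, mul_one]
    calc (1 - exp (-s)) ^ n ≤ (1 - exp (-s)) ^ Ec.card := pow_le_pow_of_le_one hs1 hs2 hc
      _ = ∏ _e ∈ Ec, (1 - exp (-s)) := by simp
      _ ≤ ∏ e ∈ Ec, (1 - exp (-I' e)) := by
          refine Finset.prod_le_prod (fun _ _ => hs1) fun e he => ?_
          have := exp_le_exp.2 (neg_le_neg (hE e he))
          linarith
      _ = _ := (Ex_bw_open hI' Ec).symm
      _ ≤ _ := by
          refine Ex_mono (isP_bw hI') fun ω' => ind_mono fun h => hconn _ ?_ ?_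
          · intro e he; simp [he]
          · intro e he; simp [h e he]
  · rw [ind_neg hb, mul_zero, add_zero]
    refine const_le_Ex (isP_bw hI') fun ω' => ind_mono (conn.mono ?_)
    intro e he; simp [he]

/-- If opening the edges of `E1` creates the connection, some edge of `E1` starts in the
cluster of `o` and some edge of `E1` ends in the backward cluster of `T`. -/
lemma exists_ends {ω : ι × ι → Bool} (E1 : Finset (ι × ι)) (h1 : ¬ conn o T ω)
    (h2 : conn o T (fun e => ω e || decide (e ∈ E1))) :
    ∃ e ∈ E1, ∃ e' ∈ E1, Reach ω o e.1 ∧ conn e'.2 T ω := by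
  obtain ⟨t, ht, hr⟩ := h2
  have key : ∀ v, Reach (fun e => ω e || decide (e ∈ E1)) o v →
      Reach ω o v ∨ ∃ e ∈ E1, ∃ e' ∈ E1, Reach ω o e.1 ∧ Reach ω e'.2 v := by
    intro v hv
    induction hv with
    | refl => exact Or.inl Relation.ReflTransGen.refl
    | @tail b c _ hbc ih =>
      simp only [Bool.or_eq_true, decide_eq_true_eq] at hbc
      rcases hbc with hbc | hbc
      · rcases ih with ih | ⟨e, he, e', he', h3, h4⟩
        · exact Or.inl (ih.tail hbc)
        · exact Or.inr ⟨e, he, e', he', h3, h4.tail hbc⟩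
      · rcases ih with ih | ⟨e, he, e', he', h3, h4⟩
        · exact Or.inr ⟨(b, c), hbc, (b, c), hbc, ih, Relation.ReflTransGen.refl⟩
        · exact Or.inr ⟨e, he, (b, c), hbc, h3, Relation.ReflTransGen.refl⟩
  rcases key t hr with h | ⟨e, he, e', he', h3, h4⟩
  · exact absurd ⟨t, ht, h⟩ h1
  · exact ⟨e, he, e', he', h3, t, ht, h4⟩

/-! ### From undirected to directed edges -/

/-- Setting the two edges between `x` and `y`. -/
def put (ω : ι × ι → Bool) (x y : ι) (a b : Bool) : ι × ι → Bool :=
  fun e => if e = (x, y) then a else if e = (y, x) then b else ω e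

lemma put_mono (ω : ι × ι → Bool) (x y : ι) (a b : Bool) (e : ι × ι)
    (h : put ω x y false false e = true) : put ω x y a b e = true := by
  unfold put at *
  split_ifs at * <;> simp_all

lemma conn_put (ω : ι × ι → Bool) {x y : ι} (hxy : x ≠ y) (h : conn o T (put ω x y true true)) :
    conn o T (put ω x y true false) ∨ conn o T (put ω x y false true) := by
  obtain ⟨t, ht, hr⟩ := h
  set r0 := Reach (put ω x y false false) with hr0
  have key : ∀ v, Reach (put ω x y true true) o v →
      r0 o v ∨ ((r0 o x ∨ r0 o y) ∧ (r0 x v ∨ r0 y v)) := by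
    intro v hv
    induction hv with
    | refl => exact Or.inl Relation.ReflTransGen.refl
    | @tail b c _ hbc ih =>
      by_cases h1 : (b, c) = (x, y)
      · obtain ⟨rfl, rfl⟩ := Prod.mk.inj h1
        refine Or.inr ⟨?_, Or.inr Relation.ReflTransGen.refl⟩
        rcases ih with ih | ih
        · exact Or.inl ih
        · exact ih.1
      by_cases h2 : (b, c) = (y, x)
      · obtain ⟨rfl, rfl⟩ := Prod.mk.inj h2
        refine Or.inr ⟨?_, Or.inl Relation.ReflTransGen.refl⟩
        rcases ih with ih | ih
        · exact Or.inr ih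
        · exact ih.1
      have h3 : put ω x y false false (b, c) = true := by
        simpa [put, h1, h2] using hbc
      rcases ih with ih | ⟨h4, h5 | h5⟩
      · exact Or.inl (ih.tail h3)
      · exact Or.inr ⟨h4, Or.inl (h5.tail h3)⟩
      · exact Or.inr ⟨h4, Or.inr (h5.tail h3)⟩
  have m1 : ∀ {a b}, r0 a b → Reach (put ω x y true false) a b :=
    fun h => Reach.mono (put_mono ω x y true false) h
  have m2 : ∀ {a b}, r0 a b → Reach (put ω x y false true) a b :=
    fun h => Reach.mono (put_mono ω x y false true) h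
  rcases key t hr with h | ⟨h4 | h4, h5 | h5⟩
  · exact Or.inl ⟨t, ht, m1 h⟩
  · exact Or.inl ⟨t, ht, m1 (h4.trans h5)⟩
  · refine Or.inl ⟨t, ht, ((m1 h4).tail ?_).trans (m1 h5)⟩
    simp [put]
  · refine Or.inr ⟨t, ht, ((m2 h4).tail ?_).trans (m2 h5)⟩
    simp [put, hxy.symm]
  · exact Or.inl ⟨t, ht, m1 (h4.trans h5)⟩

lemma ind_put (ω : ι × ι → Bool) {x y : ι} (hxy : x ≠ y) :
    ind (conn o T (put ω x y true true)) + ind (conn o T (put ω x y false false)) ≤
      ind (conn o T (put ω x y true false)) + ind (conn o T (put ω x y false true)) := by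
  have h1 := ind_mono (conn.mono (o := o) (T := T) (put_mono ω x y true false))
  have h2 := ind_mono (conn.mono (o := o) (T := T) (put_mono ω x y false true))
  by_cases h : conn o T (put ω x y true true)
  · rw [ind_pos h]
    rcases conn_put ω hxy h with h3 | h3
    · rw [ind_pos h3]; linarith
    · rw [ind_pos h3]; linarith
  · rw [ind_neg h]
    linarith [ind_nonneg (conn o T (put ω x y false true))]

/-- Symmetrisation of a configuration. -/
def symc (ω : ι × ι → Bool) : ι × ι → Bool := fun e => ω e || ω e.swap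

lemma undirected_le_Phi {I : ι × ι → ℝ} (hI : ∀ e, 0 ≤ I e) (hs : ∀ e, I e.swap = I e) :
    Ex (bw I) (fun ω => ind (conn o T (symc ω))) ≤ Phi o T (fun e => 2 * I e) := by
  let IP : Finset (ι × ι) → ι × ι → ℝ := fun P e =>
    if (e ∈ P ∨ e.swap ∈ P) ∧ e.1 ≠ e.2 then 2 * I e else I e
  let sP : Finset (ι × ι) → (ι × ι → Bool) → ι × ι → Bool := fun P ω e =>
    if e ∈ P ∨ e.swap ∈ P then ω e else (ω e || ω e.swap)
  have hIP : ∀ P e, 0 ≤ IP P e := by
    intro P e; simp only [IP]; split_ifs <;> linarith [hI e]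
  have key : ∀ P : Finset (ι × ι), Ex (bw I) (fun ω => ind (conn o T (symc ω))) ≤
      Ex (bw (IP P)) (fun ω => ind (conn o T (sP P ω))) := by
    intro P
    induction P using Finset.induction_on with
    | empty => exact le_of_eq (by simp [IP, sP]; rfl)
    | insert p P hp ih =>
      refine ih.trans ?_
      obtain ⟨x, y⟩ := p
      by_cases hxy : x = y
      · subst hxy
        refine le_of_eq ?_
        congr 1
        · funext e
          have : IP (insert (x, x) P) e = IP P e := by
            obtain ⟨a, b⟩ := e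
            by_cases hab : a = b
            · simp [IP, hab]
            · have h1 : (a, b) ≠ (x, x) := by
                intro h; obtain ⟨rfl, rfl⟩ := Prod.mk.inj h; exact hab rfl
              have h2 : (b, a) ≠ (x, x) := by
                intro h; obtain ⟨rfl, rfl⟩ := Prod.mk.inj h; exact hab rfl
              simp only [IP, Finset.mem_insert, h1, h2, Prod.swap_prod_mk, false_or]
          funext b; simp [bw, this]
        · funext ω
          congr 2
          funext e
          obtain ⟨a, b⟩ := e
          by_cases hab : a = b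
          · subst hab; simp [sP]
          · have h1 : (a, b) ≠ (x, x) := by
              intro h; obtain ⟨rfl, rfl⟩ := Prod.mk.inj h; exact hab rfl
            have h2 : (b, a) ≠ (x, x) := by
              intro h; obtain ⟨rfl, rfl⟩ := Prod.mk.inj h; exact hab rfl
            simp only [sP, Finset.mem_insert, h1, h2, Prod.swap_prod_mk, false_or]
      by_cases hyx : (y, x) ∈ P
      · refine le_of_eq ?_
        have hiff : ∀ e : ι × ι, (e ∈ insert (x, y) P ∨ e.swap ∈ insert (x, y) P) ↔
            (e ∈ P ∨ e.swap ∈ P) := by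
          rintro ⟨a, b⟩
          simp only [Finset.mem_insert, Prod.swap_prod_mk, Prod.mk.injEq]
          constructor
          · rintro ((⟨rfl, rfl⟩ | h) | (⟨rfl, rfl⟩ | h))
            · exact Or.inr hyx
            · exact Or.inl h
            · exact Or.inl hyx
            · exact Or.inr h
          · rintro (h | h)
            · exact Or.inl (Or.inr h)
            · exact Or.inr (Or.inr h)
        simp only [IP, sP, hiff]
      have hne : (x, y) ≠ (y, x) := by
        intro h; exact hxy (Prod.mk.inj h).1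
      have hoff : ∀ e : ι × ι, e ≠ (x, y) → e ≠ (y, x) →
          ((e ∈ insert (x, y) P ∨ e.swap ∈ insert (x, y) P) ↔ (e ∈ P ∨ e.swap ∈ P)) := by
        rintro ⟨a, b⟩ h1 h2
        have h3 : (b, a) ≠ (x, y) := by
          intro h; obtain ⟨rfl, rfl⟩ := Prod.mk.inj h; exact h2 rfl
        simp only [Finset.mem_insert, Prod.swap_prod_mk, h1, h3, false_or]
      refine Ex_le_of_resample (isP_bw (hIP P)) {(x, y), (y, x)} ?_ ?_
      · intro e he
        simp only [Finset.mem_insert, Finset.mem_singleton, not_or] at he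
        funext b
        simp only [bw, IP, hoff e he.1 he.2]
      · intro ω
        have e1 : ∀ ω' : ι × ι → Bool,
            sP P (({(x, y), (y, x)} : Finset (ι × ι)).piecewise ω' ω) =
            put (sP P ω) x y (ω' (x, y) || ω' (y, x)) (ω' (x, y) || ω' (y, x)) := by
          intro ω'
          funext e
          by_cases h1 : e = (x, y)
          · subst h1; simp [sP, put, hp, hyx]
          by_cases h2 : e = (y, x)
          · subst h2; simp [sP, put, hp, hyx, Bool.or_comm]
          have h3 : e.swap ≠ (x, y) := by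
            intro h; apply h2; rw [← Prod.swap_swap e, h]; rfl
          have h4 : e.swap ≠ (y, x) := by
            intro h; apply h1; rw [← Prod.swap_swap e, h]; rfl
          simp [sP, put, h1, h2, h3, h4, Finset.piecewise]
        have e2 : ∀ ω' : ι × ι → Bool,
            sP (insert (x, y) P) (({(x, y), (y, x)} : Finset (ι × ι)).piecewise ω' ω) =
            put (sP P ω) x y (ω' (x, y)) (ω' (y, x)) := by
          intro ω'
          funext e
          by_cases h1 : e = (x, y)
          · subst h1; simp [sP, put]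
          by_cases h2 : e = (y, x)
          · subst h2; simp [sP, put, hne.symm]
          have h3 : e.swap ≠ (x, y) := by
            intro h; apply h2; rw [← Prod.swap_swap e, h]; rfl
          have h4 : e.swap ≠ (y, x) := by
            intro h; apply h1; rw [← Prod.swap_swap e, h]; rfl
          simp only [sP, put, hoff e h1 h2, h1, h2, if_false]
          simp [h1, h2, h3, h4, Finset.piecewise]
        simp only [e1, e2]
        rw [Ex_eval₂ (isP_bw (hIP P)) hne
            (fun a b => ind (conn o T (put (sP P ω) x y (a || b) (a || b)))),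
          Ex_eval₂ (isP_bw (hIP _)) hne
            (fun a b => ind (conn o T (put (sP P ω) x y a b)))]
        have i1 : IP P (x, y) = I (x, y) := by simp [IP, hp, hyx]
        have i2 : IP P (y, x) = I (x, y) := by
          have := hs (x, y)
          simp only [Prod.swap_prod_mk] at this
          simp [IP, hp, hyx, this]
        have i3 : IP (insert (x, y) P) (x, y) = 2 * I (x, y) := by simp [IP, hxy]
        have i4 : IP (insert (x, y) P) (y, x) = 2 * I (x, y) := by
          have := hs (x, y)
          simp only [Prod.swap_prod_mk] at this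
          simp [IP, Ne.symm hxy, this]
        have hput := ind_put (o := o) (T := T) (sP P ω) hxy
        simp only [Fintype.sum_bool, bw, i1, i2, i3, i4, if_true, Bool.false_eq_true, if_false,
          Bool.or_true, Bool.true_or, Bool.or_self]
        have hq : exp (-(2 * I (x, y))) = exp (-I (x, y)) ^ 2 := by
          rw [← exp_nat_mul]; congr 1; push_cast; ring
        rw [hq]
        have q0 : 0 < exp (-I (x, y)) := exp_pos _
        have q1 : exp (-I (x, y)) ≤ 1 := by simpa using hI (x, y)
        set q := exp (-I (x, y))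
        have q2 : 0 ≤ q ^ 2 * (1 - q ^ 2) := by
          have : q ^ 2 ≤ 1 := pow_le_one₀ q0.le q1
          positivity
        nlinarith [mul_le_mul_of_nonneg_left hput q2]
  refine (key Finset.univ).trans ?_
  have : ∀ ω, sP Finset.univ ω = ω := by intro ω; funext e; simp [sP]
  simp only [this]
  refine Phi_mono (hIP _) fun e => ?_
  simp only [IP]; split_ifs <;> linarith [hI e]

end Pool.Agent.P.MP_e2f79e_pr
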