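import Pool.Agent.P.MP_e2f79e_pr.Nash
import Pool.Agent.P.MP_e2f79e_pr.Perc

/-! The truncated trace of the symmetric lazy walk on a graph of bounded degree. -/

set_option linter.unusedSectionVars false

namespace Pool.Agent.P.MP_e2f79e_pr.Iso

open Finset

variable {V : Type*} [DecidableEq V] {G : SimpleGraph V} [G.LocallyFinite] {Δ : ℕ} {X : Set V}

variable (G Δ) in
/-- All degrees are at most `Δ`. -/
def Bd : Prop := ∀ v, G.degree v ≤ Δ

lemma card_ballF_le' (hreg : Bd G Δ) (x : V) (n : ℕ) :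
    (ballF G x n).card ≤ (Δ + 1) ^ n := by
  induction n with
  | zero => simp [ballF]
  | succ n ih =>
    have h1 : ((ballF G x n).biUnion (fun v => G.neighborFinset v)).card ≤
        (ballF G x n).card * Δ :=
      Finset.card_biUnion_le_card_mul _ _ _ fun v _ => by simpa using hreg v
    have h2 := Finset.card_union_le (ballF G x n)
      ((ballF G x n).biUnion (fun v => G.neighborFinset v))
    calc (ballF G x (n + 1)).card ≤ (ballF G x n).card * (Δ + 1) := by
          simp only [ballF]; nlinarith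
      _ ≤ (Δ + 1) ^ n * (Δ + 1) := by gcongr
      _ = _ := by ring

variable (G) in
/-- The closed neighbourhood. -/
def cn (v : V) : Finset V := insert v (G.neighborFinset v)

lemma mem_cn {v u : V} : u ∈ cn G v ↔ u = v ∨ G.Adj v u := by simp [cn]

lemma near_dist (hc : G.Connected) {v u : V} (h : u ∈ cn G v) (w : V) :
    G.dist v w ≤ G.dist u w + 1 := by
  rcases mem_cn.1 h with rfl | h
  · omega
  · exact dist_adj hc h w

variable (G Δ) in
/-- The symmetric lazy transition weights. -/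
noncomputable def tw (v u : V) : ℝ :=
  (ind (G.Adj v u) + ind (v = u) * ((Δ - G.degree v : ℕ) : ℝ)) / Δ

lemma tw_symm (v u : V) : tw G Δ v u = tw G Δ u v := by
  by_cases h : v = u
  · rw [h]
  · unfold tw
    rw [ind_neg h, ind_neg (Ne.symm h), G.adj_comm v u, zero_mul, zero_mul]

lemma tw_nonneg (v u : V) : 0 ≤ tw G Δ v u :=
  div_nonneg (add_nonneg (ind_nonneg _) (mul_nonneg (ind_nonneg _) (Nat.cast_nonneg _)))
    (Nat.cast_nonneg _)

lemma tw_zero {v u : V} (h : u ∉ cn G v) : tw G Δ v u = 0 := by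
  rw [mem_cn, not_or] at h
  unfold tw
  rw [ind_neg h.2, ind_neg (Ne.symm h.1)]; simp

lemma tw_adj {v u : V} (h : G.Adj v u) : tw G Δ v u = 1 / Δ := by
  unfold tw
  rw [ind_pos h, ind_neg h.ne]; simp

variable (G Δ) in
/-- The transition operator of the lazy walk. -/
noncomputable def Pop (f : V → ℝ) (v : V) : ℝ := ∑ u ∈ cn G v, tw G Δ v u * f u

lemma Pop_eq (f : V → ℝ) (v : V) : Pop G Δ f v =
    (∑ u ∈ G.neighborFinset v, f u + ((Δ - G.degree v : ℕ) : ℝ) * f v) / Δ := by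
  unfold Pop cn
  rw [Finset.sum_insert (by simp), Finset.sum_congr rfl fun u hu => by
    rw [tw_adj ((G.mem_neighborFinset _ _).1 hu)], ← Finset.mul_sum]
  unfold tw
  rw [ind_neg G.irrefl, ind_pos rfl]; ring

lemma Pop_add (f g : V → ℝ) (v : V) :
    Pop G Δ (fun u => f u + g u) v = Pop G Δ f v + Pop G Δ g v := by
  simp [Pop, Finset.sum_add_distrib, mul_add]

lemma Pop_mono {f g : V → ℝ} {v : V} (h : ∀ u ∈ cn G v, f u ≤ g u) :
    Pop G Δ f v ≤ Pop G Δ g v :=
  Finset.sum_le_sum fun u hu => mul_le_mul_of_nonneg_left (h u hu) (tw_nonneg _ _)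

lemma Pop_congr {f g : V → ℝ} {v : V} (h : ∀ u ∈ cn G v, f u = g u) :
    Pop G Δ f v = Pop G Δ g v :=
  le_antisymm (Pop_mono fun u hu => (h u hu).le) (Pop_mono fun u hu => (h u hu).ge)

lemma Pop_nonneg {f : V → ℝ} (h : ∀ u, 0 ≤ f u) (v : V) : 0 ≤ Pop G Δ f v :=
  Finset.sum_nonneg fun u _ => mul_nonneg (tw_nonneg _ _) (h u)

lemma Pop_const (hreg : Bd G Δ) (hΔ : 0 < Δ) (c : ℝ) (v : V) :
    Pop G Δ (fun _ => c) v = c := by
  have : (Δ : ℝ) ≠ 0 := by positivity
  rw [Pop_eq, Nat.cast_sub (hreg v)]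
  simp only [Finset.sum_const, SimpleGraph.card_neighborFinset_eq_degree, nsmul_eq_mul]
  field_simp; ring

lemma Pop_sum {κ : Type*} (S : Finset κ) (f : κ → V → ℝ) (v : V) :
    ∑ w ∈ S, Pop G Δ (f w) v = Pop G Δ (fun u => ∑ w ∈ S, f w u) v := by
  simp only [Pop, Finset.mul_sum]
  rw [Finset.sum_comm]

lemma Pop_mul (c : ℝ) (f : V → ℝ) (v : V) :
    Pop G Δ (fun u => c * f u) v = c * Pop G Δ f v := by
  simp only [Pop, Finset.mul_sum]
  exact Finset.sum_congr rfl fun _ _ => by ring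

lemma Pop_single {f : V → ℝ} (h : ∀ u, 0 ≤ f u) {v u : V} (hu : G.Adj v u) :
    f u / Δ ≤ Pop G Δ f v := by
  have := Finset.single_le_sum (f := fun u => tw G Δ v u * f u)
    (fun u _ => mul_nonneg (tw_nonneg _ _) (h u)) (mem_cn.2 (Or.inr hu))
  simp only [tw_adj hu] at this
  exact le_trans (le_of_eq (by ring)) this

lemma Pop_ind (v w : V) : Pop G Δ (fun u => ind (u = w)) v = tw G Δ v w := by
  unfold Pop
  rw [Finset.sum_eq_single w]
  · simp [ind_pos]
  · intro u _ hu; simp [ind_neg hu]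
  · intro h; rw [tw_zero h, zero_mul]

variable (G Δ X) in
/-- Weight of the walks from `v` to `w` of length between `1` and `T` avoiding `X` in between. -/
noncomputable def AT : ℕ → V → V → ℝ
  | 0, _, _ => 0
  | T + 1, v, w => Pop G Δ (fun u => ind (u = w) + ind (u ∉ X) * AT T u w) v

variable (G Δ X) in
/-- Probability of avoiding `X` at the times between `1` and `T`. -/
noncomputable def mis : ℕ → V → ℝ
  | 0, _ => 1
  | T + 1, v => Pop G Δ (fun u => ind (u ∉ X) * mis T u) v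

lemma AT_nonneg (T : ℕ) : ∀ v w, 0 ≤ AT G Δ X T v w := by
  induction T with
  | zero => intro v w; simp [AT]
  | succ T ih =>
    intro v w
    exact Pop_nonneg (fun u => add_nonneg (ind_nonneg _) (mul_nonneg (ind_nonneg _) (ih u w))) v

lemma mis_nonneg (T : ℕ) : ∀ v, 0 ≤ mis G Δ X T v := by
  induction T with
  | zero => intro v; simp [mis]
  | succ T ih => intro v; exact Pop_nonneg (fun u => mul_nonneg (ind_nonneg _) (ih u)) v

lemma AT_succ_mono (T : ℕ) : ∀ v w, AT G Δ X T v w ≤ AT G Δ X (T + 1) v w := by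
  induction T with
  | zero => intro v w; exact AT_nonneg 1 v w
  | succ T ih =>
    intro v w
    refine Pop_mono fun u _ => ?_
    have := mul_le_mul_of_nonneg_left (ih u w) (ind_nonneg (u ∉ X))
    linarith

lemma AT_mono {T T' : ℕ} (h : T ≤ T') (v w : V) : AT G Δ X T v w ≤ AT G Δ X T' v w :=
  monotone_nat_of_le_succ (f := fun T => AT G Δ X T v w) (fun T => AT_succ_mono T v w) h

lemma AT_range (hc : G.Connected) (T : ℕ) : ∀ v w, AT G Δ X T v w ≠ 0 → G.dist v w ≤ T := by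
  induction T with
  | zero => intro v w h; simp [AT] at h
  | succ T ih =>
    intro v w h
    simp only [AT, Pop] at h
    obtain ⟨u, hu, h2⟩ := Finset.exists_ne_zero_of_sum_ne_zero h
    replace h2 := right_ne_zero_of_mul h2
    have h3 := near_dist hc hu w
    by_cases h4 : u = w
    · subst h4; simp at h3; omega
    · rw [ind_neg h4, zero_add] at h2
      have := ih u w (right_ne_zero_of_mul h2)
      omega

lemma AT_alt (T : ℕ) : ∀ v w, AT G Δ X (T + 1) v w =
    tw G Δ v w + Pop G Δ (fun u => ind (u ∉ X) * AT G Δ X T v u) w := by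
  induction T with
  | zero => intro v w; simp only [AT, mul_zero, add_zero, Pop_ind]; simp [Pop]
  | succ T ih =>
    intro v w
    have e1 : AT G Δ X (T + 1 + 1) v w = tw G Δ v w +
        Pop G Δ (fun u => ind (u ∉ X) * AT G Δ X (T + 1) u w) v := by
      rw [AT, Pop_add, Pop_ind]
    have e2 : ∀ u, AT G Δ X (T + 1) v u = tw G Δ v u +
        Pop G Δ (fun u' => ind (u' ∉ X) * AT G Δ X T u' u) v := by
      intro u; rw [AT, Pop_add, Pop_ind]
    rw [e1]
    simp only [ih, mul_add, Pop_add]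
    congr 1
    have e3 : ∀ u, ind (u ∉ X) * AT G Δ X (T + 1) v u = ind (u ∉ X) * tw G Δ v u +
        ind (u ∉ X) * Pop G Δ (fun u' => ind (u' ∉ X) * AT G Δ X T u' u) v := by
      intro u; rw [e2, mul_add]
    have e4 : Pop G Δ (fun u => ind (u ∉ X) * tw G Δ v u) w +
        Pop G Δ (fun u => ind (u ∉ X) * Pop G Δ (fun u' => ind (u' ∉ X) * AT G Δ X T v u') u) w =
        Pop G Δ (fun u => ind (u ∉ X) * AT G Δ X (T + 1) v u) w := by
      simp only [ih, mul_add, Pop_add]
    rw [e4]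
    simp only [e3, Pop_add]
    congr 1
    · have key : ∀ a b : V, ∑ u ∈ cn G a, tw G Δ a u * (ind (u ∉ X) * tw G Δ b u) =
          ∑ u ∈ cn G a ∪ cn G b, ind (u ∉ X) * (tw G Δ a u * tw G Δ b u) := by
        intro a b
        rw [Finset.sum_subset (Finset.subset_union_left (s₂ := cn G b))
          fun u _ hu => by rw [tw_zero hu, zero_mul]]
        exact Finset.sum_congr rfl fun _ _ => by ring
      simp only [Pop, tw_symm _ w]
      rw [key, key, Finset.union_comm]
      exact Finset.sum_congr rfl fun _ _ => by ring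
    · simp only [Pop, Finset.mul_sum]
      rw [Finset.sum_comm]
      exact Finset.sum_congr rfl fun _ _ => Finset.sum_congr rfl fun _ _ => by ring

lemma AT_symm (T : ℕ) : ∀ v w, AT G Δ X T v w = AT G Δ X T w v := by
  induction T with
  | zero => intro v w; simp [AT]
  | succ T ih =>
    intro v w
    rw [AT_alt T w v, AT, Pop_add, Pop_ind]
    simp only [ih _ w, tw_symm v w]

lemma AT_row (hc : G.Connected) (hreg : Bd G Δ) (hΔ : 0 < Δ) (S : Finset V)
    (hS : ∀ w ∈ S, w ∈ X) (T : ℕ) : ∀ v, (∀ w ∈ X, G.dist v w ≤ T → w ∈ S) →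
      ∑ w ∈ S, AT G Δ X T v w = 1 - mis G Δ X T v := by
  induction T with
  | zero => intro v _; simp [AT, mis]
  | succ T ih =>
    intro v hv
    simp only [AT, mis]
    rw [Pop_sum, eq_sub_iff_add_eq, ← Pop_add, ← Pop_const hreg hΔ 1 v]
    refine Pop_congr fun u hu => ?_
    rw [Finset.sum_add_distrib, ← Finset.mul_sum, ih u fun w hw h => hv w hw (by
      have := near_dist hc hu w; omega)]
    by_cases h : u ∈ X
    · have : u ∈ S := hv u h (by have := near_dist hc hu u; rw [SimpleGraph.dist_self] at this; omega)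
      rw [ind_neg (not_not.2 h), Finset.sum_eq_single u]
      · simp [ind_pos]
      · intro w _ hw; exact ind_neg hw.symm
      · intro h'; exact absurd this h'
    · rw [ind_pos h, Finset.sum_eq_zero]
      · ring
      · intro w hw; exact ind_neg fun h' => h (h' ▸ hS w hw)

lemma AT_row_le (hc : G.Connected) (hreg : Bd G Δ) (hΔ : 0 < Δ) (S : Finset V)
    (hS : ∀ w ∈ S, w ∈ X) (T : ℕ) (v : V) :
      ∑ w ∈ S, AT G Δ X T v w ≤ 1 - mis G Δ X T v := by
  classical
  rw [← AT_row hc hreg hΔ (S ∪ (ballF G v T).filter (· ∈ X)) ?_ T v ?_]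
  · exact Finset.sum_le_sum_of_subset_of_nonneg Finset.subset_union_left
      fun _ _ _ => AT_nonneg _ _ _
  · intro w hw
    rcases Finset.mem_union.1 hw with h | h
    · exact hS w h
    · exact (Finset.mem_filter.1 h).2
  · intro w hw h
    exact Finset.mem_union_right _ (Finset.mem_filter.2 ⟨(mem_ballF hc).2 h, hw⟩)

lemma AT_dom {h : ℕ → V → ℝ} (h0 : ∀ n v, 0 ≤ h n v) (hm : ∀ v, Monotone fun n => h n v)
    (hP : ∀ n v, Pop G Δ (h n) v ≤ h (n + 1) v) (S : Finset V) (hS : ∀ w ∈ S, w ∈ X) (n T : ℕ) :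
    ∀ v, ∑ w ∈ S, AT G Δ X T v w * h n w ≤ h (n + T) v := by
  induction T with
  | zero => intro v; simp [AT, h0]
  | succ T ih =>
    intro v
    have e : ∀ w, AT G Δ X (T + 1) v w * h n w =
        Pop G Δ (fun u => h n w * (ind (u = w) + ind (u ∉ X) * AT G Δ X T u w)) v := by
      intro w; rw [Pop_mul, AT, mul_comm]
    simp only [e]
    rw [Pop_sum]
    refine le_trans (Pop_mono fun u _ => ?_) (hP (n + T) v)
    by_cases hu : u ∈ X
    · simp only [ind_neg (not_not.2 hu), zero_mul, add_zero]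
      refine le_trans ?_ (hm u (Nat.le_add_right n T))
      by_cases huS : u ∈ S
      · rw [Finset.sum_eq_single u]
        · simp [ind_pos]
        · intro w _ hw; simp [ind_neg hw.symm]
        · intro h'; exact absurd huS h'
      · rw [Finset.sum_eq_zero]
        · exact h0 _ _
        · intro w hw; rw [ind_neg, mul_zero]; rintro rfl; exact huS hw
    · refine le_trans (le_of_eq ?_) (ih u)
      refine Finset.sum_congr rfl fun w hw => ?_
      rw [ind_pos hu, ind_neg fun h' : u = w => hu (h' ▸ hS w hw)]; ring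

lemma mis_bound (hc : G.Connected) (hreg : Bd G Δ) (hΔ : 0 < Δ) {R : ℕ}
    (hX : ∀ v, ∃ x ∈ X, G.dist v x ≤ R) (k : ℕ) (v : V) :
    mis G Δ X (k * R + 1) v ≤ (1 - ((Δ : ℝ) ^ R)⁻¹) ^ k := by
  have hΔ1 : (1 : ℝ) ≤ Δ := by exact_mod_cast hΔ
  have hΔ0 : (0 : ℝ) < Δ := by linarith
  let m : ℕ → V → ℝ := fun T u => ind (u ∉ X) * mis G Δ X T u
  have hm1 : ∀ T u, m (T + 1) u = ind (u ∉ X) * Pop G Δ (m T) u := fun T u => rfl
  have step1 : ∀ T b, (∀ u, m T u ≤ b) → ∀ j u, m (T + j) u ≤ b := by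
    intro T b hb j
    induction j with
    | zero => exact hb
    | succ j ih =>
      intro u
      rw [← add_assoc, hm1]
      have h1 : Pop G Δ (m (T + j)) u ≤ b :=
        (Pop_mono fun u' _ => ih u').trans (Pop_const hreg hΔ b u).le
      have h2 : 0 ≤ Pop G Δ (m (T + j)) u :=
        Pop_nonneg (fun u => mul_nonneg (ind_nonneg _) (mis_nonneg _ _)) u
      nlinarith [ind_le_one (u ∉ X), ind_nonneg (u ∉ X)]
  have step2 : ∀ T b, 0 ≤ b → (∀ u, m T u ≤ b) → ∀ j u, (∃ x ∈ X, G.dist u x ≤ j) →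
      m (T + j) u ≤ b * (1 - ((Δ : ℝ) ^ j)⁻¹) := by
    intro T b hb0 hb j
    induction j with
    | zero =>
      rintro u ⟨x, hx, h⟩
      have : u = x := hc.dist_eq_zero_iff.1 (by omega)
      simp [m, this, ind_neg (not_not.2 hx)]
    | succ j ih =>
      rintro u ⟨x, hx, h⟩
      have hp : ((Δ : ℝ) ^ (j + 1))⁻¹ ≤ 1 := inv_le_one_of_one_le₀ (one_le_pow₀ hΔ1)
      by_cases hu : u ∈ X
      · simp only [m, ind_neg (not_not.2 hu), zero_mul]
        exact mul_nonneg hb0 (by linarith)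
      have hne : G.dist u x ≠ 0 := fun h' => hu (hc.dist_eq_zero_iff.1 h' ▸ hx)
      obtain ⟨u', h1, h2⟩ := exists_adj_dist hc (x := u) (y := x) (n := G.dist u x - 1) (by omega)
      have h3 := ih u' ⟨x, hx, by omega⟩
      rw [← add_assoc, hm1, ind_pos hu, one_mul]
      have h4 := Pop_single (G := G) (Δ := Δ) (f := fun w => b - m (T + j) w)
        (fun w => sub_nonneg.2 (step1 T b hb j w)) h1
      have h5 : Pop G Δ (fun w => b - m (T + j) w) u + Pop G Δ (m (T + j)) u = b := by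
        rw [← Pop_add]; simp only [sub_add_cancel]; exact Pop_const hreg hΔ b u
      have h6 : b * ((Δ : ℝ) ^ (j + 1))⁻¹ ≤ (b - m (T + j) u') / Δ := by
        rw [le_div_iff₀ hΔ0]
        have : b * ((Δ : ℝ) ^ (j + 1))⁻¹ * Δ = b * ((Δ : ℝ) ^ j)⁻¹ := by
          field_simp; ring
        linarith
      linarith
  have hp : 0 ≤ 1 - ((Δ : ℝ) ^ R)⁻¹ := sub_nonneg.2 (inv_le_one_of_one_le₀ (one_le_pow₀ hΔ1))
  have step3 : ∀ k u, m (k * R) u ≤ (1 - ((Δ : ℝ) ^ R)⁻¹) ^ k := by
    intro k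
    induction k with
    | zero => intro u; simpa [m, mis] using ind_le_one _
    | succ k ih =>
      intro u
      rw [Nat.succ_mul, pow_succ]
      exact step2 _ _ (pow_nonneg hp k) ih R u (hX u)
  exact (Pop_mono fun u _ => step3 k u).trans (Pop_const hreg hΔ _ v).le

lemma exists_proj (hc : G.Connected) (hΔ : 0 < Δ) (j : ℕ) : ∀ v, (∃ x ∈ X, G.dist v x ≤ j) →
    ∃ x ∈ X, G.dist v x ≤ j ∧ (v ∈ X → x = v) ∧
      ∀ T w, ((Δ : ℝ) ^ j)⁻¹ * AT G Δ X T v w ≤ AT G Δ X (T + j) x w := by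
  have hΔ1 : (1 : ℝ) ≤ Δ := by exact_mod_cast hΔ
  have hself : ∀ (j : ℕ) v, v ∈ X → ∃ x ∈ X, G.dist v x ≤ j ∧ (v ∈ X → x = v) ∧
      ∀ T w, ((Δ : ℝ) ^ j)⁻¹ * AT G Δ X T v w ≤ AT G Δ X (T + j) x w := by
    intro j v hv
    refine ⟨v, hv, by simp, fun _ => rfl, fun T w => ?_⟩
    have hp : ((Δ : ℝ) ^ j)⁻¹ ≤ 1 := inv_le_one_of_one_le₀ (one_le_pow₀ hΔ1)
    exact (mul_le_of_le_one_left (AT_nonneg _ _ _) hp).trans (AT_mono (by omega) _ _)
  induction j with
  | zero =>
    rintro v ⟨x, hx, h⟩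
    have : v = x := hc.dist_eq_zero_iff.1 (by omega)
    exact hself 0 v (this ▸ hx)
  | succ j ih =>
    rintro v ⟨x, hx, h⟩
    by_cases hv : v ∈ X
    · exact hself _ v hv
    have hne : G.dist v x ≠ 0 := fun h' => hv (hc.dist_eq_zero_iff.1 h' ▸ hx)
    obtain ⟨u, h1, h2⟩ := exists_adj_dist hc (x := v) (y := x) (n := G.dist v x - 1) (by omega)
    obtain ⟨x', hx', h3, _, h5⟩ := ih u ⟨x, hx, by omega⟩
    refine ⟨x', hx', (dist_adj hc h1 x').trans (by omega), fun h' => absurd h' hv, fun T w => ?_⟩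
    have h6 := h5 (T + 1) w
    have h7 : AT G Δ X T v w / Δ ≤ AT G Δ X (T + 1) u w := by
      refine le_trans ?_ (Pop_single (G := G) (Δ := Δ)
        (f := fun u => ind (u = w) + ind (u ∉ X) * AT G Δ X T u w)
        (fun u => add_nonneg (ind_nonneg _) (mul_nonneg (ind_nonneg _) (AT_nonneg _ _ _))) h1.symm)
      simp only [ind_pos hv, one_mul]
      gcongr
      linarith [ind_nonneg (v = w)]
    have e : T + (j + 1) = T + 1 + j := by omega
    rw [e]
    refine le_trans ?_ h6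
    calc ((Δ : ℝ) ^ (j + 1))⁻¹ * AT G Δ X T v w = ((Δ : ℝ) ^ j)⁻¹ * (AT G Δ X T v w / Δ) := by
          field_simp; ring
      _ ≤ _ := by gcongr

lemma exists_pi (hc : G.Connected) (hΔ : 0 < Δ) {R : ℕ} (hX : ∀ v, ∃ x ∈ X, G.dist v x ≤ R) :
    ∃ pr : V → V, (∀ v, pr v ∈ X) ∧ (∀ v, G.dist v (pr v) ≤ R) ∧ (∀ v ∈ X, pr v = v) ∧
      ∀ T, 2 * R + 1 ≤ T → ∀ v v', G.Adj v v' →
        ((Δ : ℝ) ^ (2 * R + 1))⁻¹ ≤ AT G Δ X T (pr v) (pr v') := by
  choose pr h1 h2 h3 h4 using fun v => exists_proj hc hΔ R v (hX v)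
  refine ⟨pr, h1, h2, h3, fun T hT v v' h => ?_⟩
  have a1 : AT G Δ X 1 v v' = 1 / Δ := by
    simp only [AT, mul_zero, add_zero, Pop_ind, tw_adj h]
  have a2 := h4 v 1 v'
  rw [AT_symm (1 + R)] at a2
  have a3 := h4 v' (1 + R) (pr v)
  rw [AT_symm (1 + R + R)] at a3
  refine le_trans ?_ (a3.trans (AT_mono (by omega) _ _))
  refine le_trans (le_of_eq ?_) (mul_le_mul_of_nonneg_left a2 (by positivity))
  rw [a1]; field_simp; ring

variable (G Δ) in
/-- Probability to hit `S` within `n` steps. -/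
noncomputable def hit (S : Set V) : ℕ → V → ℝ
  | 0, v => ind (v ∈ S)
  | n + 1, v => ind (v ∈ S) + ind (v ∉ S) * Pop G Δ (hit S n) v

lemma hit_nonneg (S : Set V) (n : ℕ) : ∀ v, 0 ≤ hit G Δ S n v := by
  induction n with
  | zero => intro v; exact ind_nonneg _
  | succ n ih =>
    intro v; exact add_nonneg (ind_nonneg _) (mul_nonneg (ind_nonneg _) (Pop_nonneg ih v))

lemma hit_le_one (hreg : Bd G Δ) (hΔ : 0 < Δ) (S : Set V) (n : ℕ) :
    ∀ v, hit G Δ S n v ≤ 1 := by
  induction n with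
  | zero => intro v; exact ind_le_one _
  | succ n ih =>
    intro v
    have : Pop G Δ (hit G Δ S n) v ≤ 1 :=
      (Pop_mono fun u _ => ih u).trans (Pop_const hreg hΔ 1 v).le
    by_cases h : v ∈ S <;> simp [hit, h, ind_pos, ind_neg, this]

lemma hit_succ_mono (S : Set V) (n : ℕ) : ∀ v, hit G Δ S n v ≤ hit G Δ S (n + 1) v := by
  induction n with
  | zero =>
    intro v
    exact le_add_of_nonneg_right (mul_nonneg (ind_nonneg _) (Pop_nonneg (hit_nonneg S 0) v))
  | succ n ih =>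
    intro v
    have := mul_le_mul_of_nonneg_left (Pop_mono (G := G) (Δ := Δ) (v := v) fun u _ => ih u)
      (ind_nonneg (v ∉ S))
    simp only [hit] at this ⊢
    linarith

lemma hit_mono (S : Set V) (v : V) : Monotone fun n => hit G Δ S n v :=
  monotone_nat_of_le_succ fun n => hit_succ_mono S n v

lemma Pop_hit (hreg : Bd G Δ) (hΔ : 0 < Δ) (S : Set V) (n : ℕ) (v : V) :
    Pop G Δ (hit G Δ S n) v ≤ hit G Δ S (n + 1) v := by
  have : Pop G Δ (hit G Δ S n) v ≤ 1 :=
    (Pop_mono fun u _ => hit_le_one hreg hΔ S n u).trans (Pop_const hreg hΔ 1 v).le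
  by_cases h : v ∈ S <;> simp [hit, h, ind_pos, ind_neg, this]

lemma hit_near (hc : G.Connected) (hreg : Bd G Δ) (hΔ : 0 < Δ) {S : Set V}
    {x : V} (hx : x ∈ S) (j : ℕ) : ∀ v, G.dist v x ≤ j → ((Δ : ℝ) ^ j)⁻¹ ≤ hit G Δ S j v := by
  have hΔ1 : (1 : ℝ) ≤ Δ := by exact_mod_cast hΔ
  induction j with
  | zero =>
    intro v h
    have : v = x := hc.dist_eq_zero_iff.1 (by omega)
    simp [hit, this, ind_pos hx]
  | succ j ih =>
    intro v h
    by_cases h0 : G.dist v x ≤ j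
    · refine le_trans ?_ ((ih v h0).trans (hit_succ_mono S j v))
      exact inv_anti₀ (by positivity) (pow_le_pow_right₀ hΔ1 (by omega))
    · obtain ⟨u, h1, h2⟩ := exists_adj_dist hc (x := v) (y := x) (n := j) (by omega)
      refine le_trans ?_ ((Pop_single (hit_nonneg S j) h1).trans (Pop_hit hreg hΔ S j v))
      have := ih u h2.le
      calc ((Δ : ℝ) ^ (j + 1))⁻¹ = ((Δ : ℝ) ^ j)⁻¹ / Δ := by field_simp; ring
        _ ≤ _ := by gcongr

end Pool.Agent.P.MP_e2f79e_pr.Iso
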