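import Pool.Agent.P.MP_e2f79e_pr.Walk
import Pool.Agent.P.MP_e2f79e_pr.ITrace

/-! Probability estimates on graphs of bounded degree. -/

set_option linter.unusedSectionVars false

namespace Pool.Agent.P.MP_e2f79e_pr.Iso

open MeasureTheory ProbabilityTheory Filter Topology Finset
open scoped NNReal ENNReal

variable {V : Type*} [DecidableEq V] {G : SimpleGraph V} [G.LocallyFinite] {Δ : ℕ}
variable [MeasurableSpace V] [DiscreteMeasurableSpace V] [Countable V]

lemma prob_unif (hreg : Bd G Δ) (hΔ : 0 < Δ) (hpos : ∀ v, 0 < G.degree v) (v : V) :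
    IsProbabilityMeasure (uniformOn (G.neighborSet v)) := by
  refine isProbabilityMeasure_uniformOn (Set.toFinite _) ?_
  have h : 0 < (G.neighborFinset v).card := by simpa using hpos v
  obtain ⟨u, hu⟩ := Finset.card_pos.1 h
  exact ⟨u, by simpa using hu⟩

lemma prob_jump (hreg : Bd G Δ) (hΔ : 0 < Δ) (hpos : ∀ v, 0 < G.degree v) :
    IsProbabilityMeasure (jumpLaw G) := by
  have := prob_unif hreg hΔ hpos
  unfold jumpLaw; infer_instance

lemma jump_single (hreg : Bd G Δ) (hΔ : 0 < Δ) (hpos : ∀ v, 0 < G.degree v) {x u : V} (h : G.Adj x u) :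
    (jumpLaw G).real {a | a x = u} = 1 / G.degree x := by
  have := prob_unif hreg hΔ hpos
  have h1 : (jumpLaw G) {a | a x = u} = uniformOn (G.neighborSet x) {u} := by
    rw [← Measure.infinitePi_map_eval (fun v => uniformOn (G.neighborSet v)) x,
      Measure.map_apply (measurable_pi_apply x) (measurableSet_singleton u)]
    rfl
  have h2 : uniformOn (G.neighborSet x) {u} = 1 / G.degree x := by
    rw [← SimpleGraph.coe_neighborFinset, ← Finset.coe_singleton, uniformOn_apply_finset,
      Finset.inter_singleton_of_mem (by simpa using h)]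
    simp
  rw [measureReal_def, h1, h2]
  simp

lemma hit_le_prob (hreg : Bd G Δ) (hΔ : 0 < Δ) (hpos : ∀ v, 0 < G.degree v) (S : Set V) (n : ℕ) :
    ∀ x, hit G Δ S n x ≤ (Measure.infinitePi fun _ : ℕ => jumpLaw G).real (HitEv S n x) := by
  have := prob_jump hreg hΔ hpos
  have hin : ∀ n x, x ∈ S →
      (Measure.infinitePi fun _ : ℕ => jumpLaw G).real (HitEv S n x) = 1 := by
    intro n x hx
    have : HitEv S n x = Set.univ := Set.eq_univ_of_forall fun U => ⟨0, Nat.zero_le _, hx⟩
    simp [this]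
  induction n with
  | zero =>
    intro x
    by_cases hx : x ∈ S
    · rw [hin 0 x hx]; exact hit_le_one hreg hΔ S 0 x
    · simp [hit, ind_neg hx]
  | succ n ih =>
    intro x
    by_cases hx : x ∈ S
    · rw [hin _ x hx]; exact hit_le_one hreg hΔ S _ x
    have hmono : (Measure.infinitePi fun _ : ℕ => jumpLaw G).real (HitEv S n x) ≤
        (Measure.infinitePi fun _ : ℕ => jumpLaw G).real (HitEv S (n + 1) x) :=
      measureReal_mono fun U ⟨j, hj, h⟩ => ⟨j, by omega, h⟩
    suffices hs : (∑ u ∈ G.neighborFinset x, hit G Δ S n u) / G.degree x ≤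
        (Measure.infinitePi fun _ : ℕ => jumpLaw G).real (HitEv S (n + 1) x) by
      have hd : (0 : ℝ) < G.degree x := by exact_mod_cast hpos x
      have hd' : (G.degree x : ℝ) ≤ Δ := by exact_mod_cast hreg x
      have hΔ' : (0 : ℝ) < Δ := by exact_mod_cast hΔ
      simp only [hit, ind_neg hx, ind_pos hx, zero_add, one_mul]
      rw [Pop_eq, Nat.cast_sub (hreg x), div_le_iff₀ hΔ']
      rw [div_le_iff₀ hd] at hs
      have := mul_le_mul_of_nonneg_left ((ih x).trans hmono) (sub_nonneg.2 hd')
      nlinarith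
    clear hmono
    rw [← map_consSeq (jumpLaw G), map_measureReal_apply measurable_consSeq
      (measurableSet_HitEv S _ x)]
    have hsub : (⋃ u ∈ G.neighborFinset x, {a : V → V | a x = u} ×ˢ HitEv S n u) ⊆
        consSeq ⁻¹' HitEv S (n + 1) x := by
      intro p hp
      simp only [Set.mem_iUnion, Set.mem_prod, Set.mem_ofPred_eq] at hp
      obtain ⟨u, -, h1, j, hj, h2⟩ := hp
      exact ⟨j + 1, by omega, by rw [pos_consSeq, h1]; exact h2⟩
    refine le_trans ?_ (measureReal_mono hsub)
    rw [measureReal_biUnion_finset]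
    · simp only [Finset.sum_div]
      refine Finset.sum_le_sum fun u hu => ?_
      rw [measureReal_prod_prod, jump_single hreg hΔ hpos (by simpa using hu), one_div_mul_eq_div]
      gcongr
      exact ih u
    · intro u _ w _ huw
      refine Set.disjoint_left.2 fun p hp hq => huw ?_
      exact hp.1.symm.trans hq.1
    · intro u _
      refine MeasurableSet.prod ?_ (measurableSet_HitEv S n u)
      exact measurable_pi_apply (X := fun _ : V => V) x (measurableSet_singleton u)

lemma prob_particle (hreg : Bd G Δ) (hΔ : 0 < Δ) (hpos : ∀ v, 0 < G.degree v) :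
    IsProbabilityMeasure (particleLaw G) := by
  have := prob_jump hreg hΔ hpos
  have := prob_time
  unfold particleLaw; infer_instance

lemma prob_site (hreg : Bd G Δ) (hΔ : 0 < Δ) (hpos : ∀ v, 0 < G.degree v) (lam : ℝ≥0) :
    IsProbabilityMeasure (siteLaw G lam) := by
  have := prob_particle hreg hΔ hpos
  unfold siteLaw; infer_instance

lemma site_avoid (hreg : Bd G Δ) (hΔ : 0 < Δ) (hpos : ∀ v, 0 < G.degree v) (lam : ℝ≥0) {n : ℕ} {t : ℝ}
    (ht : 1 / 2 ≤ (Measure.infinitePi fun _ : ℕ => expMeasure 1).real (TimeEv n t)) (k : ℕ)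
    (S : Set V) (x : V) :
    (siteLaw G lam).real {s | k ≤ s.1 ∧ ∀ y ∈ S, ¬ SW t s x y} ≤
      (poissonMeasure lam).real {m | k ≤ m} * Real.exp (-(k / 2 * hit G Δ S n x)) := by
  have := prob_jump hreg hΔ hpos
  have := prob_time
  have := prob_particle hreg hΔ hpos
  have := prob_site hreg hΔ hpos lam
  set A : Set (Particle V) := (HitEv S n x ×ˢ TimeEv n t)ᶜ with hA
  have hAm : MeasurableSet (HitEv S n x ×ˢ TimeEv n t) :=
    (measurableSet_HitEv S n x).prod (measurableSet_TimeEv n t)
  have h1 : (particleLaw G).real A ≤ Real.exp (-(1 / 2 * hit G Δ S n x)) := by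
    rw [hA, probReal_compl_eq_one_sub hAm, particleLaw, measureReal_prod_prod]
    have h2 := hit_le_prob hreg hΔ hpos S n x
    have h3 := hit_nonneg (G := G) (Δ := Δ) S n x
    have h4 := Real.one_sub_le_exp_neg (1 / 2 * hit G Δ S n x)
    nlinarith
  have hsub : {s : Site V | k ≤ s.1 ∧ ∀ y ∈ S, ¬ SW t s x y} ⊆
      {m | k ≤ m} ×ˢ ((range k : Set ℕ).pi fun _ => A) := by
    rintro s ⟨h1, h2⟩
    refine ⟨h1, fun i hi => ?_⟩
    rintro ⟨⟨j, hj, h3⟩, h4⟩
    exact h2 _ h3 ⟨i, lt_of_lt_of_le (by simpa using hi) h1, j, h4 j hj, rfl⟩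
  refine (measureReal_mono hsub).trans ?_
  rw [siteLaw, measureReal_prod_prod]
  gcongr
  rw [measureReal_def, Measure.infinitePi_pi _ fun _ _ => hAm.compl, Finset.prod_const,
    Finset.card_range, ENNReal.toReal_pow, ← measureReal_def]
  calc (particleLaw G).real A ^ k ≤ Real.exp (-(1 / 2 * hit G Δ S n x)) ^ k := by gcongr
    _ = _ := by rw [← Real.exp_nat_mul]; ring_nf

lemma site_count (hreg : Bd G Δ) (hΔ : 0 < Δ) (hpos : ∀ v, 0 < G.degree v) (lam : ℝ≥0) (B : Set ℕ) :
    (siteLaw G lam).real {s | s.1 ∈ B} = (poissonMeasure lam).real B := by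
  have := prob_particle hreg hΔ hpos
  have : {s : Site V | s.1 ∈ B} = B ×ˢ Set.univ := by ext s; simp
  rw [this, siteLaw, measureReal_prod_prod]
  simp

end Pool.Agent.P.MP_e2f79e_pr.Iso
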