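import Pool.Agent.P.MP_e2f79e_pr.ITrace
import Pool.Agent.P.MP_e2f79e_pr.IDefs

/-! A Nash inequality from an isoperimetric inequality. -/

set_option linter.unusedSectionVars false

namespace Pool.Agent.P.MP_e2f79e_pr.Iso

open Finset

variable {V : Type*} [DecidableEq V] {G : SimpleGraph V} [G.LocallyFinite] {Δ : ℕ}

lemma boundary_le_cut (F : Finset V) : ((vertexBoundary G F).ncard : ℝ) ≤
    ∑ z ∈ F, ∑ w ∈ G.neighborFinset z, ind (w ∉ F) := by
  rw [coe_vertexBoundary, Set.ncard_coe_finset]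
  have h1 : F.biUnion (fun v => G.neighborFinset v) \ F ⊆
      F.biUnion fun z => (G.neighborFinset z).filter fun w => w ∉ F := by
    intro w hw
    obtain ⟨h1, h2⟩ := mem_sdiff.1 hw
    obtain ⟨z, hz, h3⟩ := mem_biUnion.1 h1
    exact mem_biUnion.2 ⟨z, hz, mem_filter.2 ⟨h3, h2⟩⟩
  have h2 := (card_le_card h1).trans card_biUnion_le
  refine le_trans (Nat.cast_le.2 h2) (le_of_eq ?_)
  push_cast
  refine sum_congr rfl fun z _ => ?_
  rw [card_filter]; push_cast
  exact sum_congr rfl fun w _ => by by_cases h : w ∈ F <;> simp [ind, h]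

/-- The co-area inequality. -/
lemma coarea {h : ℝ} {N : ℕ}
    (hI : ∀ F : Finset V, F.card ≤ N → h * F.card ≤ (vertexBoundary G F).ncard) (n : ℕ) :
    ∀ (S : Finset V) (g : V → ℝ), S.card = n → n ≤ N → (∀ x, 0 ≤ g x) → (∀ x, x ∉ S → g x = 0) →
      h * ∑ x ∈ S, g x ≤ ∑ z ∈ S, ∑ w ∈ G.neighborFinset z, max (g z - g w) 0 := by
  induction n with
  | zero => intro S g hS _ _ _; rw [card_eq_zero.1 hS]; simp
  | succ n ih =>
    intro S g hS hn g0 gS
    obtain ⟨a, ha, hmin⟩ := exists_min_image S g (card_pos.1 (by omega))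
    let g' : V → ℝ := fun x => if x ∈ S then g x - g a else 0
    have h1 := ih (S.erase a) g' (by rw [card_erase_of_mem ha]; omega) (by omega)
      (fun x => by
        simp only [g']; split_ifs with hx
        · linarith [hmin x hx]
        · exact le_rfl)
      (fun x hx => by
        simp only [g']; split_ifs with hxS
        · have : x = a := by by_contra hc; exact hx (mem_erase.2 ⟨hc, hxS⟩)
          rw [this, sub_self]
        · rfl)
    have h2 : ∑ x ∈ S, g x = ∑ x ∈ S.erase a, g' x + g a * S.card := by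
      rw [sum_erase _ (by simp [g', ha]), mul_comm, ← nsmul_eq_mul, ← sum_const, ← sum_add_distrib]
      exact sum_congr rfl fun x hx => by simp [g', hx]
    have h3 : ∑ z ∈ S.erase a, ∑ w ∈ G.neighborFinset z, max (g' z - g' w) 0 ≤
        ∑ z ∈ S, ∑ w ∈ G.neighborFinset z, max (g' z - g' w) 0 :=
      sum_le_sum_of_subset_of_nonneg (erase_subset _ _) fun _ _ _ =>
        sum_nonneg fun _ _ => le_max_right _ _
    have h4 : ∑ z ∈ S, ∑ w ∈ G.neighborFinset z, max (g' z - g' w) 0 +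
        g a * ∑ z ∈ S, ∑ w ∈ G.neighborFinset z, ind (w ∉ S) =
        ∑ z ∈ S, ∑ w ∈ G.neighborFinset z, max (g z - g w) 0 := by
      simp only [mul_sum, ← sum_add_distrib]
      refine sum_congr rfl fun z hz => sum_congr rfl fun w _ => ?_
      by_cases hw : w ∈ S
      · simp [g', hz, hw, ind]
      · have a1 := hmin z hz
        have a2 := g0 z
        simp only [g', if_pos hz, if_neg hw, ind_pos hw, gS w hw, sub_zero, mul_one]
        rw [max_eq_left (by linarith), max_eq_left a2]; ring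
    have h5 := mul_le_mul_of_nonneg_left ((hI S (by omega)).trans (boundary_le_cut S)) (g0 a)
    rw [h2]
    nlinarith

lemma faber (hreg : Bd G Δ) {h : ℝ} (hh : 0 < h) {N : ℕ}
    (hI : ∀ F : Finset V, F.card ≤ N → h * F.card ≤ (vertexBoundary G F).ncard)
    (S : Finset V) (hS : S.card ≤ N) (g : V → ℝ) (g0 : ∀ x, 0 ≤ g x) (gS : ∀ x, x ∉ S → g x = 0) :
    h ^ 2 * ∑ x ∈ S, g x ^ 2 ≤ 4 * Δ * ∑ z ∈ S, En G g z := by
  have h1 := coarea hI _ S (fun x => g x ^ 2) rfl hS (fun x => sq_nonneg _)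
    (fun x hx => by simp [gS x hx])
  have hΔ : (0 : ℝ) ≤ Δ := Nat.cast_nonneg _
  have h2 : ∀ z w, h * max (g z ^ 2 - g w ^ 2) 0 * Δ ≤
      h ^ 2 / 2 * g z ^ 2 + 2 * Δ ^ 2 * (g z - g w) ^ 2 := by
    intro z w
    rcases le_total (g z) (g w) with h3 | h3
    · rw [max_eq_right (by nlinarith [g0 z, g0 w]), mul_zero, zero_mul]; positivity
    · rw [max_eq_left (by nlinarith [g0 z, g0 w])]
      have a1 : g z ^ 2 - g w ^ 2 ≤ 2 * g z * (g z - g w) := by nlinarith [sq_nonneg (g z - g w)]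
      have a2 := mul_le_mul_of_nonneg_left a1 (mul_nonneg hh.le hΔ)
      nlinarith [sq_nonneg (h * g z - 2 * Δ * (g z - g w))]
  rcases Nat.eq_zero_or_pos Δ with h0 | h0
  · have h3 : ∀ z, G.neighborFinset z = ∅ := fun z => by
      rw [← card_eq_zero, SimpleGraph.card_neighborFinset_eq_degree]
      have := hreg z; omega
    simp only [h3, sum_empty, sum_const_zero] at h1
    rw [h0]
    have := mul_le_mul_of_nonneg_left h1 hh.le
    simp only [Nat.cast_zero, mul_zero, zero_mul] at this ⊢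
    nlinarith
  have hΔ0 : (0 : ℝ) < Δ := by exact_mod_cast h0
  have h3 : h * (∑ z ∈ S, ∑ w ∈ G.neighborFinset z, max (g z ^ 2 - g w ^ 2) 0) * Δ ≤
      h ^ 2 / 2 * Δ * ∑ x ∈ S, g x ^ 2 + 2 * Δ ^ 2 * ∑ z ∈ S, En G g z := by
    simp only [mul_sum, sum_mul, En, ← sum_add_distrib]
    refine sum_le_sum fun z _ => (sum_le_sum fun w _ => h2 z w).trans ?_
    rw [sum_add_distrib, sum_const, nsmul_eq_mul, SimpleGraph.card_neighborFinset_eq_degree]
    have a1 : (G.degree z : ℝ) ≤ Δ := by exact_mod_cast hreg z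
    have a2 : 0 ≤ h ^ 2 / 2 * g z ^ 2 := by positivity
    nlinarith
  have h4 := mul_le_mul_of_nonneg_right (mul_le_mul_of_nonneg_left h1 hh.le) hΔ
  refine le_of_mul_le_mul_right ?_ hΔ0
  nlinarith

lemma iso_small {c : ℝ} (hc0 : 0 < c) (hc1 : c ≤ 1)
    (hI : ∀ F : Finset V, c * (F.card : ℝ) ^ 11 ≤ ((vertexBoundary G F).ncard : ℝ) ^ 12)
    {r : ℕ} (hr : 1 ≤ r) (F : Finset V) (hF : F.card ≤ r ^ 12) :
    c / r * F.card ≤ (vertexBoundary G F).ncard := by
  have hr0 : (0 : ℝ) < r := by exact_mod_cast hr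
  refine le_of_pow_le_pow_left₀ (n := 12) (by norm_num) (Nat.cast_nonneg _) (le_trans ?_ (hI F))
  have h1 : (F.card : ℝ) ≤ r ^ 12 := by exact_mod_cast hF
  have h2 : c ^ 12 ≤ c := pow_le_of_le_one hc0.le hc1 (by norm_num)
  rw [mul_pow, div_pow, div_mul_eq_mul_div, div_le_iff₀ (by positivity)]
  calc c ^ 12 * (F.card : ℝ) ^ 12 = c ^ 12 * (F.card : ℝ) ^ 11 * F.card := by ring
    _ ≤ c * (F.card : ℝ) ^ 11 * r ^ 12 := by gcongr

theorem nash_iso (hreg : Bd G Δ) {c : ℝ} (hc0 : 0 < c) (hc1 : c ≤ 1)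
    (hI : ∀ F : Finset V, c * (F.card : ℝ) ^ 11 ≤ ((vertexBoundary G F).ncard : ℝ) ^ 12)
    (f : V → ℝ) (A B : Finset V) (hA : ∀ x, x ∉ A → f x = 0) (hB : ∀ z, z ∉ B → En G f z = 0)
    (r : ℕ) (hr : 1 ≤ r) : ∑ x ∈ A, f x ^ 2 ≤
      4 * Δ / c ^ 2 * r ^ 2 * ∑ z ∈ B, En G f z + 2 * (∑ x ∈ A, |f x|) ^ 2 / r ^ 12 := by
  have hr0 : (0 : ℝ) < r := by exact_mod_cast hr
  have hE : 0 ≤ ∑ z ∈ B, En G f z := sum_nonneg fun z _ => En_nonneg f z
  set L := ∑ x ∈ A, |f x| with hL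
  have hL0 : 0 ≤ L := sum_nonneg fun _ _ => abs_nonneg _
  set s := L / r ^ 12 with hs
  have hs0 : 0 ≤ s := by positivity
  let g : V → ℝ := fun x => max (|f x| - s) 0
  let S := A.filter fun x => s < |f x|
  have gS : ∀ x, x ∉ S → g x = 0 := by
    intro x hx
    by_cases h : x ∈ A
    · exact max_eq_right (by
        have : ¬ s < |f x| := fun h' => hx (mem_filter.2 ⟨h, h'⟩)
        linarith)
    · exact max_eq_right (by rw [hA x h]; simpa using hs0)
  have hS : S.card ≤ r ^ 12 := by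
    rcases S.eq_empty_or_nonempty with h | h
    · simp [h]
    have a1 : ∑ _x ∈ S, s < ∑ x ∈ S, |f x| := sum_lt_sum_of_nonempty h fun x hx => (mem_filter.1 hx).2
    have a2 : ∑ x ∈ S, |f x| ≤ L :=
      sum_le_sum_of_subset_of_nonneg (filter_subset _ _) fun _ _ _ => abs_nonneg _
    rw [sum_const, nsmul_eq_mul, hs, ← mul_div_assoc, div_lt_iff₀ (by positivity)] at a1
    by_contra hc
    have a3 : (r : ℝ) ^ 12 ≤ S.card := by exact_mod_cast (not_le.1 hc).le
    have a4 : (0 : ℝ) < r ^ 12 := by positivity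
    nlinarith
  have h1 := faber hreg (div_pos hc0 hr0) (iso_small hc0 hc1 hI hr) S hS g
    (fun _ => le_max_right _ _) gS
  have h2 : ∑ z ∈ S, En G g z ≤ ∑ z ∈ B, En G f z := by
    refine le_trans (sum_le_sum fun z _ => ?_)
      (sum_le_sum_of_ne (s := S) (fun z _ => En_nonneg f z) fun z _ h => by_contra fun hz => h (hB z hz))
    refine sum_le_sum fun w _ => ?_
    refine sq_le_sq.2 ((abs_max_sub_max_le_abs _ _ _).trans ?_)
    rw [sub_sub_sub_cancel_right]
    exact abs_abs_sub_abs_le_abs_sub _ _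
  have h3 : ∑ x ∈ A, f x ^ 2 ≤ ∑ x ∈ S, g x ^ 2 + 2 * s * L := by
    rw [sum_subset (filter_subset _ A) fun x _ hx => by simp [gS x hx], hL, mul_sum,
      ← sum_add_distrib]
    refine sum_le_sum fun x _ => ?_
    have a0 := abs_nonneg (f x)
    rw [← sq_abs (f x)]
    simp only [g]
    rcases le_total (|f x| - s) 0 with h | h
    · rw [max_eq_right h]; nlinarith
    · rw [max_eq_left h]; nlinarith
  have h4 : ∑ x ∈ S, g x ^ 2 ≤ 4 * Δ / c ^ 2 * r ^ 2 * ∑ z ∈ B, En G f z := by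
    have a1 : (c / r) ^ 2 * ∑ x ∈ S, g x ^ 2 ≤ 4 * Δ * ∑ z ∈ B, En G f z :=
      h1.trans (by gcongr)
    rw [← le_div_iff₀' (by positivity)] at a1
    refine a1.trans (le_of_eq ?_)
    field_simp
  have h5 : 2 * s * L = 2 * L ^ 2 / r ^ 12 := by rw [hs]; ring
  linarith

end Pool.Agent.P.MP_e2f79e_pr.Iso
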