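import Pool.Agent.P.MP_e2f79e_pr.Main

/-! The lamplighter graph meets the hypotheses of the theorem; survival is an event. -/

namespace Pool.Agent.P.MP_e2f79e_pr.Lamp

open MeasureTheory ProbabilityTheory Filter Topology Finset
open scoped NNReal ENNReal symmDiff

/-- A finite set of lit lamps and a position; move one step or switch the lamp at the position. -/
def lamp : SimpleGraph (Finset ℤ × ℤ) where
  Adj p q := (p.1 = q.1 ∧ (q.2 = p.2 + 1 ∨ p.2 = q.2 + 1)) ∨ (p.2 = q.2 ∧ q.1 = p.1 ∆ {p.2})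
  symm := ⟨by
    rintro ⟨A, x⟩ ⟨B, y⟩ (⟨h, h'⟩ | ⟨h, h'⟩)
    · exact Or.inl ⟨h.symm, h'.symm⟩
    · simp only at h h'
      subst h h'
      exact Or.inr ⟨rfl, by simp⟩⟩
  loopless := ⟨by
    rintro ⟨A, x⟩ (⟨-, h | h⟩ | ⟨-, h⟩)
    · simp at h
    · simp at h
    · have : x ∈ A ↔ x ∈ A ∆ {x} := by rw [← show A = A ∆ {x} from h]
      simp [mem_symmDiff] at this⟩

theorem adj_step (A : Finset ℤ) (x : ℤ) : lamp.Adj (A, x) (A, x + 1) := Or.inl ⟨rfl, Or.inl rfl⟩

theorem adj_switch (A : Finset ℤ) (x : ℤ) : lamp.Adj (A, x) (A ∆ {x}, x) := Or.inr ⟨rfl, rfl⟩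

theorem nbr_finite (p : Finset ℤ × ℤ) : (lamp.neighborSet p).Finite := by
  obtain ⟨A, x⟩ := p
  refine (Set.toFinite {(A, x + 1), (A, x - 1), (A ∆ {x}, x)}).subset ?_
  rintro ⟨B, y⟩ (⟨h, h' | h'⟩ | ⟨h, h'⟩) <;> simp only at h h'
  · simp [h, h']
  · simp [h, h']
  · simp [← h, h']

theorem reach_move (A : Finset ℤ) (x y : ℤ) : lamp.Reachable (A, x) (A, y) := by
  have h : ∀ z : ℤ, lamp.Reachable (A, 0) (A, z) := fun z => by
    induction z using Int.induction_on with
    | zero => rfl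
    | succ n ih => exact ih.trans (adj_step A n).reachable
    | pred n ih =>
      refine ih.trans (SimpleGraph.Adj.reachable (Or.inl ⟨rfl, Or.inr ?_⟩))
      simp
  exact (h x).symm.trans (h y)

theorem switch_insert {A : Finset ℤ} {a : ℤ} (h : a ∉ A) : A ∆ {a} = insert a A := by
  ext b
  simp only [mem_symmDiff, mem_singleton, mem_insert]
  constructor
  · tauto
  · rintro (rfl | h')
    · exact Or.inr ⟨rfl, h⟩
    · exact Or.inl ⟨h', fun e => h (e ▸ h')⟩

theorem connected : lamp.Connected := by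
  have h : ∀ (A : Finset ℤ) (x : ℤ), lamp.Reachable (∅, 0) (A, x) := fun A => by
    induction A using Finset.induction_on with
    | empty => exact fun x => reach_move _ _ _
    | insert a A ha ih =>
      intro x
      rw [← switch_insert ha]
      exact ((ih a).trans (adj_switch A a).reachable).trans (reach_move _ _ _)
  exact ⟨fun p q => (h p.1 p.2).symm.trans (h q.1 q.2)⟩

theorem transitive : VertexTransitive lamp := by
  rintro ⟨A, x⟩ ⟨B, y⟩
  obtain ⟨ψ, h1, h2⟩ : ∃ ψ : Finset ℤ ≃ Finset ℤ, ψ A = B ∧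
      ∀ C z, ψ (C ∆ {z}) = ψ C ∆ {z + (y - x)} := by
    let e := (Equiv.addRight (y - x)).finsetCongr
    refine ⟨e.trans (Function.Involutive.toPerm _ (symmDiff_left_involutive (e A ∆ B))), ?_, ?_⟩
    · show e A ∆ (e A ∆ B) = B
      simp
    · intro C z
      show e (C ∆ {z}) ∆ (e A ∆ B) = (e C ∆ (e A ∆ B)) ∆ {z + (y - x)}
      have : e (C ∆ {z}) = e C ∆ {z + (y - x)} := by
        ext b
        simp only [e, Equiv.finsetCongr_apply, mem_map_equiv, mem_symmDiff, mem_singleton,
          Equiv.symm_apply_eq, Equiv.coe_addRight]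
      rw [this, symmDiff_right_comm]
  refine ⟨⟨ψ.prodCongr (Equiv.addRight (y - x)), ?_⟩, ?_⟩
  · rintro ⟨C, z⟩ ⟨D, w⟩
    show (ψ C = ψ D ∧ (w + (y - x) = z + (y - x) + 1 ∨ z + (y - x) = w + (y - x) + 1)) ∨
      (z + (y - x) = w + (y - x) ∧ ψ D = ψ C ∆ {z + (y - x)}) ↔
      (C = D ∧ (w = z + 1 ∨ z = w + 1)) ∨ (z = w ∧ D = C ∆ {z})
    rw [← h2, ψ.apply_eq_iff_eq, ψ.apply_eq_iff_eq]
    refine or_congr (and_congr_right fun _ => ?_) (and_congr_left fun _ => ?_) <;> omega
  · show (ψ A, x + (y - x)) = (B, y)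
    rw [h1, add_sub_cancel]

theorem amenable : Amenable lamp := by
  refine ⟨fun n => (Icc (0 : ℤ) n).powerset ×ˢ Icc (0 : ℤ) n,
    fun n => ⟨(∅, 0), by simp⟩, ?_⟩
  have lim : Tendsto (fun n : ℕ => (2 : ℝ) * (1 / ((n : ℝ) + 1))) atTop (𝓝 0) := by
    simpa using (tendsto_one_div_add_atTop_nhds_zero_nat (𝕜 := ℝ)).const_mul 2
  refine squeeze_zero (fun n => by positivity) (fun n => ?_) lim
  have sub : vertexBoundary lamp ((Icc (0 : ℤ) n).powerset ×ˢ Icc (0 : ℤ) n) ⊆
      ↑((Icc (0 : ℤ) n).powerset ×ˢ ({-1, (n : ℤ) + 1} : Finset ℤ)) := by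
    rintro ⟨B, y⟩ ⟨hn, ⟨A, x⟩, hm, (⟨h, h'⟩ | ⟨h, h'⟩)⟩ <;>
      simp only [mem_product, mem_powerset, mem_Icc, not_and] at hn hm h h'
    · subst h
      have := hn hm.1
      simp only [coe_product, Set.mem_prod, mem_coe, mem_powerset, mem_insert, mem_singleton]
      exact ⟨hm.1, by omega⟩
    · subst h h'
      refine absurd hm.2.2 (hn (fun b hb => ?_) hm.2.1)
      rcases mem_symmDiff.1 hb with hb | hb
      · exact hm.1 hb.1
      · rw [mem_singleton.1 hb.1]; exact mem_Icc.2 hm.2
  have h1 := Set.ncard_le_ncard sub (Finset.finite_toSet _)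
  rw [Set.ncard_coe_finset, card_product] at h1
  have h2 := h1.trans (Nat.mul_le_mul_left _ card_le_two)
  have h3 : (Icc (0 : ℤ) n).card = n + 1 := by simp
  have h4 : (0 : ℝ) < (Icc (0 : ℤ) n).powerset.card := by
    exact_mod_cast card_pos.2 ⟨∅, by simp⟩
  rw [card_product, h3, div_le_iff₀ (by push_cast; positivity)]
  have h5 : ((vertexBoundary lamp ((Icc (0 : ℤ) n).powerset ×ˢ Icc (0 : ℤ) n)).ncard : ℝ) ≤
      (Icc (0 : ℤ) n).powerset.card * 2 := by exact_mod_cast h2
  refine h5.trans (le_of_eq ?_)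
  push_cast
  field_simp

theorem dist_le (n : ℕ) : ∀ A ⊆ Ico (0 : ℤ) n, lamp.dist (∅, 0) (A, (n : ℤ)) ≤ 2 * n := by
  induction n with
  | zero =>
    intro A h
    have : A = ∅ := by simpa using h
    simp [this]
  | succ n ih =>
    intro A h
    have h1 := ih (A.erase n) fun b hb => by
      have h2 := mem_Ico.1 (h (mem_of_mem_erase hb))
      have h3 := ne_of_mem_erase hb
      push_cast at h2
      exact mem_Ico.2 ⟨h2.1, by omega⟩
    have h2 : lamp.dist (A.erase n, (n : ℤ)) (A, (n : ℤ)) ≤ 1 := by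
      by_cases e : (n : ℤ) ∈ A
      · have := adj_switch (A.erase n) n
        rw [switch_insert (notMem_erase _ _), insert_erase e] at this
        exact (SimpleGraph.dist_eq_one_iff_adj.2 this).le
      · simp [erase_eq_of_notMem e]
    have h3 := (SimpleGraph.dist_eq_one_iff_adj.2 (adj_step A n)).le
    have h4 := connected.dist_triangle (u := (∅, 0)) (v := (A.erase n, (n : ℤ))) (w := (A, (n : ℤ)))
    have h5 := connected.dist_triangle (u := (∅, 0)) (v := (A, (n : ℤ))) (w := (A, (n : ℤ) + 1))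
    push_cast
    omega

theorem growth_ge (n : ℕ) : 2 ^ n ≤ growth lamp (∅, 0) (2 * n) := by
  let : lamp.LocallyFinite := fun p => (nbr_finite p).fintype
  rw [growth_eq connected]
  have h : ((Ico (0 : ℤ) n).powerset ×ˢ ({(n : ℤ)} : Finset ℤ)).card = 2 ^ n := by simp
  rw [← h]
  refine card_le_card ?_
  rintro ⟨A, x⟩ hm
  simp only [mem_product, mem_powerset, mem_singleton] at hm
  rw [mem_ballF connected, hm.2]
  exact dist_le n A hm.1

theorem not_poly : ¬∃ (C : ℝ) (d : ℕ), ∀ n : ℕ, 1 ≤ n →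
    (growth lamp (∅, 0) n : ℝ) ≤ C * (n : ℝ) ^ d := by
  rintro ⟨C, d, h⟩
  have lim := (tendsto_pow_const_div_const_pow_of_one_lt d (r := (2 : ℝ)) one_lt_two).const_mul
    (C * 2 ^ d)
  rw [mul_zero] at lim
  obtain ⟨n, h1, h2⟩ := ((lim.eventually (gt_mem_nhds one_pos)).and (eventually_ge_atTop 1)).exists
  have h3 : (2 : ℝ) ^ n ≤ growth lamp (∅, 0) (2 * n) := by exact_mod_cast growth_ge n
  have h4 := h3.trans (h (2 * n) (by omega))
  rw [← mul_div_assoc, div_lt_one (by positivity)] at h1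
  push_cast at h4
  rw [mul_pow, ← mul_assoc] at h4
  linarith

theorem exists_graph : ∃ (V : Type) (_ : MeasurableSpace V) (_ : DiscreteMeasurableSpace V)
    (G : SimpleGraph V) (_ : G.LocallyFinite) (o : V), G.Connected ∧ VertexTransitive G ∧
      Amenable G ∧ ¬∃ (C : ℝ) (d : ℕ), ∀ n : ℕ, 1 ≤ n → (growth G o n : ℝ) ≤ C * (n : ℝ) ^ d :=
  ⟨Finset ℤ × ℤ, inferInstance, inferInstance, lamp, fun p => (nbr_finite p).fintype, (∅, 0), connected,
    transitive, amenable, not_poly⟩

variable {V : Type*} [MeasurableSpace V]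

theorem tc_finite (G : SimpleGraph V) (h : (Set.univ : Set V).Finite) (o : V) (lam : ℝ≥0) :
    tc G o lam = ⊤ := by
  have e : ∀ t : ℝ, Survives t o = ∅ := fun t =>
    Set.eq_empty_of_forall_notMem fun ω hω => hω (h.subset (Set.subset_univ _))
  simp only [tc, e, measure_empty, iSup_pos]
  exact ENNReal.iSup_coe_eq_top.2 (by rw [Set.range_id']; exact not_bddAbove_univ)

theorem survives_meas [DiscreteMeasurableSpace V] [Countable V] (t : ℝ) (o : V) :
    MeasurableSet (Survives t o) := by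
  classical
  have w : ∀ x y : V, MeasurableSet {ω : V → Site V | Wakes t ω x y} := fun x y =>
    (measurableSet_SW t x y).preimage (measurable_pi_apply (X := fun _ : V => Site V) x)
  have c : ∀ (l : List V) (x : V), MeasurableSet {ω : V → Site V | List.IsChain (Wakes t ω) (x :: l)} := by
    intro l
    induction l with
    | nil => intro x; simp
    | cons y l ih =>
      intro x
      simp only [List.isChain_cons_cons]
      exact (w x y).inter (ih y)
  have r : ∀ y : V, MeasurableSet {ω : V → Site V | Relation.ReflTransGen (Wakes t ω) o y} := by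
    intro y
    have e : {ω : V → Site V | Relation.ReflTransGen (Wakes t ω) o y} =
        ⋃ (l : List V) (_ : (o :: l).getLast (List.cons_ne_nil _ _) = y),
          {ω : V → Site V | List.IsChain (Wakes t ω) (o :: l)} := by
      ext ω
      simp only [Set.mem_iUnion, Set.mem_ofPred_eq]
      constructor
      · intro h
        obtain ⟨l, h1, h2⟩ := List.exists_isChain_cons_of_relationReflTransGen h
        exact ⟨l, h2, h1⟩
      · rintro ⟨l, h2, h1⟩
        exact List.relationReflTransGen_of_exists_isChain_cons l h1 h2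
    rw [e]
    exact .iUnion fun l => .iUnion fun _ => c l o
  have e : Survives t o = ⋂ F : Finset V, ⋃ (y : V) (_ : y ∉ F),
      {ω : V → Site V | Relation.ReflTransGen (Wakes t ω) o y} := by
    ext ω
    simp only [Survives, Set.mem_iInter, Set.mem_iUnion, Set.mem_ofPred_eq]
    constructor
    · intro h F
      obtain ⟨y, h1, h2⟩ := h.exists_notMem_finset F
      exact ⟨y, h2, h1⟩
    · intro h f
      obtain ⟨y, h1, h2⟩ := h f.toFinset
      exact h1 (f.mem_toFinset.2 h2)
  rw [e]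
  exact .iInter fun F => .iUnion fun y => .iUnion fun _ => r y

theorem law_univ [DiscreteMeasurableSpace V] (G : SimpleGraph V) [G.LocallyFinite]
    (h : ∀ v, ∃ w, G.Adj v w) (lam : ℝ≥0) : frogLaw G lam Set.univ = 1 := by
  have h1 : ∀ v, IsProbabilityMeasure (uniformOn (G.neighborSet v)) := fun v =>
    isProbabilityMeasure_uniformOn (Set.toFinite _) (h v)
  have h2 : IsProbabilityMeasure (jumpLaw G) := by unfold jumpLaw; infer_instance
  have h3 := prob_time
  have h4 : IsProbabilityMeasure (particleLaw G) := by unfold particleLaw; infer_instance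
  have h5 : IsProbabilityMeasure (siteLaw G lam) := by unfold siteLaw; infer_instance
  have h6 : IsProbabilityMeasure (frogLaw G lam) := by unfold frogLaw; infer_instance
  exact measure_univ

end Pool.Agent.P.MP_e2f79e_pr.Lamp
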