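import Pool.Agent.P.MP_e2f79e_pr.Defs

/-! Mass transport and a Nash inequality on amenable transitive graphs. -/

set_option linter.unusedSectionVars false

namespace Pool.Agent.P.MP_e2f79e_pr

open Finset Filter Topology

variable {V : Type*} [DecidableEq V] {G : SimpleGraph V} [G.LocallyFinite]

lemma sum_le_sum_of_ne {s t : Finset V} {f : V → ℝ} (h0 : ∀ x ∈ t, 0 ≤ f x)
    (h : ∀ x ∈ s, f x ≠ 0 → x ∈ t) : ∑ x ∈ s, f x ≤ ∑ x ∈ t, f x := by
  rw [← Finset.sum_filter_ne_zero s]
  refine Finset.sum_le_sum_of_subset_of_nonneg (fun x hx => ?_) fun x hx _ => h0 x hx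
  exact h x (Finset.mem_filter.1 hx).1 (Finset.mem_filter.1 hx).2

lemma exists_adj_dist (hc : G.Connected) {x y : V} {n : ℕ} (h : G.dist x y = n + 1) :
    ∃ x', G.Adj x x' ∧ G.dist x' y = n := by
  obtain ⟨p, hp⟩ := hc.exists_walk_length_eq_dist x y
  cases p with
  | nil => simp at h
  | cons hadj q =>
    rename_i x'
    refine ⟨x', hadj, ?_⟩
    have h1 := G.dist_le q
    have h2 := hc.dist_triangle (u := x) (v := x') (w := y)
    have h3 := SimpleGraph.dist_eq_one_iff_adj.2 hadj
    simp only [SimpleGraph.Walk.length_cons] at hp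
    omega

lemma dist_adj (hc : G.Connected) {x x' : V} (h : G.Adj x x') (y : V) :
    G.dist x y ≤ G.dist x' y + 1 := by
  have h2 := hc.dist_triangle (u := x) (v := x') (w := y)
  have h3 := SimpleGraph.dist_eq_one_iff_adj.2 h
  omega

lemma dist_iso (hc : G.Connected) (φ : G ≃g G) (x y : V) : G.dist (φ x) (φ y) = G.dist x y := by
  have key : ∀ (ψ : G ≃g G) (a b : V), G.dist (ψ a) (ψ b) ≤ G.dist a b := by
    intro ψ a b
    obtain ⟨p, hp⟩ := hc.exists_walk_length_eq_dist a b
    have := G.dist_le (p.map ψ.toHom)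
    simpa [hp] using this
  refine le_antisymm (key φ x y) ?_
  simpa using key φ.symm (φ x) (φ y)

variable (G) in
/-- Closed balls as finite sets. -/
def ballF (x : V) : ℕ → Finset V
  | 0 => {x}
  | n + 1 => ballF x n ∪ (ballF x n).biUnion (fun v => G.neighborFinset v)

lemma mem_ballF (hc : G.Connected) {x v : V} {n : ℕ} : v ∈ ballF G x n ↔ G.dist x v ≤ n := by
  induction n generalizing v with
  | zero => simp [ballF, hc.dist_eq_zero_iff, eq_comm]
  | succ n ih =>
    simp only [ballF, mem_union, mem_biUnion, ih, SimpleGraph.mem_neighborFinset]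
    constructor
    · rintro (h | ⟨u, hu, huv⟩)
      · omega
      · have := dist_adj hc huv.symm x
        rw [SimpleGraph.dist_comm (u := v), SimpleGraph.dist_comm (u := u)] at this
        omega
    · intro h
      by_cases h1 : G.dist x v ≤ n
      · exact Or.inl h1
      · obtain ⟨u, hu, h2⟩ := exists_adj_dist hc (x := v) (y := x) (n := n)
          (by rw [SimpleGraph.dist_comm]; omega)
        exact Or.inr ⟨u, by rw [SimpleGraph.dist_comm]; omega, hu.symm⟩

lemma card_ballF_le {Δ : ℕ} (hreg : G.IsRegularOfDegree Δ) (x : V) (n : ℕ) :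
    (ballF G x n).card ≤ (Δ + 1) ^ n := by
  induction n with
  | zero => simp [ballF]
  | succ n ih =>
    have h1 : ((ballF G x n).biUnion (fun v => G.neighborFinset v)).card ≤
        (ballF G x n).card * Δ :=
      Finset.card_biUnion_le_card_mul _ _ _ fun v _ => by simp [hreg.degree_eq]
    have h2 := Finset.card_union_le (ballF G x n)
      ((ballF G x n).biUnion (fun v => G.neighborFinset v))
    calc (ballF G x (n + 1)).card ≤ (ballF G x n).card * (Δ + 1) := by
          simp only [ballF]; nlinarith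
      _ ≤ (Δ + 1) ^ n * (Δ + 1) := by gcongr
      _ = _ := by ring

lemma growth_eq (hc : G.Connected) (o : V) (n : ℕ) : growth G o n = (ballF G o n).card := by
  rw [growth, ← Set.ncard_coe_finset]
  congr 1
  ext v; simp [mem_ballF hc]

lemma sum_ballF_iso (hc : G.Connected) (φ : G ≃g G) (x : V) (n : ℕ) (f : V → ℝ) :
    ∑ v ∈ ballF G (φ x) n, f v = ∑ v ∈ ballF G x n, f (φ v) := by
  symm
  refine Finset.sum_equiv φ.toEquiv (fun v => ?_) fun _ _ => rfl
  rw [mem_ballF hc, mem_ballF hc]
  exact (dist_iso hc φ x v).symm ▸ Iff.rfl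

lemma card_ballF_eq (hc : G.Connected) (ht : VertexTransitive G) (x y : V) (n : ℕ) :
    (ballF G x n).card = (ballF G y n).card := by
  obtain ⟨φ, rfl⟩ := ht x y
  have := sum_ballF_iso hc φ x n (fun _ => 1)
  simpa using this.symm

lemma exists_regular (ht : VertexTransitive G) (o : V) : G.IsRegularOfDegree (G.degree o) := by
  intro v
  obtain ⟨φ, rfl⟩ := ht o v
  exact φ.degree_eq o

lemma coe_vertexBoundary (F : Finset V) : vertexBoundary G F =
    ((F.biUnion (fun v => G.neighborFinset v) \ F : Finset V) : Set V) := by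
  ext y; simp [vertexBoundary, and_comm]

lemma exit_near (hc : G.Connected) (F : Finset V) (n : ℕ) : ∀ z ∈ F, ∀ x, G.dist z x ≤ n →
    x ∈ F ∨ ∃ b ∈ vertexBoundary G F, G.dist b x ≤ n := by
  induction n with
  | zero =>
    intro z hz x h
    have : z = x := hc.dist_eq_zero_iff.1 (by omega)
    exact Or.inl (this ▸ hz)
  | succ n ih =>
    intro z hz x h
    by_cases h1 : G.dist z x ≤ n
    · rcases ih z hz x h1 with h2 | ⟨b, hb, h2⟩
      · exact Or.inl h2
      · exact Or.inr ⟨b, hb, by omega⟩
    · obtain ⟨z', h2, h3⟩ := exists_adj_dist hc (x := z) (y := x) (n := n) (by omega)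
      by_cases h4 : z' ∈ F
      · rcases ih z' h4 x h3.le with h5 | ⟨b, hb, h5⟩
        · exact Or.inl h5
        · exact Or.inr ⟨b, hb, by omega⟩
      · exact Or.inr ⟨z', ⟨h4, z, hz, h2⟩, by omega⟩

/-- Mass transport inequality for invariant finite range functions. -/
lemma mass_transport (hc : G.Connected) (ht : VertexTransitive G) (ha : Amenable G)
    {f : V → V → ℝ} (h0 : ∀ x z, 0 ≤ f x z)
    (hinv : ∀ (φ : G ≃g G) x z, f (φ x) (φ z) = f x z) (r : ℕ) {K : ℝ}
    (hout : ∀ x, ∑ z ∈ ballF G x r, f x z ≤ K) (z : V) : ∑ x ∈ ballF G z r, f x z ≤ K := by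
  have hreg := exists_regular ht z
  set Δ := G.degree z
  set a := ∑ x ∈ ballF G z r, f x z with ha'
  have hK : 0 ≤ K := (Finset.sum_nonneg fun _ _ => h0 _ _).trans (hout z)
  have hconst : ∀ w, ∑ x ∈ ballF G w r, f x w = a := by
    intro w
    obtain ⟨φ, rfl⟩ := ht z w
    rw [sum_ballF_iso hc φ z r]
    simp only [hinv, ha']
  obtain ⟨F, hF, hlim⟩ := ha
  have key : ∀ n, a ≤ K + K * (Δ + 1) ^ r * (((vertexBoundary G (F n)).ncard : ℝ) / (F n).card) := by
    intro n
    set B : Finset V := (F n).biUnion (fun v => G.neighborFinset v) \ F n with hB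
    have hBc : (vertexBoundary G (F n)).ncard = B.card := by
      rw [coe_vertexBoundary, Set.ncard_coe_finset]
    set N : Finset V := F n ∪ B.biUnion (fun b => ballF G b r) with hN
    have hNc : (N.card : ℝ) ≤ (F n).card + B.card * (Δ + 1) ^ r := by
      have h1 : (B.biUnion (fun b => ballF G b r)).card ≤ B.card * (Δ + 1) ^ r :=
        Finset.card_biUnion_le_card_mul _ _ _ fun b _ => card_ballF_le hreg b r
      have h2 := Finset.card_union_le (F n) (B.biUnion (fun b => ballF G b r))
      exact_mod_cast h2.trans (Nat.add_le_add_left h1 _)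
    have h1 : ((F n).card : ℝ) * a ≤ N.card * K := by
      calc ((F n).card : ℝ) * a = ∑ w ∈ F n, ∑ x ∈ ballF G w r, f x w := by
            simp [hconst]
        _ = ∑ w ∈ F n, ∑ x ∈ N, if G.dist x w ≤ r then f x w else 0 := by
            refine Finset.sum_congr rfl fun w hw => ?_
            rw [← Finset.sum_filter]
            refine Finset.sum_congr ?_ fun _ _ => rfl
            ext x
            simp only [mem_ballF hc, Finset.mem_filter, SimpleGraph.dist_comm (u := x)]
            refine ⟨fun h => ⟨?_, h⟩, fun h => h.2⟩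
            rcases exit_near hc (F n) r w hw x h with h2 | ⟨b, hb, h2⟩
            · exact Finset.mem_union_left _ h2
            · refine Finset.mem_union_right _ (Finset.mem_biUnion.2 ⟨b, ?_, (mem_ballF hc).2 h2⟩)
              rw [coe_vertexBoundary] at hb
              exact_mod_cast hb
        _ = ∑ x ∈ N, ∑ w ∈ F n, if G.dist x w ≤ r then f x w else 0 := Finset.sum_comm
        _ ≤ ∑ x ∈ N, K := by
            refine Finset.sum_le_sum fun x _ => le_trans ?_ (hout x)
            rw [← Finset.sum_filter]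
            refine Finset.sum_le_sum_of_subset_of_nonneg (fun w hw => ?_) fun _ _ _ => h0 _ _
            exact (mem_ballF hc).2 (Finset.mem_filter.1 hw).2
        _ = N.card * K := by simp
    have hpos : (0 : ℝ) < (F n).card := by exact_mod_cast (hF n).card_pos
    rw [hBc]
    have h2 : ((F n).card : ℝ) * a ≤ ((F n).card + B.card * (Δ + 1) ^ r) * K :=
      h1.trans (mul_le_mul_of_nonneg_right hNc hK)
    have h3 : K + K * (Δ + 1) ^ r * ((B.card : ℝ) / (F n).card) =
        (((F n).card + B.card * (Δ + 1) ^ r) * K) / (F n).card := by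
      field_simp
    rw [h3, le_div_iff₀ hpos]
    linarith
  have hl : Tendsto (fun n => K + K * (Δ + 1) ^ r *
      (((vertexBoundary G (F n)).ncard : ℝ) / (F n).card)) atTop (𝓝 (K + K * (Δ + 1) ^ r * 0)) :=
    (hlim.const_mul _).const_add _
  simpa using ge_of_tendsto' hl key

variable (G) in
/-- Neighbours of `x` closer to `y`. -/
noncomputable def closer (x y : V) : Finset V :=
  (G.neighborFinset x).filter fun x' => G.dist x' y + 1 = G.dist x y

variable (G) in
/-- Expected number of visits to `z` of a random geodesic from `x` to `y`. -/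
noncomputable def pw : ℕ → V → V → V → ℝ
  | 0, _, _, _ => 0
  | n + 1, x, y, z => (if z = x then 1 else 0) +
      (∑ x' ∈ closer G x y, pw n x' y z) / (closer G x y).card

lemma pw_nonneg (n : ℕ) : ∀ x y z : V, 0 ≤ pw G n x y z := by
  induction n with
  | zero => intro x y z; simp [pw]
  | succ n ih =>
    intro x y z
    simp only [pw]
    have := Finset.sum_nonneg (s := closer G x y) fun x' _ => ih x' y z
    split_ifs <;> positivity

lemma pw_sum_le (n : ℕ) : ∀ (x y : V) (S : Finset V), ∑ z ∈ S, pw G n x y z ≤ n := by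
  induction n with
  | zero => intro x y S; simp [pw]
  | succ n ih =>
    intro x y S
    simp only [pw, Finset.sum_add_distrib, ← Finset.sum_div]
    rw [Finset.sum_comm]
    have h1 : ∑ z ∈ S, (if z = x then (1 : ℝ) else 0) ≤ 1 := by
      rw [Finset.sum_ite_eq']; split_ifs <;> norm_num
    have h2 : (∑ x' ∈ closer G x y, ∑ z ∈ S, pw G n x' y z) / (closer G x y).card ≤ n := by
      refine div_le_of_le_mul₀ (by positivity) (by positivity) ?_
      calc _ ≤ ∑ x' ∈ closer G x y, (n : ℝ) := Finset.sum_le_sum fun x' _ => ih x' y S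
        _ = _ := by simp [mul_comm]
    push_cast; linarith

lemma pw_iso (hc : G.Connected) (φ : G ≃g G) (n : ℕ) :
    ∀ x y z : V, pw G n (φ x) (φ y) (φ z) = pw G n x y z := by
  induction n with
  | zero => intro x y z; simp [pw]
  | succ n ih =>
    intro x y z
    have hcl : ∀ f : V → ℝ, ∑ v ∈ closer G (φ x) (φ y), f v = ∑ v ∈ closer G x y, f (φ v) := by
      intro f
      symm
      refine Finset.sum_equiv φ.toEquiv (fun v => ?_) fun _ _ => rfl
      simp only [closer, Finset.mem_filter, SimpleGraph.mem_neighborFinset]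
      have h1 : G.Adj (φ x) (φ v) ↔ G.Adj x v := φ.map_adj_iff
      have h2 := dist_iso hc φ v y
      have h3 := dist_iso hc φ x y
      change _ ↔ G.Adj (φ x) (φ v) ∧ G.dist (φ v) (φ y) + 1 = G.dist (φ x) (φ y)
      rw [h1, h2, h3]
    have hcard : ((closer G (φ x) (φ y)).card : ℝ) = (closer G x y).card := by
      simpa using hcl (fun _ => 1)
    simp only [pw, hcl, ih, hcard, φ.injective.eq_iff]

variable (G) in
/-- Local energy. -/
def En (f : V → ℝ) (z : V) : ℝ := ∑ z' ∈ G.neighborFinset z, (f z - f z') ^ 2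

lemma En_nonneg (f : V → ℝ) (z : V) : 0 ≤ En G f z := Finset.sum_nonneg fun _ _ => sq_nonneg _

lemma pw_bound (hc : G.Connected) (f : V → ℝ) (y : V) (S : Finset V) (n : ℕ) :
    ∀ x, G.dist x y = n → ballF G x n ⊆ S →
      (f x - f y) ^ 2 ≤ n * ∑ z ∈ S, pw G n x y z * En G f z := by
  induction n with
  | zero =>
    intro x h _
    simp [hc.dist_eq_zero_iff.1 h]
  | succ n ih =>
    intro x h hS
    have hne : (closer G x y).Nonempty := by
      obtain ⟨x', h1, h2⟩ := exists_adj_dist hc h
      exact ⟨x', by simp [closer, h1, h2, h]⟩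
    have hpos : (0 : ℝ) < (closer G x y).card := by exact_mod_cast hne.card_pos
    have hx : x ∈ S := hS ((mem_ballF hc).2 (by simp))
    have e1 : ∑ z ∈ S, pw G (n + 1) x y z * En G f z = En G f x +
        (∑ x' ∈ closer G x y, ∑ z ∈ S, pw G n x' y z * En G f z) / (closer G x y).card := by
      simp only [pw, add_mul, Finset.sum_add_distrib, ite_mul, one_mul, zero_mul,
        Finset.sum_ite_eq', hx, if_true, div_mul_eq_mul_div, ← Finset.sum_div, Finset.sum_mul]
      rw [Finset.sum_comm]
    have h2 : ∀ x' ∈ closer G x y, (f x - f y) ^ 2 ≤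
        (n + 1) * (En G f x + ∑ z ∈ S, pw G n x' y z * En G f z) := by
      intro x' hx'
      simp only [closer, Finset.mem_filter, SimpleGraph.mem_neighborFinset] at hx'
      have h3 := ih x' (by omega) (fun v hv => hS (by
        rw [mem_ballF hc] at hv ⊢
        have := dist_adj hc hx'.1 v
        omega))
      have h4 : (f x - f x') ^ 2 ≤ En G f x :=
        Finset.single_le_sum (f := fun z' => (f x - f z') ^ 2) (fun _ _ => sq_nonneg _)
          ((G.mem_neighborFinset _ _).2 hx'.1)
      set B := ∑ z ∈ S, pw G n x' y z * En G f z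
      have hB : 0 ≤ B := Finset.sum_nonneg fun z _ => mul_nonneg (pw_nonneg _ _ _ _) (En_nonneg _ _)
      set a := f x - f x'
      set b := f x' - f y
      have e : f x - f y = a + b := by simp [a, b]
      rw [e]
      rcases Nat.eq_zero_or_pos n with rfl | hn
      · have : b = 0 := by simpa using h3
        simp only [this]; push_cast; linarith
      · have hn' : (0 : ℝ) < n := by exact_mod_cast hn
        have h5 : 2 * a * b ≤ n * a ^ 2 + B := by
          have : 0 ≤ (n * a - b) ^ 2 := sq_nonneg _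
          have h6 : (n : ℝ) * (2 * a * b) ≤ n * (n * a ^ 2 + B) := by nlinarith
          exact le_of_mul_le_mul_left h6 hn'
        nlinarith
    have h3 := Finset.sum_le_sum h2
    rw [Finset.sum_const, ← Finset.mul_sum, Finset.sum_add_distrib, Finset.sum_const,
      nsmul_eq_mul, nsmul_eq_mul] at h3
    rw [e1]
    push_cast
    have h4 : (n + 1 : ℝ) * (En G f x +
        (∑ x' ∈ closer G x y, ∑ z ∈ S, pw G n x' y z * En G f z) / (closer G x y).card) =
        ((n + 1) * ((closer G x y).card * En G f x +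
          ∑ x' ∈ closer G x y, ∑ z ∈ S, pw G n x' y z * En G f z)) / (closer G x y).card := by
      field_simp
    rw [h4, le_div_iff₀ hpos]
    linarith

/-- A Nash type inequality. -/
theorem nash (hc : G.Connected) (ht : VertexTransitive G) (ha : Amenable G) (o : V)
    (f : V → ℝ) (A B : Finset V) (hA : ∀ x, x ∉ A → f x = 0) (hB : ∀ z, z ∉ B → En G f z = 0)
    (r : ℕ) : ∑ x ∈ A, f x ^ 2 ≤
      r ^ 2 * ∑ z ∈ B, En G f z + 2 * (∑ x ∈ A, |f x|) ^ 2 / growth G o r := by
  set g : ℝ := (growth G o r : ℝ) with hg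
  have hgx : ∀ x, ((ballF G x r).card : ℝ) = g := by
    intro x; rw [hg, growth_eq hc, card_ballF_eq hc ht x o]
  have hg0 : 0 < g := by
    rw [← hgx o]
    exact_mod_cast Finset.card_pos.2 ⟨o, (mem_ballF hc).2 (by simp)⟩
  let F : V → V → ℝ := fun x z => ∑ y ∈ ballF G x r, pw G (G.dist x y) x y z
  have hF0 : ∀ x z, 0 ≤ F x z := fun x z => Finset.sum_nonneg fun _ _ => pw_nonneg _ _ _ _
  have hin : ∀ z, ∑ x ∈ ballF G z r, F x z ≤ r * g := by
    refine mass_transport hc ht ha hF0 (fun φ x z => ?_) r fun x => ?_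
    · simp only [F]
      rw [sum_ballF_iso hc φ x r]
      simp only [dist_iso hc, pw_iso hc]
    · simp only [F]
      rw [Finset.sum_comm]
      calc _ ≤ ∑ y ∈ ballF G x r, (r : ℝ) := by
            refine Finset.sum_le_sum fun y hy => (pw_sum_le _ _ _ _).trans ?_
            exact_mod_cast (mem_ballF hc).1 hy
        _ = _ := by simp [hgx, mul_comm]
  let fr : V → ℝ := fun x => (∑ y ∈ ballF G x r, f y) / g
  have h1 : ∀ x, (f x - fr x) ^ 2 ≤ r / g * ∑ z ∈ ballF G x r, F x z * En G f z := by
    intro x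
    have e1 : f x - fr x = (∑ y ∈ ballF G x r, (f x - f y)) / g := by
      simp only [fr, Finset.sum_sub_distrib, Finset.sum_const, nsmul_eq_mul, hgx]
      field_simp
    have e2 := sq_sum_le_card_mul_sum_sq (s := ballF G x r) (f := fun y => f x - f y)
    rw [hgx] at e2
    have e3 : ∑ y ∈ ballF G x r, (f x - f y) ^ 2 ≤ r * ∑ z ∈ ballF G x r, F x z * En G f z := by
      simp only [F, Finset.sum_mul]
      rw [Finset.sum_comm, Finset.mul_sum]
      refine Finset.sum_le_sum fun y hy => ?_
      have hy' := (mem_ballF hc).1 hy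
      refine (pw_bound hc f y (ballF G x r) _ x rfl fun v hv => ?_).trans ?_
      · rw [mem_ballF hc] at hv ⊢; omega
      · refine mul_le_mul_of_nonneg_right (by exact_mod_cast hy') ?_
        exact Finset.sum_nonneg fun z _ => mul_nonneg (pw_nonneg _ _ _ _) (En_nonneg _ _)
    rw [e1, div_pow, div_le_iff₀ (by positivity)]
    calc _ ≤ g * (r * ∑ z ∈ ballF G x r, F x z * En G f z) := e2.trans (by gcongr)
      _ = _ := by field_simp
  have h2 : ∑ x ∈ A, ∑ z ∈ ballF G x r, F x z * En G f z ≤ r * g * ∑ z ∈ B, En G f z := by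
    calc ∑ x ∈ A, ∑ z ∈ ballF G x r, F x z * En G f z
        ≤ ∑ x ∈ A, ∑ z ∈ B, if G.dist x z ≤ r then F x z * En G f z else 0 := by
          refine Finset.sum_le_sum fun x _ => ?_
          rw [← Finset.sum_filter]
          refine sum_le_sum_of_ne (fun z _ => mul_nonneg (hF0 _ _) (En_nonneg _ _))
            fun z hz hne => ?_
          refine Finset.mem_filter.2 ⟨?_, (mem_ballF hc).1 hz⟩
          by_contra h; exact hne (by rw [hB z h, mul_zero])
      _ = ∑ z ∈ B, ∑ x ∈ A, if G.dist x z ≤ r then F x z * En G f z else 0 := Finset.sum_comm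
      _ ≤ ∑ z ∈ B, r * g * En G f z := by
          refine Finset.sum_le_sum fun z _ => ?_
          rw [← Finset.sum_filter, ← Finset.sum_mul]
          refine mul_le_mul_of_nonneg_right (le_trans ?_ (hin z)) (En_nonneg _ _)
          refine Finset.sum_le_sum_of_subset_of_nonneg (fun x hx => ?_) fun _ _ _ => hF0 _ _
          rw [mem_ballF hc, SimpleGraph.dist_comm]
          exact (Finset.mem_filter.1 hx).2
      _ = _ := by rw [Finset.mul_sum]
  have h3 : ∑ x ∈ A, (f x - fr x) ^ 2 ≤ r ^ 2 * ∑ z ∈ B, En G f z := by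
    refine (Finset.sum_le_sum fun x _ => h1 x).trans ?_
    rw [← Finset.mul_sum]
    calc _ ≤ r / g * (r * g * ∑ z ∈ B, En G f z) := by gcongr
      _ = _ := by field_simp
  have h4 : ∀ x, |fr x| ≤ (∑ x ∈ A, |f x|) / g := by
    intro x
    simp only [fr]
    rw [abs_div, abs_of_pos hg0]
    gcongr
    refine (Finset.abs_sum_le_sum_abs _ _).trans
      (sum_le_sum_of_ne (fun _ _ => abs_nonneg _) fun y _ hy => ?_)
    by_contra h; exact hy (by rw [hA y h, abs_zero])
  have h5 : ∀ x, f x ^ 2 ≤ (f x - fr x) ^ 2 + 2 * (|f x| * ((∑ x ∈ A, |f x|) / g)) := by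
    intro x
    have e1 : f x * fr x ≤ |f x| * |fr x| := by rw [← abs_mul]; exact le_abs_self _
    have e2 := mul_le_mul_of_nonneg_left (h4 x) (abs_nonneg (f x))
    nlinarith [sq_nonneg (fr x)]
  have h6 := Finset.sum_le_sum fun x (_ : x ∈ A) => h5 x
  rw [Finset.sum_add_distrib, ← Finset.mul_sum, ← Finset.sum_mul] at h6
  have e : 2 * (∑ x ∈ A, |f x|) ^ 2 / g = 2 * ((∑ x ∈ A, |f x|) * ((∑ x ∈ A, |f x|) / g)) := by
    field_simp
  linarith

end Pool.Agent.P.MP_e2f79e_pr
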