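import Pool.Agent.P.MP_e2f79e_pr.Site
import Pool.Agent.P.MP_e2f79e_pr.Nash

/-! Selecting one vertex in every block. -/

set_option linter.unusedSectionVars false

namespace Pool.Agent.P.MP_e2f79e_pr

open Finset Real

lemma select {ι σ α : Type*} [Fintype ι] [DecidableEq ι] [Fintype σ] [DecidableEq σ] [Fintype α]
    {μ : ι → α → ℝ} (hμ : IsP μ) (sel : α → σ) (out : (ι → σ) → ι → α → ι → Bool)
    (T : (ι → σ) → Finset ι) (a0 : ι) (s0 : σ)
    (h : ∀ yy : ι → σ, ∃ I : ι × ι → ℝ, (∀ e, 0 ≤ I e) ∧ 1 / 2 ≤ Phi a0 (T yy) I ∧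
      ∀ x (S : Finset ι), x ∉ S →
        ∑ o, μ x o * ind (sel o = yy x ∧ ∀ z ∈ S, out yy x o z = false) ≤
          (∑ o, μ x o * ind (sel o = yy x)) * exp (-∑ z ∈ S, I (x, z))) :
    (∑ o, μ a0 o * ind (sel o = s0)) / 2 ≤ Ex μ (fun ω => ind (sel (ω a0) = s0 ∧
      conn a0 (T fun x => sel (ω x)) (fun e => out (fun x => sel (ω x)) e.1 (ω e.1) e.2))) := by
  classical
  set pw : ι → σ → ℝ := fun x i => ∑ o, μ x o * ind (sel o = i) with hpw
  set κ : ι → σ → α → ℝ := fun x i o => μ x o * ind (sel o = i) / pw x i with hκ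
  have hterm : ∀ x i o, 0 ≤ μ x o * ind (sel o = i) :=
    fun x i o => mul_nonneg (hμ.nonneg x o) (ind_nonneg _)
  have hpw0 : ∀ x i, 0 ≤ pw x i := fun x i => Finset.sum_nonneg fun o _ => hterm x i o
  have hpwP : IsP pw := by
    refine ⟨hpw0, fun x => ?_⟩
    rw [Finset.sum_comm, ← hμ.sum_one x]
    refine Finset.sum_congr rfl fun o _ => ?_
    rw [← Finset.mul_sum, Finset.sum_eq_single (sel o)]
    · simp [ind_pos]
    · exact fun i _ hi => ind_neg hi.symm
    · simp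
  set F : (ι → σ × α) → ℝ := fun z => ind ((z a0).1 = s0 ∧
    conn a0 (T fun x => (z x).1) (fun e => out (fun x => (z x).1) e.1 (z e.1).2 e.2)) with hF
  have h1 := Ex_map μ (fun _ o => (sel o, o)) F
  have h2 : (fun (x : ι) (b : σ × α) => ∑ a with (sel a, a) = b, μ x a) =
      fun x b => pw x b.1 * κ x b.1 b.2 := by
    funext x b
    obtain ⟨i, o⟩ := b
    have e1 : ∑ a with (sel a, a) = (i, o), μ x a = μ x o * ind (sel o = i) := by
      rw [Finset.sum_filter, Finset.sum_eq_single o]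
      · by_cases hi : sel o = i <;> simp [hi, ind_pos, ind_neg]
      · intro a _ ha; simp [ha]
      · simp
    rw [e1]
    by_cases h0 : pw x i = 0
    · rw [h0, zero_mul]
      exact (Finset.sum_eq_zero_iff_of_nonneg fun o _ => hterm x i o).1 h0 o (mem_univ _)
    · simp only [hκ]; field_simp
  rw [h2, Ex_pair] at h1
  refine le_trans ?_ h1.ge
  have h3 : pw a0 s0 / 2 = Ex pw (fun yy => 1 / 2 * ind (yy a0 = s0)) := by
    rw [Ex_mul_left, Ex_eval hpwP a0 (fun i => ind (i = s0)), Finset.sum_eq_single s0]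
    · simp [ind_pos]; ring
    · intro i _ hi; simp [ind_neg hi]
    · simp
  refine h3.le.trans (Ex_mono' hpw0 fun yy hyy => ?_)
  have hκP : IsP fun x => κ x (yy x) := by
    refine ⟨fun x o => div_nonneg (hterm _ _ _) (hpw0 _ _), fun x => ?_⟩
    simp only [hκ, ← Finset.sum_div]
    exact div_self (hyy x)
  by_cases h0 : yy a0 = s0
  swap
  · rw [ind_neg h0, mul_zero]
    exact Ex_nonneg hκP fun _ => ind_nonneg _
  obtain ⟨I, hI, hPhi, hav⟩ := h yy
  simp only [hF, h0, true_and, ind_pos, mul_one]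
  refine hPhi.trans ?_
  have h4 := Ex_map (fun x => κ x (yy x)) (fun x o => out yy x o)
    (fun ω => ind (conn a0 (T yy) fun e => ω e.1 e.2))
  refine le_trans ?_ h4.ge
  have hsum : ∀ (x : ι) (f : (ι → Bool) → ℝ),
      ∑ a, (∑ o with out yy x o = a, κ x (yy x) o) * f a = ∑ o, κ x (yy x) o * f (out yy x o) := by
    intro x f
    simp only [Finset.sum_mul]
    rw [← Finset.sum_fiberwise (s := univ) (g := fun o => out yy x o)]
    refine Finset.sum_congr rfl fun a _ => Finset.sum_congr rfl fun o ho => ?_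
    rw [(Finset.mem_filter.1 ho).2]
  refine Phi_le_site_model hI ⟨fun x a => Finset.sum_nonneg fun o _ => hκP.nonneg x o,
    fun x => ?_⟩ fun x S hx => ?_
  · simpa [hκP.sum_one] using hsum x fun _ => 1
  · rw [hsum x fun a => ind (∀ z ∈ S, a z = false)]
    have h5 := hav x S hx
    have h6 : 0 < pw x (yy x) := lt_of_le_of_ne (hpw0 _ _) (hyy x).symm
    have h7 : ∀ o, κ x (yy x) o * ind (∀ z ∈ S, out yy x o z = false) =
        μ x o * ind (sel o = yy x ∧ ∀ z ∈ S, out yy x o z = false) / pw x (yy x) := by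
      intro o; simp only [hκ, ind_and]; ring
    simp only [h7, ← Finset.sum_div]
    rw [div_le_iff₀ h6, mul_comm]
    exact h5

/-- The first index carrying a mark, or `0` when there is none. -/
def first {b : ℕ} {γ : Type*} (o : Fin (b + 1) → Bool × γ) : Fin (b + 1) :=
  if h : ∃ i, (o i).1 = true then Fin.find _ h else 0

lemma first_of {b : ℕ} {γ : Type*} {o : Fin (b + 1) → Bool × γ} {i : Fin (b + 1)}
    (h : (o i).1 = true) (h' : ∀ j < i, (o j).1 = false) : first o = i := by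
  rw [first, dif_pos ⟨i, h⟩, Fin.find_eq_iff]
  exact ⟨h, fun j hj => by simp [h' j hj]⟩

lemma first_cases {b : ℕ} {γ : Type*} {o : Fin (b + 1) → Bool × γ} {i : Fin (b + 1)}
    (h : first o = i) : ((o i).1 = true ∧ ∀ j < i, (o j).1 = false) ∨
      (i = 0 ∧ ∀ j, (o j).1 = false) := by
  unfold first at h
  split_ifs at h with h1
  · rw [Fin.find_eq_iff] at h
    exact Or.inl ⟨h.1, fun j hj => by simpa using h.2 j hj⟩
  · exact Or.inr ⟨h.symm, fun j => by simpa using fun hj => h1 ⟨j, hj⟩⟩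

lemma block {b : ℕ} {γ : Type*} [Fintype γ] {μ : Fin (b + 1) → Bool × γ → ℝ} (hμ : IsP μ)
    {ρ : ℝ} (hρ : ∀ j, ∑ a, μ j a * ind (a.1 = true) = ρ) (i : Fin (b + 1)) :
    ∃ Q : ℝ, 0 ≤ Q ∧ (i = 0 → Q = 1) ∧ ∀ q : γ → Prop,
      Q * ∑ a, μ i a * ind (a.1 = true ∧ q a.2) ≤ Ex μ (fun o => ind (first o = i ∧ q (o i).2)) ∧
      Ex μ (fun o => ind (first o = i ∧ q (o i).2)) ≤ Q * ∑ a, μ i a * ind (a.1 = true ∧ q a.2) +
        ind (i = 0) * (1 - ρ) ^ (b + 1) ∧
      Ex μ (fun o => ind (first o = i)) = Q * ρ + ind (i = 0) * (1 - ρ) ^ (b + 1) := by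
  refine ⟨∏ j ∈ univ.erase i, ∑ a, μ j a * ind (j < i → a.1 = false), ?_, ?_, ?_⟩
  · exact Finset.prod_nonneg fun j _ => Finset.sum_nonneg fun a _ =>
      mul_nonneg (hμ.nonneg _ _) (ind_nonneg _)
  · rintro rfl
    exact Finset.prod_eq_one fun j _ => by simp [ind_pos, hμ.sum_one]
  have hmain : ∀ q : γ → Prop, Ex μ (fun o => ind (((o i).1 = true ∧ q (o i).2) ∧
      ∀ j < i, (o j).1 = false)) =
      (∏ j ∈ univ.erase i, ∑ a, μ j a * ind (j < i → a.1 = false)) *
        ∑ a, μ i a * ind (a.1 = true ∧ q a.2) := by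
    intro q
    have h1 := Ex_ind_forall hμ univ
      (fun j a => (j < i → a.1 = false) ∧ (j = i → a.1 = true ∧ q a.2))
    rw [← Finset.prod_erase_mul _ _ (mem_univ i)] at h1
    convert h1 using 2
    · funext o
      refine ind_congr ⟨fun h j _ => ⟨h.2 j, by rintro rfl; exact h.1⟩, fun h => ?_⟩
      exact ⟨(h i (mem_univ _)).2 rfl, fun j => (h j (mem_univ _)).1⟩
    · refine Finset.prod_congr rfl fun j hj => ?_
      simp [(Finset.mem_erase.1 hj).1]
    · simp
  have hnone : Ex μ (fun o => ind (∀ j, (o j).1 = false)) = (1 - ρ) ^ (b + 1) := by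
    have h1 := Ex_ind_forall hμ univ (fun _ a => a.1 = false)
    have h2 : ∀ j, ∑ a, μ j a * ind (a.1 = false) = 1 - ρ := by
      intro j
      rw [← hρ j, ← hμ.sum_one j, ← Finset.sum_sub_distrib]
      refine Finset.sum_congr rfl fun a _ => ?_
      cases a.1 <;> simp [ind_pos, ind_neg]
    simpa [h2] using h1
  intro q
  refine ⟨?_, ?_, ?_⟩
  · rw [← hmain]
    exact Ex_mono hμ fun o => ind_mono fun h => ⟨first_of h.1.1 h.2, h.1.2⟩
  · rw [← hmain, ← hnone, ← Ex_mul_left, ← Ex_add]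
    refine Ex_mono hμ fun o => ?_
    rw [← ind_and]
    by_cases h : first o = i ∧ q (o i).2
    · rw [ind_pos h]
      rcases first_cases h.1 with h1 | h1
      · rw [ind_pos ⟨⟨h1.1, h.2⟩, h1.2⟩]; exact le_add_of_nonneg_right (ind_nonneg _)
      · rw [ind_pos h1]; exact le_add_of_nonneg_left (ind_nonneg _)
    · rw [ind_neg h]; exact add_nonneg (ind_nonneg _) (ind_nonneg _)
  · have h1 := hmain fun _ => True
    simp only [and_true, hρ] at h1
    rw [← h1, ← hnone, ← Ex_mul_left, ← Ex_add]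
    congr 1
    funext o
    rw [← ind_and]
    by_cases h : first o = i
    · rw [ind_pos h]
      rcases first_cases h with h2 | h2
      · rw [ind_pos h2, ind_neg (fun h3 => by simpa [h2.1] using h3.2 i), add_zero]
      · rw [ind_pos h2, ind_neg (fun h3 => by simpa [h2.2 i] using h3.1), zero_add]
    · rw [ind_neg h, ind_neg (fun h2 => h (first_of h2.1 h2.2)), ind_neg, add_zero]
      rintro ⟨rfl, h2⟩
      exact h (by rw [first, dif_neg (by simp [h2])])

lemma block_avoid {b : ℕ} {γ : Type*} [Fintype γ] {μ : Fin (b + 1) → Bool × γ → ℝ} (hμ : IsP μ)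
    {ρ : ℝ} (hρ : ∀ j, ∑ a, μ j a * ind (a.1 = true) = ρ)
    (hb : (1 - ρ) ^ (b + 1) ≤ ρ * exp (-197)) (i : Fin (b + 1)) (q : γ → Prop) {H : ℝ}
    (hH0 : 0 ≤ H) (hH1 : H ≤ 1)
    (hq : ∑ a, μ i a * ind (a.1 = true ∧ q a.2) ≤ ρ * exp (-(394 * H))) :
    Ex μ (fun o => ind (first o = i ∧ q (o i).2)) ≤
      Ex μ (fun o => ind (first o = i)) * exp (-(197 * H)) := by
  obtain ⟨Q, hQ0, hQ1, h⟩ := block hμ hρ i
  obtain ⟨-, h2, h3⟩ := h q
  have hρ0 : 0 ≤ ρ := hρ i ▸ Finset.sum_nonneg fun a _ =>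
    mul_nonneg (hμ.nonneg _ _) (ind_nonneg _)
  rw [h3]
  set u := exp (-(197 * H)) with hu
  have hu1 : u ≤ 1 := exp_le_one_iff.2 (by linarith)
  have hu2 : exp (-197) ≤ u := exp_le_exp.2 (by linarith)
  have hu3 : exp (-(394 * H)) = u * u := by rw [hu, ← exp_add]; ring_nf
  have hu0 : 0 ≤ u := (exp_pos _).le
  rw [hu3] at hq
  have h4 := mul_le_mul_of_nonneg_left hq hQ0
  refine h2.trans ?_
  by_cases hi : i = 0
  · rw [hQ1 hi] at h4 ⊢
    rw [ind_pos hi]
    have h5 : (1 - ρ) ^ (b + 1) ≤ ρ * u := hb.trans (by gcongr)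
    nlinarith [mul_le_mul_of_nonneg_right h5 (sub_nonneg.2 hu1)]
  · rw [ind_neg hi]
    nlinarith [mul_nonneg (mul_nonneg (mul_nonneg hQ0 hρ0) hu0) (sub_nonneg.2 hu1)]

lemma block_zero {b : ℕ} {γ : Type*} [Fintype γ] {μ : Fin (b + 1) → Bool × γ → ℝ} (hμ : IsP μ)
    {ρ : ℝ} (hρ : ∀ j, ∑ a, μ j a * ind (a.1 = true) = ρ) :
    ρ ≤ Ex μ (fun o => ind (first o = 0)) := by
  obtain ⟨Q, -, hQ1, h⟩ := block hμ hρ 0
  have := (h fun _ => True).1
  simpa [hQ1 rfl, hρ] using this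

variable {V : Type*} [DecidableEq V] {G : SimpleGraph V} [G.LocallyFinite]

lemma exists_blocks (hc : G.Connected) {b r : ℕ} (hr : ∀ z, b + 1 ≤ (ballF G z r).card) (o : V)
    (ρ : ℕ) : ∃ (N : ℕ) (a0 : Fin N) (e : Fin N × Fin (b + 1) → V), Function.Injective e ∧
      e (a0, 0) = o ∧ ∀ v, G.dist o v ≤ ρ → ∃ a, ∀ i, G.dist v (e (a, i)) ≤ 3 * r := by
  classical
  have hf : ∀ z, ∃ f : Fin (b + 1) → V, Function.Injective f ∧ f 0 = z ∧
      ∀ i, G.dist z (f i) ≤ r := by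
    intro z
    obtain ⟨u, hu1, hu2, hu3⟩ := Finset.exists_subsuperset_card_eq (s := {z}) (n := b + 1)
      (t := ballF G z r) (by simp [mem_ballF hc]) (by simp) (hr z)
    let g : Fin (b + 1) ≃ u := (Finset.equivFinOfCardEq hu3).symm
    let z' : u := ⟨z, hu1 (by simp)⟩
    refine ⟨fun i => g (Equiv.swap 0 (g.symm z') i), ?_, by simp [z'], fun i => ?_⟩
    · exact Subtype.val_injective.comp (g.injective.comp (Equiv.injective _))
    · exact (mem_ballF hc).1 (hu2 (g _).2)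
  choose f hf1 hf2 hf3 using hf
  obtain ⟨Z, hZ, hmax⟩ := Finset.exists_max_image ((ballF G o ρ).powerset.filter fun Z =>
    o ∈ Z ∧ ∀ x ∈ Z, ∀ y ∈ Z, x ≠ y → 2 * r < G.dist x y) Finset.card
    ⟨{o}, by simp [mem_ballF hc]⟩
  simp only [mem_filter, mem_powerset] at hZ hmax
  obtain ⟨hZ1, hZ2, hZ3⟩ := hZ
  refine ⟨Z.card, Z.equivFin ⟨o, hZ2⟩, fun p => f (Z.equivFin.symm p.1) p.2, ?_, by simp [hf2], ?_⟩
  · rintro ⟨a, i⟩ ⟨a', i'⟩ h
    simp only at h
    have h1 : (Z.equivFin.symm a : V) = Z.equivFin.symm a' := by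
      by_contra hne
      have h2 := hZ3 _ (Z.equivFin.symm a).2 _ (Z.equivFin.symm a').2 hne
      have h3 := hf3 (Z.equivFin.symm a) i
      have h4 := hf3 (Z.equivFin.symm a') i'
      rw [← h, SimpleGraph.dist_comm] at h4
      have h5 := hc.dist_triangle (u := (Z.equivFin.symm a : V))
        (v := f (Z.equivFin.symm a) i) (w := (Z.equivFin.symm a' : V))
      omega
    obtain rfl : a = a' := Z.equivFin.symm.injective (Subtype.ext h1)
    rw [hf1 _ h]
  · intro v hv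
    have h1 : ∃ z ∈ Z, G.dist v z ≤ 2 * r := by
      by_contra hne
      push Not at hne
      have hvZ : v ∉ Z := fun h => by simpa using hne v h
      have := hmax (insert v Z) ⟨Finset.insert_subset ((mem_ballF hc).2 hv) hZ1,
        mem_insert_of_mem hZ2, ?_⟩
      · rw [Finset.card_insert_of_notMem hvZ] at this; omega
      · intro x hx y hy hxy
        rcases mem_insert.1 hx with hx1 | hx1 <;> rcases mem_insert.1 hy with hy1 | hy1
        · exact absurd (hx1.trans hy1.symm) hxy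
        · rw [hx1]; exact hne y hy1
        · rw [SimpleGraph.dist_comm, hy1]; exact hne x hx1
        · exact hZ3 x hx1 y hy1 hxy
    obtain ⟨z, hz, hvz⟩ := h1
    refine ⟨Z.equivFin ⟨z, hz⟩, fun i => ?_⟩
    have h3 := hf3 z i
    have h5 := hc.dist_triangle (u := v) (v := z) (w := f z i)
    simp only [Equiv.symm_apply_apply]
    omega

end Pool.Agent.P.MP_e2f79e_pr
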