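import Pool.Agent.P.MP_e2f79e_pr.Trace

/-! Probability estimates for one particle and for one vertex. -/

set_option linter.unusedSectionVars false

namespace Pool.Agent.P.MP_e2f79e_pr

open MeasureTheory ProbabilityTheory Filter Topology Finset
open scoped NNReal ENNReal

/-- Putting one more term in front of a sequence. -/
def consSeq {Y : Type*} (p : Y × (ℕ → Y)) : ℕ → Y
  | 0 => p.1
  | n + 1 => p.2 n

lemma measurable_consSeq {Y : Type*} [MeasurableSpace Y] :
    Measurable (consSeq : Y × (ℕ → Y) → ℕ → Y) := by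
  refine measurable_pi_iff.2 fun n => ?_
  cases n with
  | zero => exact measurable_fst
  | succ n => exact (measurable_pi_apply n).comp measurable_snd

lemma map_consSeq {Y : Type*} [MeasurableSpace Y] (ν : Measure Y) [IsProbabilityMeasure ν] :
    (ν.prod (Measure.infinitePi fun _ : ℕ => ν)).map consSeq =
      Measure.infinitePi fun _ : ℕ => ν := by
  refine Measure.eq_infinitePi _ fun s t ht => ?_
  rw [Measure.map_apply measurable_consSeq (.pi s.countable_toSet fun _ _ => ht _)]
  have h1 : consSeq ⁻¹' ((s : Set ℕ).pi t) = (if 0 ∈ s then t 0 else Set.univ) ×ˢ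
      ((s.preimage Nat.succ Nat.succ_injective.injOn : Set ℕ).pi fun i => t (i + 1)) := by
    ext p
    simp only [Set.mem_preimage, Set.mem_pi, mem_coe, Set.mem_prod, mem_preimage]
    constructor
    · intro h
      refine ⟨?_, fun i hi => h (i + 1) hi⟩
      split_ifs with h0
      · exact h 0 h0
      · trivial
    · rintro ⟨h0, h⟩ i hi
      cases i with
      | zero => rw [if_pos hi] at h0; exact h0
      | succ i => exact h i hi
  rw [h1, Measure.prod_prod, Measure.infinitePi_pi _ fun i _ => ht _]
  have h2 : ∏ i ∈ s.preimage Nat.succ Nat.succ_injective.injOn, ν (t (i + 1)) =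
      ∏ i ∈ s.erase 0, ν (t i) := by
    classical
    rw [Finset.prod_preimage' Nat.succ s Nat.succ_injective.injOn (fun i => ν (t i))]
    refine Finset.prod_congr ?_ fun _ _ => rfl
    ext i
    cases i <;> simp
  rw [h2]
  split_ifs with h0
  · exact Finset.mul_prod_erase s (fun i => ν (t i)) h0
  · simp [Finset.erase_eq_of_notMem h0]

variable {V : Type*} [DecidableEq V] {G : SimpleGraph V} [G.LocallyFinite] {Δ : ℕ}

lemma pos_consSeq (p : (V → V) × (ℕ → V → V)) (x : V) (j : ℕ) :
    pos (consSeq p) x (j + 1) = pos p.2 (p.1 x) j := by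
  induction j with
  | zero => rfl
  | succ j ih => rw [pos, ih]; rfl

lemma countable_of_connected (hc : G.Connected) : Countable V := by
  obtain ⟨o⟩ := hc.nonempty
  rw [← Set.countable_univ_iff]
  refine (Set.countable_iUnion fun n => (ballF G o n).countable_toSet).mono fun v _ => ?_
  exact Set.mem_iUnion.2 ⟨G.dist o v, (mem_ballF hc).2 le_rfl⟩

variable [MeasurableSpace V] [DiscreteMeasurableSpace V] [Countable V]

lemma measurable_pos (x : V) (n : ℕ) : Measurable fun U : ℕ → V → V => pos U x n := by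
  induction n with
  | zero => exact measurable_const
  | succ n ih =>
    refine measurable_to_countable' fun y => ?_
    have : (fun U : ℕ → V → V => pos U x (n + 1)) ⁻¹' {y} =
        ⋃ v, (fun U : ℕ → V → V => pos U x n) ⁻¹' {v} ∩ (fun U : ℕ → V → V => U n v) ⁻¹' {y} := by
      ext U; simp [pos]
    rw [this]
    refine MeasurableSet.iUnion fun v => (ih (measurableSet_singleton v)).inter ?_
    exact ((measurable_pi_apply v).comp (measurable_pi_apply n)) (measurableSet_singleton y)

/-- The walk visits `S` within `n` jumps. -/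
def HitEv (S : Set V) (n : ℕ) (x : V) : Set (ℕ → V → V) := {U | ∃ j ≤ n, pos U x j ∈ S}

lemma measurableSet_HitEv (S : Set V) (n : ℕ) (x : V) : MeasurableSet (HitEv S n x) := by
  have : HitEv S n x = ⋃ j, ⋃ (_ : j ≤ n), (fun U : ℕ → V → V => pos U x j) ⁻¹' S := by
    ext U; simp [HitEv]
  rw [this]
  exact .iUnion fun j => .iUnion fun _ => measurable_pos x j .of_discrete

lemma prob_unif (hreg : G.IsRegularOfDegree Δ) (hΔ : 0 < Δ) (v : V) :
    IsProbabilityMeasure (uniformOn (G.neighborSet v)) := by
  refine isProbabilityMeasure_uniformOn (Set.toFinite _) ?_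
  have h : 0 < (G.neighborFinset v).card := by simpa [hreg.degree_eq] using hΔ
  obtain ⟨u, hu⟩ := Finset.card_pos.1 h
  exact ⟨u, by simpa using hu⟩

lemma prob_jump (hreg : G.IsRegularOfDegree Δ) (hΔ : 0 < Δ) :
    IsProbabilityMeasure (jumpLaw G) := by
  have := prob_unif hreg hΔ
  unfold jumpLaw; infer_instance

lemma jump_single (hreg : G.IsRegularOfDegree Δ) (hΔ : 0 < Δ) {x u : V} (h : G.Adj x u) :
    (jumpLaw G).real {a | a x = u} = 1 / Δ := by
  have := prob_unif hreg hΔ
  have h1 : (jumpLaw G) {a | a x = u} = uniformOn (G.neighborSet x) {u} := by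
    rw [← Measure.infinitePi_map_eval (fun v => uniformOn (G.neighborSet v)) x,
      Measure.map_apply (measurable_pi_apply x) (measurableSet_singleton u)]
    rfl
  have h2 : uniformOn (G.neighborSet x) {u} = 1 / Δ := by
    rw [← SimpleGraph.coe_neighborFinset, ← Finset.coe_singleton, uniformOn_apply_finset,
      Finset.inter_singleton_of_mem (by simpa using h)]
    simp [hreg.degree_eq]
  rw [measureReal_def, h1, h2]
  simp

lemma hit_le_prob (hreg : G.IsRegularOfDegree Δ) (hΔ : 0 < Δ) (S : Set V) (n : ℕ) :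
    ∀ x, hit G Δ S n x ≤ (Measure.infinitePi fun _ : ℕ => jumpLaw G).real (HitEv S n x) := by
  have := prob_jump hreg hΔ
  have hin : ∀ n x, x ∈ S →
      (Measure.infinitePi fun _ : ℕ => jumpLaw G).real (HitEv S n x) = 1 := by
    intro n x hx
    have : HitEv S n x = Set.univ := Set.eq_univ_of_forall fun U => ⟨0, Nat.zero_le _, hx⟩
    simp [this]
  induction n with
  | zero =>
    intro x
    by_cases hx : x ∈ S
    · rw [hin 0 x hx]; exact hit_le_one hreg hΔ S 0 x
    · simp [hit, ind_neg hx]
  | succ n ih =>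
    intro x
    by_cases hx : x ∈ S
    · rw [hin _ x hx]; exact hit_le_one hreg hΔ S _ x
    rw [← map_consSeq (jumpLaw G), map_measureReal_apply measurable_consSeq
      (measurableSet_HitEv S _ x)]
    have hsub : (⋃ u ∈ G.neighborFinset x, {a : V → V | a x = u} ×ˢ HitEv S n u) ⊆
        consSeq ⁻¹' HitEv S (n + 1) x := by
      intro p hp
      simp only [Set.mem_iUnion, Set.mem_prod, Set.mem_ofPred_eq] at hp
      obtain ⟨u, -, h1, j, hj, h2⟩ := hp
      exact ⟨j + 1, by omega, by rw [pos_consSeq, h1]; exact h2⟩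
    refine le_trans ?_ (measureReal_mono hsub)
    rw [measureReal_biUnion_finset]
    · simp only [hit, ind_neg hx, ind_pos hx, zero_add, one_mul, Pop, Finset.sum_div]
      refine Finset.sum_le_sum fun u hu => ?_
      rw [measureReal_prod_prod, jump_single hreg hΔ (by simpa using hu), one_div_mul_eq_div]
      gcongr
      exact ih u
    · intro u _ w _ huw
      refine Set.disjoint_left.2 fun p hp hq => huw ?_
      exact hp.1.symm.trans hq.1
    · intro u _
      refine MeasurableSet.prod ?_ (measurableSet_HitEv S n u)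
      exact measurable_pi_apply (X := fun _ : V => V) x (measurableSet_singleton u)

/-- The first `n` jumps happen before time `t`. -/
def TimeEv (n : ℕ) (t : ℝ) : Set (ℕ → ℝ) := {T | ∀ j ≤ n, ∑ i ∈ range j, T i ≤ t}

lemma measurableSet_TimeEv (n : ℕ) (t : ℝ) : MeasurableSet (TimeEv n t) := by
  have : TimeEv n t = ⋂ j, ⋂ (_ : j ≤ n), {T : ℕ → ℝ | ∑ i ∈ range j, T i ≤ t} := by
    ext T; simp [TimeEv]
  rw [this]
  exact .iInter fun j => .iInter fun _ => measurableSet_le (by fun_prop) measurable_const

lemma exists_time (P : Measure (ℕ → ℝ)) [IsProbabilityMeasure P] (n : ℕ) :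
    ∃ t0 : ℕ, ∀ t : ℝ, t0 ≤ t → 1 / 2 ≤ P.real (TimeEv n t) := by
  have hmono : ∀ {s t : ℝ}, s ≤ t → TimeEv n s ⊆ TimeEv n t :=
    fun h T hT j hj => (hT j hj).trans h
  have h1 : Monotone fun m : ℕ => TimeEv n m := fun a b hab => hmono (by exact_mod_cast hab)
  have h2 : ⋃ m : ℕ, TimeEv n m = Set.univ := by
    refine Set.eq_univ_of_forall fun T => ?_
    obtain ⟨m, hm⟩ := exists_nat_ge (∑ j ∈ range (n + 1), |∑ i ∈ range j, T i|)
    refine Set.mem_iUnion.2 ⟨m, fun j hj => (le_abs_self _).trans (le_trans ?_ hm)⟩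
    exact Finset.single_le_sum (f := fun j => |∑ i ∈ range j, T i|) (fun _ _ => abs_nonneg _)
      (Finset.mem_range.2 (by omega))
  have h3 := tendsto_measure_iUnion_atTop (μ := P) h1
  rw [h2, measure_univ] at h3
  have h4 := (ENNReal.tendsto_toReal ENNReal.one_ne_top).comp h3
  obtain ⟨m, hm⟩ := (h4.eventually (lt_mem_nhds (show (1 / 2 : ℝ) < (1 : ℝ≥0∞).toReal by
    norm_num))).exists
  exact ⟨m, fun t ht => hm.le.trans (measureReal_mono (hmono ht))⟩

lemma prob_time : IsProbabilityMeasure (Measure.infinitePi fun _ : ℕ => expMeasure 1) := by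
  have := isProbabilityMeasure_expMeasure (r := 1) one_pos
  infer_instance

lemma prob_particle (hreg : G.IsRegularOfDegree Δ) (hΔ : 0 < Δ) :
    IsProbabilityMeasure (particleLaw G) := by
  have := prob_jump hreg hΔ
  have := prob_time
  unfold particleLaw; infer_instance

lemma prob_site (hreg : G.IsRegularOfDegree Δ) (hΔ : 0 < Δ) (lam : ℝ≥0) :
    IsProbabilityMeasure (siteLaw G lam) := by
  have := prob_particle hreg hΔ
  unfold siteLaw; infer_instance

lemma measurableSet_Visits (t : ℝ) (x y : V) : MeasurableSet {p : Particle V | Visits t p x y} := by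
  have : {p : Particle V | Visits t p x y} = ⋃ n, {p : Particle V | ∑ j ∈ range n, p.2 j ≤ t} ∩
      (fun p : Particle V => pos p.1 x n) ⁻¹' {y} := by
    ext p; simp [Visits]
  rw [this]
  refine .iUnion fun n => (measurableSet_le (by fun_prop) measurable_const).inter ?_
  exact ((measurable_pos x n).comp measurable_fst) (measurableSet_singleton y)

/-- Some particle of the site variable `s` placed at `x` visits `y`. -/
def SW (t : ℝ) (s : Site V) (x y : V) : Prop := ∃ i < s.1, Visits t (s.2 i) x y

lemma measurableSet_SW (t : ℝ) (x y : V) : MeasurableSet {s : Site V | SW t s x y} := by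
  have : {s : Site V | SW t s x y} = ⋃ i, {s : Site V | i < s.1} ∩
      (fun s : Site V => s.2 i) ⁻¹' {p : Particle V | Visits t p x y} := by
    ext s; simp [SW]
  rw [this]
  refine .iUnion fun i => (measurableSet_lt measurable_const measurable_fst).inter ?_
  exact ((measurable_pi_apply i).comp measurable_snd) (measurableSet_Visits t x y)

lemma site_avoid (hreg : G.IsRegularOfDegree Δ) (hΔ : 0 < Δ) (lam : ℝ≥0) {n : ℕ} {t : ℝ}
    (ht : 1 / 2 ≤ (Measure.infinitePi fun _ : ℕ => expMeasure 1).real (TimeEv n t)) (k : ℕ)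
    (S : Set V) (x : V) :
    (siteLaw G lam).real {s | k ≤ s.1 ∧ ∀ y ∈ S, ¬ SW t s x y} ≤
      (poissonMeasure lam).real {m | k ≤ m} * Real.exp (-(k / 2 * hit G Δ S n x)) := by
  have := prob_jump hreg hΔ
  have := prob_time
  have := prob_particle hreg hΔ
  have := prob_site hreg hΔ lam
  set A : Set (Particle V) := (HitEv S n x ×ˢ TimeEv n t)ᶜ with hA
  have hAm : MeasurableSet (HitEv S n x ×ˢ TimeEv n t) :=
    (measurableSet_HitEv S n x).prod (measurableSet_TimeEv n t)
  have h1 : (particleLaw G).real A ≤ Real.exp (-(1 / 2 * hit G Δ S n x)) := by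
    rw [hA, probReal_compl_eq_one_sub hAm, particleLaw, measureReal_prod_prod]
    have h2 := hit_le_prob hreg hΔ S n x
    have h3 := hit_nonneg (G := G) (Δ := Δ) S n x
    have h4 := Real.one_sub_le_exp_neg (1 / 2 * hit G Δ S n x)
    nlinarith
  have hsub : {s : Site V | k ≤ s.1 ∧ ∀ y ∈ S, ¬ SW t s x y} ⊆
      {m | k ≤ m} ×ˢ ((range k : Set ℕ).pi fun _ => A) := by
    rintro s ⟨h1, h2⟩
    refine ⟨h1, fun i hi => ?_⟩
    rintro ⟨⟨j, hj, h3⟩, h4⟩
    exact h2 _ h3 ⟨i, lt_of_lt_of_le (by simpa using hi) h1, j, h4 j hj, rfl⟩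
  refine (measureReal_mono hsub).trans ?_
  rw [siteLaw, measureReal_prod_prod]
  gcongr
  rw [measureReal_def, Measure.infinitePi_pi _ fun _ _ => hAm.compl, Finset.prod_const,
    Finset.card_range, ENNReal.toReal_pow, ← measureReal_def]
  calc (particleLaw G).real A ^ k ≤ Real.exp (-(1 / 2 * hit G Δ S n x)) ^ k := by gcongr
    _ = _ := by rw [← Real.exp_nat_mul]; ring_nf

lemma site_count (hreg : G.IsRegularOfDegree Δ) (hΔ : 0 < Δ) (lam : ℝ≥0) (B : Set ℕ) :
    (siteLaw G lam).real {s | s.1 ∈ B} = (poissonMeasure lam).real B := by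
  have := prob_particle hreg hΔ
  have : {s : Site V | s.1 ∈ B} = B ×ˢ Set.univ := by ext s; simp
  rw [this, siteLaw, measureReal_prod_prod]
  simp

/-- Finite dimensional marginals as finite sums. -/
lemma real_eq_Ex {Ω J β : Type*} [MeasurableSpace Ω] [Fintype J] [DecidableEq J] [Fintype β]
    (P : Measure Ω) [IsProbabilityMeasure P] {e : J → V} (he : Function.Injective e)
    (X : J → Ω → β) (hX : ∀ j b, MeasurableSet (X j ⁻¹' {b})) (p : (J → β) → Prop) :
    MeasurableSet {ω : V → Ω | p fun j => X j (ω (e j))} ∧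
    (Measure.infinitePi fun _ : V => P).real {ω | p fun j => X j (ω (e j))} =
      Ex (fun j b => P.real (X j ⁻¹' {b})) (fun x => ind (p x)) := by
  classical
  let : MeasurableSpace β := ⊤
  have hXm : ∀ j, Measurable (X j) := fun j => measurable_to_countable' (hX j)
  have hm : Measurable fun (ω : V → Ω) j => X j (ω (e j)) :=
    measurable_pi_iff.2 fun j => (hXm j).comp (measurable_pi_apply _)
  have hp : MeasurableSet {x : J → β | p x} := (Set.toFinite _).measurableSet
  refine ⟨hm hp, ?_⟩
  have h1 : (Measure.infinitePi fun _ : V => P).map (fun (ω : V → Ω) j => X j (ω (e j))) =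
      Measure.infinitePi fun j => P.map (X j) := by
    rw [← Measure.infinitePi_map_pi _ hXm,
      ← Measure.map_infinitePi_infinitePi_of_inj (P := fun _ : V => P) he,
      Measure.map_map (by fun_prop) (by fun_prop)]
    rfl
  have : ∀ j, IsProbabilityMeasure (P.map (X j)) := fun j =>
    Measure.isProbabilityMeasure_map (hXm j).aemeasurable
  have h2 := map_measureReal_apply (μ := Measure.infinitePi fun _ : V => P) hm hp
  rw [h1] at h2
  refine h2.symm.trans ?_
  have h3 : {x : J → β | p x} = (univ.filter p : Finset (J → β)) := by ext x; simp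
  rw [h3, ← sum_measureReal_singleton, Finset.sum_filter]
  refine Finset.sum_congr rfl fun x _ => ?_
  rw [measureReal_def, Measure.infinitePi_singleton_of_fintype, ENNReal.toReal_prod]
  have h4 : ∀ j, (P.map (X j) {x j}).toReal = P.real (X j ⁻¹' {x j}) := fun j => by
    rw [Measure.map_apply (hXm j) (measurableSet_singleton _)]; rfl
  simp only [h4]
  by_cases hx : p x <;> simp [hx, ind_pos, ind_neg]

lemma sum_real_ind {Ω β : Type*} [MeasurableSpace Ω] [Fintype β]
    (P : Measure Ω) [IsProbabilityMeasure P] (X : Ω → β)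
    (hX : ∀ b, MeasurableSet (X ⁻¹' {b})) (p : β → Prop) :
    ∑ b, P.real (X ⁻¹' {b}) * ind (p b) = P.real {ω | p (X ω)} := by
  classical
  have h1 : {ω | p (X ω)} = ⋃ b ∈ univ.filter p, X ⁻¹' {b} := by ext ω; simp
  rw [h1, measureReal_biUnion_finset, Finset.sum_filter]
  · refine Finset.sum_congr rfl fun x _ => ?_
    by_cases hx : p x <;> simp [hx, ind_pos, ind_neg]
  · intro a _ b _ hab
    exact Set.disjoint_left.2 fun ω h1 h2 => hab (h1.symm.trans h2)
  · exact fun b _ => hX b

end Pool.Agent.P.MP_e2f79e_pr
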