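import Pool.Agent.P.MP_e2f79e_pr.Window
import Pool.Agent.P.MP_e2f79e_pr.Select
import Pool.Agent.P.MP_e2f79e_pr.Walk

/-! Finite critical lifetime. -/

set_option linter.unusedSectionVars false

namespace Pool.Agent.P.MP_e2f79e_pr

open MeasureTheory ProbabilityTheory Filter Topology Finset
open scoped NNReal ENNReal

variable {V : Type*} [DecidableEq V] {G : SimpleGraph V} [G.LocallyFinite] {Δ : ℕ}
  [MeasurableSpace V] [DiscreteMeasurableSpace V] [Countable V]

open Classical in
/-- The finite information read at a vertex. -/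
noncomputable def info {J : Type*} (t : ℝ) (e : J → V) (j : J) (s : Site V) : Bool × (J → Bool) :=
  (decide (788 ≤ s.1), fun w => decide (SW t s (e j) (e w)))

lemma measurableSet_info {J : Type*} [Fintype J] (t : ℝ) (e : J → V) (j : J)
    (x : Bool × (J → Bool)) : MeasurableSet (info t e j ⁻¹' {x}) := by
  have h1 : Measurable (info t e j) := by
    refine Measurable.prodMk ?_ (measurable_pi_iff.2 fun w => ?_)
    · exact (measurable_of_countable fun m : ℕ => decide (788 ≤ m)).comp measurable_fst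
    · refine measurable_to_bool ?_
      convert measurableSet_SW t (e j) (e w)
      ext s; simp
  exact h1 (measurableSet_singleton x)

lemma far_event (hc : G.Connected) (hreg : G.IsRegularOfDegree Δ) (hΔ : 0 < Δ) (lam : ℝ≥0) (o : V)
    {b r n L : ℕ} {t : ℝ} (hr : ∀ z, b + 1 ≤ (ballF G z r).card)
    (hb : (1 - (poissonMeasure lam).real {m | 788 ≤ m}) ^ (b + 1) ≤
      (poissonMeasure lam).real {m | 788 ≤ m} * Real.exp (-197))
    (ht : 1 / 2 ≤ (Measure.infinitePi fun _ : ℕ => expMeasure 1).real (TimeEv n t))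
    (hw : ∀ (ι : Type) [Fintype ι] [DecidableEq ι] (y : ι → V), Function.Injective y →
      ∀ (a0 : ι) (ρ : ℕ), (∀ v, G.dist o v ≤ ρ → ∃ a, G.dist v (y a) ≤ 3 * r) →
        ∃ I : ι × ι → ℝ, (∀ e, 0 ≤ I e) ∧
          1 / 2 ≤ Phi a0 (univ.filter fun a => ρ < G.dist o (y a) + L) I ∧
          ∀ a (S : Finset ι), a ∉ S → ∑ z ∈ S, I (a, z) ≤ 197 * hit G Δ (y '' S) n (y a))
    (ρ : ℕ) : ∃ E : Set (V → Site V), MeasurableSet E ∧
      (poissonMeasure lam).real {m | 788 ≤ m} / 2 ≤ (frogLaw G lam).real E ∧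
      ∀ ω ∈ E, ∃ v, ρ < G.dist o v + L ∧ Relation.ReflTransGen (Wakes t ω) o v := by
  have := prob_site hreg hΔ lam
  obtain ⟨N, a0, e, he, he0, hcov⟩ := exists_blocks hc hr o ρ
  set q := (poissonMeasure lam).real {m | 788 ≤ m} with hq
  let T : (Fin N → Fin (b + 1)) → Finset (Fin N) := fun yy =>
    univ.filter fun a => ρ < G.dist o (e (a, yy a)) + L
  let out : (Fin N → Fin (b + 1)) → Fin N →
      (Fin (b + 1) → Bool × (Fin N × Fin (b + 1) → Bool)) → Fin N → Bool :=
    fun yy a g z => (g (yy a)).2 (z, yy z)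
  let p : (Fin N → Fin (b + 1) → Bool × (Fin N × Fin (b + 1) → Bool)) → Prop := fun ω =>
    first (ω a0) = 0 ∧
      conn a0 (T fun x => first (ω x)) (fun d => out (fun x => first (ω x)) d.1 (ω d.1) d.2)
  obtain ⟨hE, hP⟩ := real_eq_Ex (siteLaw G lam) he (info t e) (measurableSet_info t e)
    (fun x => p fun a i => x (a, i))
  refine ⟨_, hE, ?_, ?_⟩
  · rw [frogLaw, hP, Ex_curry]
    set μ : Fin N × Fin (b + 1) → Bool × (Fin N × Fin (b + 1) → Bool) → ℝ :=
      fun j x => (siteLaw G lam).real (info t e j ⁻¹' {x}) with hμ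
    have hsum := fun j => sum_real_ind (siteLaw G lam) (info t e j) (measurableSet_info t e j)
    have hμP : IsP μ := by
      refine ⟨fun _ _ => measureReal_nonneg, fun j => ?_⟩
      simpa [ind_pos] using hsum j fun _ => True
    have hrow : ∀ a, IsP fun i => μ (a, i) :=
      fun a => ⟨fun _ _ => hμP.nonneg _ _, fun _ => hμP.sum_one _⟩
    have hρ : ∀ j, ∑ x, μ j x * ind (x.1 = true) = q := by
      intro j
      rw [hsum j fun x => x.1 = true, hq, ← site_count hreg hΔ lam]
      simp [info]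
    have h1 := select hμP.curry first out T a0 0 ?_
    · refine le_trans ?_ h1
      have := block_zero (hrow a0) (fun i => hρ (a0, i))
      exact div_le_div_of_nonneg_right this (by norm_num)
    intro yy
    have hy : Function.Injective fun a => e (a, yy a) := fun a a' h => congrArg Prod.fst (he h)
    obtain ⟨I, hI, hPhi, hav⟩ := hw (Fin N) (fun a => e (a, yy a)) hy a0 ρ fun v hv => by
      obtain ⟨a, ha⟩ := hcov v hv
      exact ⟨a, ha _⟩
    refine ⟨I, hI, hPhi, fun x S hx => ?_⟩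
    have h2 := block_avoid (hrow x) (fun i => hρ (x, i)) hb (yy x)
      (fun g => ∀ z ∈ S, g (z, yy z) = false) (hit_nonneg ((fun a => e (a, yy a)) '' S) n _)
      (hit_le_one hreg hΔ ((fun a => e (a, yy a)) '' S) n (e (x, yy x))) ?_
    · refine h2.trans (mul_le_mul_of_nonneg_left (Real.exp_le_exp.2 ?_) ?_)
      · have := hav x S hx
        linarith
      · exact Ex_nonneg (hrow x) fun _ => ind_nonneg _
    rw [hsum (x, yy x) fun a => a.1 = true ∧ ∀ z ∈ S, a.2 (z, yy z) = false]
    have h3 := site_avoid hreg hΔ lam ht 788 ((fun a => e (a, yy a)) '' S) (e (x, yy x))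
    convert h3 using 3
    · simp [info]
    · norm_num
  · rintro ω ⟨h0, a, ha, hreach⟩
    refine ⟨_, (Finset.mem_filter.1 ha).2, ?_⟩
    clear ha
    induction hreach with
    | refl => beta_reduce at h0 ⊢; rw [h0, he0]
    | tail _ hbc ih => exact ih.tail (@of_decide_eq_true _ (Classical.propDecidable _) hbc)

theorem tc_lt_top (hc : G.Connected) (ht : VertexTransitive G) (ha : Amenable G) (o : V)
    {c : ℝ} (hc0 : 0 < c) (hg : ∀ n : ℕ, c * n ^ 12 ≤ growth G o n) {lam : ℝ≥0}
    (hlam : 0 < lam) : tc G o lam < ⊤ := by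
  have hreg := exists_regular ht o
  have hbig : ∀ m : ℕ, ∃ r, m ≤ (ballF G o r).card := by
    intro m
    obtain ⟨r, hr⟩ := exists_nat_ge (m / c)
    refine ⟨r, ?_⟩
    have h1 := hg r
    rw [growth_eq hc] at h1
    rw [div_le_iff₀' hc0] at hr
    have h2 : (r : ℝ) ≤ r ^ 12 := by exact_mod_cast Nat.le_self_pow (by norm_num) r
    have h3 := mul_le_mul_of_nonneg_left h2 hc0.le
    exact_mod_cast hr.trans (h3.trans h1)
  have hΔ : 0 < G.degree o := by
    by_contra h
    obtain ⟨r, hr⟩ := hbig 2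
    have := card_ballF_le hreg o r
    rw [show G.degree o = 0 by omega] at this
    simp at this
    omega
  have := prob_site hreg hΔ lam
  have : IsProbabilityMeasure (frogLaw G lam) := by unfold frogLaw; infer_instance
  set q := (poissonMeasure lam).real {m | 788 ≤ m} with hq
  have hq0 : 0 < q := (poissonMeasure_real_singleton_pos 788 hlam).trans_le
    (measureReal_mono (by simp))
  have hq1 : q ≤ 1 := measureReal_le_one
  obtain ⟨b, hb⟩ := exists_pow_lt_of_lt_one (mul_pos hq0 (Real.exp_pos (-197)))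
    (show 1 - q < 1 by linarith)
  have hb' : (1 - q) ^ (b + 1) ≤ q * Real.exp (-197) :=
    (pow_le_pow_of_le_one (by linarith) (by linarith) (Nat.le_succ b)).trans hb.le
  obtain ⟨r, hr⟩ := hbig (b + 1)
  obtain ⟨n, L, hw⟩ := window hc ht ha hreg hΔ o hc0 hg (3 * r)
  have := prob_time
  obtain ⟨t0, ht0⟩ := exists_time (Measure.infinitePi fun _ : ℕ => expMeasure 1) n
  refine lt_of_le_of_lt (iSup₂_le fun t h0 => ?_) (ENNReal.coe_lt_top (r := t0))
  rw [ENNReal.coe_le_coe]
  by_contra hlt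
  have htt : (t0 : ℝ) ≤ t := by exact_mod_cast (not_le.1 hlt).le
  choose E hE1 hE2 hE3 using far_event hc hreg hΔ lam o
    (fun z => card_ballF_eq hc ht o z r ▸ hr) hb' (ht0 t htt) hw
  have h1 := tendsto_measure_iInter_atTop (μ := frogLaw G lam)
    (s := fun m : ℕ => ⋃ ρ ≥ m, E ρ)
    (fun m => (MeasurableSet.biUnion (Set.to_countable _) fun ρ _ => hE1 ρ).nullMeasurableSet)
    (fun m m' h => Set.biUnion_subset_biUnion_left fun ρ hρ => le_trans h hρ)
    ⟨0, measure_ne_top _ _⟩
  have h2 : (⋂ m : ℕ, ⋃ ρ ≥ m, E ρ) ⊆ Survives t o := by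
    intro ω hω hfin
    obtain ⟨M, hM⟩ := (hfin.image (G.dist o)).bddAbove
    obtain ⟨ρ, hρ, h⟩ := Set.mem_iUnion₂.1 (Set.mem_iInter.1 hω (M + L))
    obtain ⟨v, hv1, hv2⟩ := hE3 ρ ω h
    have := hM ⟨v, hv2, rfl⟩
    omega
  rw [measure_mono_null h2 h0] at h1
  have h3 := (ENNReal.tendsto_toReal ENNReal.zero_ne_top).comp h1
  obtain ⟨m, hm⟩ := (h3.eventually (gt_mem_nhds (show (0 : ℝ≥0∞).toReal < q / 2 by
    simpa using hq0))).exists
  refine absurd hm (not_lt.2 ((hE2 m).trans (measureReal_mono ?_ (measure_ne_top _ _))))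
  exact Set.subset_biUnion_of_mem (u := E) (le_refl m)

end Pool.Agent.P.MP_e2f79e_pr
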