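import Pool.Agent.P.MP_e2f79e_pr.Perc

/-! One site decompositions of the connection probability. -/

set_option linter.unusedSectionVars false

namespace Pool.Agent.P.MP_e2f79e_pr

open Finset Real

variable {ι : Type*} [Fintype ι] [DecidableEq ι] {o : ι} {T : Finset ι}

/-- The edges touching `x`. -/
def star (x : ι) : Finset (ι × ι) := univ.filter fun e => e.1 = x ∨ e.2 = x

lemma mem_star {x : ι} {e : ι × ι} : e ∈ star x ↔ e.1 = x ∨ e.2 = x := by simp [star]

lemma conn_star (x : ι) (ω ω' : ι × ι → Bool) :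
    let ω0 : ι × ι → Bool := (star x).piecewise (fun _ => false) ω
    conn o T ((star x).piecewise ω' ω) ↔ conn o T ω0 ∨
      ((o = x ∨ ∃ y, (y ≠ x ∧ Reach ω0 o y) ∧ ω' (y, x) = true) ∧
        (x ∈ T ∨ ∃ z, (z ≠ x ∧ conn z T ω0) ∧ ω' (x, z) = true)) := by
  intro ω0
  have hm : ∀ e, ω0 e = true → (star x).piecewise ω' ω e = true := by
    intro e he
    by_cases h : e ∈ star x
    · simp [ω0, h] at he
    · simpa [ω0, h] using he
  constructor
  · rintro ⟨t, ht, hr⟩
    have key : ∀ v, Reach ((star x).piecewise ω' ω) o v → Reach ω0 o v ∨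
        ((o = x ∨ ∃ y, (y ≠ x ∧ Reach ω0 o y) ∧ ω' (y, x) = true) ∧
          (v = x ∨ ∃ z, z ≠ x ∧ Reach ω0 z v ∧ ω' (x, z) = true)) := by
      intro v hv
      induction hv with
      | refl => exact Or.inl Relation.ReflTransGen.refl
      | @tail b c hob hbc ih =>
        have hox : Reach ω0 o x → o = x := by
          intro h
          rcases Relation.ReflTransGen.cases_tail h with h | ⟨y, _, hy⟩
          · exact h.symm
          · have : (y, x) ∈ star x := mem_star.2 (Or.inr rfl)
            simp [ω0, this] at hy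
        by_cases hc : c = x
        · subst hc
          refine Or.inr ⟨?_, Or.inl rfl⟩
          rcases ih with ih | ih
          · by_cases hb : b = c
            · subst hb; exact Or.inl (hox ih)
            · have : (b, c) ∈ star c := mem_star.2 (Or.inr rfl)
              exact Or.inr ⟨b, ⟨hb, ih⟩, by simpa [this] using hbc⟩
          · exact ih.1
        by_cases hb : b = x
        · subst hb
          have hs : (b, c) ∈ star b := mem_star.2 (Or.inl rfl)
          refine Or.inr ⟨?_, Or.inr ⟨c, hc, Relation.ReflTransGen.refl, by simpa [hs] using hbc⟩⟩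
          rcases ih with ih | ih
          · exact Or.inl (hox ih)
          · exact ih.1
        have hs : (b, c) ∉ star x := by simp [mem_star, hb, hc]
        have h0 : ω0 (b, c) = true := by simpa [ω0, hs] using hbc
        rcases ih with ih | ⟨h1, h2 | ⟨z, hz, h3, h4⟩⟩
        · exact Or.inl (ih.tail h0)
        · exact absurd h2 hb
        · exact Or.inr ⟨h1, Or.inr ⟨z, hz, h3.tail h0, h4⟩⟩
    rcases key t hr with h | ⟨h1, h2 | ⟨z, hz, h3, h4⟩⟩
    · exact Or.inl ⟨t, ht, h⟩
    · exact Or.inr ⟨h1, Or.inl (h2 ▸ ht)⟩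
    · exact Or.inr ⟨h1, Or.inr ⟨z, ⟨hz, t, ht, h3⟩, h4⟩⟩
  · rintro (h | ⟨h1, h2⟩)
    · exact h.mono hm
    · have hox : Reach ((star x).piecewise ω' ω) o x := by
        rcases h1 with h1 | ⟨y, ⟨_, hy⟩, h3⟩
        · subst h1; exact Relation.ReflTransGen.refl
        · refine (hy.mono hm).tail ?_
          have : (y, x) ∈ star x := mem_star.2 (Or.inr rfl)
          simpa [this] using h3
      rcases h2 with h2 | ⟨z, ⟨_, t, ht, hz⟩, h3⟩
      · exact ⟨x, h2, hox⟩
      · refine ⟨t, ht, (hox.tail ?_).trans (hz.mono hm)⟩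
        have : (x, z) ∈ star x := mem_star.2 (Or.inl rfl)
        simpa [this] using h3

lemma ind_or_exists {κ : Type*} (p : Prop) (F : Finset κ) (q : κ → Bool) :
    ind (p ∨ ∃ y ∈ F, q y = true) = 1 - ind (¬ p) * ind (∀ y ∈ F, q y = false) := by
  rw [← ind_and, ← ind_not]
  refine ind_congr ?_
  push Not
  by_cases hp : p <;> simp [hp]

/-- The conditional connection probability given the edges not touching `x`. -/
lemma Phi_inner (x : ι) (ω : ι × ι → Bool) :
    ∃ (c0 cF cS : ℝ) (F S : Finset ι), 0 ≤ c0 ∧ c0 ≤ 1 ∧ 0 ≤ cF ∧ cF ≤ 1 ∧ 0 ≤ cS ∧ cS ≤ 1 ∧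
      x ∉ F ∧ x ∉ S ∧ ∀ I : ι × ι → ℝ, (∀ e, 0 ≤ I e) →
        Ex (bw I) (fun ω' => ind (conn o T ((star x).piecewise ω' ω))) =
          c0 + (1 - c0) * ((1 - cF * exp (-∑ y ∈ F, I (y, x))) *
            (1 - cS * exp (-∑ z ∈ S, I (x, z)))) := by
  classical
  set ω0 : ι × ι → Bool := (star x).piecewise (fun _ => false) ω with hω0
  let F : Finset ι := univ.filter fun y => y ≠ x ∧ Reach ω0 o y
  let S : Finset ι := univ.filter fun z => z ≠ x ∧ conn z T ω0
  refine ⟨ind (conn o T ω0), ind (¬ o = x), ind (¬ x ∈ T), F, S, ind_nonneg _, ind_le_one _,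
    ind_nonneg _, ind_le_one _, ind_nonneg _, ind_le_one _, by simp [F], by simp [S], ?_⟩
  intro I hI
  have hP := isP_bw hI
  by_cases h0 : conn o T ω0
  · have : ∀ ω', ind (conn o T ((star x).piecewise ω' ω)) = 1 :=
      fun ω' => ind_pos ((conn_star x ω ω').2 (Or.inl h0))
    simp only [this, Ex_const hP, ind_pos h0]; ring
  let F' : Finset (ι × ι) := F.image fun y => (y, x)
  let S' : Finset (ι × ι) := S.image fun z => (x, z)
  have hdisj : Disjoint F' S' := by
    rw [Finset.disjoint_left]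
    intro e he he'
    simp only [F', S', F, S, Finset.mem_image, Finset.mem_filter] at he he'
    obtain ⟨y, ⟨_, hy, _⟩, rfl⟩ := he
    obtain ⟨z, _, hz⟩ := he'
    exact hy (Prod.mk.inj hz).1.symm
  have key : ∀ ω' : ι × ι → Bool, ind (conn o T ((star x).piecewise ω' ω)) =
      1 - ind (¬ o = x) * ind (∀ e ∈ F', ω' e = false) -
        ind (¬ x ∈ T) * ind (∀ e ∈ S', ω' e = false) +
        ind (¬ o = x) * ind (¬ x ∈ T) * ind (∀ e ∈ F' ∪ S', ω' e = false) := by
    intro ω'
    have e1 : ind (∀ e ∈ F' ∪ S', ω' e = false) =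
        ind (∀ e ∈ F', ω' e = false) * ind (∀ e ∈ S', ω' e = false) := by
      rw [← ind_and]; refine ind_congr ?_
      simp only [Finset.mem_union, or_imp, forall_and]
    have e2 : ind (∀ e ∈ F', ω' e = false) = ind (∀ y ∈ F, ω' (y, x) = false) := by
      refine ind_congr ?_; simp [F']
    have e3 : ind (∀ e ∈ S', ω' e = false) = ind (∀ z ∈ S, ω' (x, z) = false) := by
      refine ind_congr ?_; simp [S']
    have e4 : conn o T ((star x).piecewise ω' ω) ↔
        ((o = x ∨ ∃ y ∈ F, ω' (y, x) = true) ∧ (x ∈ T ∨ ∃ z ∈ S, ω' (x, z) = true)) := by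
      have hcs := conn_star (o := o) (T := T) x ω ω'
      simp only at hcs
      rw [hcs]
      simp only [F, S, Finset.mem_filter, Finset.mem_univ, true_and]
      exact or_iff_right h0
    rw [ind_congr e4, ind_and, ind_or_exists _ F (fun y => ω' (y, x)),
      ind_or_exists _ S (fun z => ω' (x, z)), e1, e2, e3]
    ring
  simp only [key]
  rw [Ex_add, Ex_sub, Ex_sub, Ex_mul_left, Ex_mul_left, Ex_mul_left, Ex_const hP,
    Ex_bw_closed hI, Ex_bw_closed hI, Ex_bw_closed hI, Finset.sum_union hdisj, ind_neg h0]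
  rw [Finset.sum_image (fun a _ b _ h => (Prod.mk.inj h).1),
    Finset.sum_image (fun a _ b _ h => (Prod.mk.inj h).2)]
  simp only [neg_add, exp_add]
  ring

/-- Comparison with a model with independent random out-neighbourhoods. -/
lemma Phi_le_site_model {I : ι × ι → ℝ} (hI : ∀ e, 0 ≤ I e) {μ : ι → (ι → Bool) → ℝ}
    (hμ : IsP μ)
    (hav : ∀ x (S : Finset ι), x ∉ S →
      ∑ a, μ x a * ind (∀ z ∈ S, a z = false) ≤ exp (-∑ z ∈ S, I (x, z))) :
    Phi o T I ≤ Ex μ (fun ω => ind (conn o T (fun e => ω e.1 e.2))) := by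
  classical
  unfold Phi
  rw [Ex_curry]
  refine Ex_le_of_site (isP_bw hI).curry hμ fun x ω => ?_
  set ω0 : ι × ι → Bool := fun e => Function.update ω x (fun _ => false) e.1 e.2 with hω0
  let S : Finset ι := univ.filter fun z => conn z T ω0
  have hm : ∀ (a : ι → Bool) e, ω0 e = true → Function.update ω x a e.1 e.2 = true := by
    intro a e he
    by_cases h : e.1 = x
    · simp [ω0, h] at he
    · simpa [ω0, h] using he
  have key : ∀ a : ι → Bool, conn o T (fun e => Function.update ω x a e.1 e.2) ↔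
      conn o T ω0 ∨ (Reach ω0 o x ∧ ∃ z ∈ S, a z = true) := by
    intro a
    constructor
    · rintro ⟨t, ht, hr⟩
      have k2 : ∀ v, Reach (fun e => Function.update ω x a e.1 e.2) o v →
          Reach ω0 o v ∨ (Reach ω0 o x ∧ ∃ z, a z = true ∧ Reach ω0 z v) := by
        intro v hv
        induction hv with
        | refl => exact Or.inl Relation.ReflTransGen.refl
        | @tail b c hob hbc ih =>
          by_cases hb : b = x
          · subst hb
            refine Or.inr ⟨?_, c, by simpa using hbc, Relation.ReflTransGen.refl⟩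
            rcases ih with ih | ih
            · exact ih
            · exact ih.1
          · have h0 : ω0 (b, c) = true := by simpa [ω0, hb] using hbc
            rcases ih with ih | ⟨h1, z, h2, h3⟩
            · exact Or.inl (ih.tail h0)
            · exact Or.inr ⟨h1, z, h2, h3.tail h0⟩
      rcases k2 t hr with h | ⟨h1, z, h2, h3⟩
      · exact Or.inl ⟨t, ht, h⟩
      · exact Or.inr ⟨h1, z, by simpa [S] using ⟨t, ht, h3⟩, h2⟩
    · rintro (h | ⟨h1, z, hz, h2⟩)
      · exact h.mono (hm a)
      · obtain ⟨t, ht, h3⟩ : conn z T ω0 := by simpa [S] using hz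
        refine ⟨t, ht, ((h1.mono (hm a)).tail ?_).trans (h3.mono (hm a))⟩
        simpa using h2
  simp only [key]
  have hP : IsP (fun e' => bw I (x, e')) := isP_bw (I := fun e' => I (x, e')) fun _ => hI _
  by_cases h0 : conn o T ω0
  · simp only [h0, true_or, ind_pos, mul_one, hμ.sum_one]
    exact le_of_eq ((isP_bw hI).curry.sum_one x)
  by_cases h1 : Reach ω0 o x
  swap
  · simp [h0, h1, ind_neg]
  have hx : x ∉ S := by
    intro hx
    obtain ⟨t, ht, h3⟩ : conn x T ω0 := by simpa [S] using hx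
    exact h0 ⟨t, ht, h1.trans h3⟩
  have e1 : ∀ a : ι → Bool, ind (conn o T ω0 ∨ (Reach ω0 o x ∧ ∃ z ∈ S, a z = true)) =
      1 - ind (∀ z ∈ S, a z = false) := by
    intro a
    rw [← ind_not]
    refine ind_congr ?_
    simp [h0, h1]
  simp only [e1, mul_sub, mul_one, Finset.sum_sub_distrib, hμ.sum_one]
  rw [(isP_bw hI).curry.sum_one x]
  have e2 := Ex_bw_closed (I := fun e' => I (x, e')) (fun _ => hI _) S
  unfold Ex at e2
  have e3 := hav x S hx
  have e4 : ∑ a : ι → Bool, (∏ e', bw I (x, e') (a e')) * ind (∀ z ∈ S, a z = false) =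
      exp (-∑ z ∈ S, I (x, z)) := e2
  linarith

end Pool.Agent.P.MP_e2f79e_pr
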