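import Pool.Agent.P.MP_e2f79e_pr.Site
import Pool.Agent.P.MP_e2f79e_pr.Harris

/-! Replacing Gaussian vertex weights by constants. -/

set_option linter.unusedSectionVars false

namespace Pool.Agent.P.MP_e2f79e_pr

open MeasureTheory ProbabilityTheory Finset Real

variable {ι : Type*} [Fintype ι] [DecidableEq ι] {o : ι} {T : Finset ι}

/-- Edge intensities from conductances, vertex weights and a sprinkling term. -/
def Iw (C : ι → ι → ℝ) (W : ι → ℝ) (σ : ι × ι → ℝ) : ι × ι → ℝ :=
  fun e => 2 * C e.1 e.2 * W e.1 * W e.2 + σ e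

lemma Iw_nonneg {C : ι → ι → ℝ} {W : ι → ℝ} {σ : ι × ι → ℝ} (hC : ∀ a b, 0 ≤ C a b)
    (hW : ∀ a, 0 ≤ W a) (hσ : ∀ e, 0 ≤ σ e) (e : ι × ι) : 0 ≤ Iw C W σ e := by
  have := hC e.1 e.2; have := hW e.1; have := hW e.2; have := hσ e
  unfold Iw; positivity

lemma Iw_mono {C : ι → ι → ℝ} {W W' : ι → ℝ} {σ σ' : ι × ι → ℝ} (hC : ∀ a b, 0 ≤ C a b)
    (hW : ∀ a, 0 ≤ W a) (h : ∀ a, W a ≤ W' a) (hσ : ∀ e, σ e ≤ σ' e) (e : ι × ι) :
    Iw C W σ e ≤ Iw C W' σ' e := by
  have := hC e.1 e.2; have := hW e.1; have := hW e.2; have := hσ e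
  have := h e.1; have := h e.2
  have := (hW e.1).trans (h e.1)
  unfold Iw; gcongr

lemma U01_Phi {X : Type*} [MeasurableSpace X] {C : ι → ι → ℝ} {W : X → ι → ℝ} {σ : ι × ι → ℝ}
    (hC : ∀ a b, 0 ≤ C a b) (hW : ∀ x a, 0 ≤ W x a) (hσ : ∀ e, 0 ≤ σ e)
    (hm : ∀ a, Measurable fun x => W x a) : U01 fun x => Phi o T (Iw C (W x) σ) := by
  refine ⟨measurable_Phi fun e => ?_, fun x => Phi_nonneg (Iw_nonneg hC (hW x) hσ),
    fun x => Phi_le_one (Iw_nonneg hC (hW x) hσ)⟩
  have := hm e.1; have := hm e.2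
  unfold Iw; fun_prop

lemma tangent {c f w : ℝ} (hc0 : 0 ≤ c) (hc1 : c ≤ 1) (hf : 0 ≤ f) (hw : 0 ≤ w) :
    ∃ α β : ℝ, 0 ≤ α ∧ 0 ≤ β ∧ α + β * w = 1 - c * exp (-(w * f)) ∧
      ∀ W, 0 ≤ W → 0 ≤ 1 - c * exp (-(W * f)) ∧ 1 - c * exp (-(W * f)) ≤ α + β * W := by
  refine ⟨1 - c * exp (-(w * f)) * (1 + w * f), c * f * exp (-(w * f)), ?_, by positivity,
    by ring, fun W hW => ⟨?_, ?_⟩⟩
  · have h1 : w * f + 1 ≤ exp (w * f) := add_one_le_exp _
    have h2 : exp (-(w * f)) * exp (w * f) = 1 := by rw [← exp_add]; simp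
    have h3 := exp_pos (-(w * f))
    have h4 : exp (-(w * f)) * (1 + w * f) ≤ 1 := by nlinarith
    have h5 : 0 ≤ exp (-(w * f)) * (1 + w * f) := by positivity
    nlinarith
  · have h1 : exp (-(W * f)) ≤ 1 := by simp; positivity
    have h3 := exp_pos (-(W * f))
    nlinarith
  · have h1 : (w * f - W * f) + 1 ≤ exp (w * f - W * f) := add_one_le_exp _
    have h2 : exp (-(W * f)) = exp (-(w * f)) * exp (w * f - W * f) := by
      rw [← exp_add]; congr 1; ring
    have h3 := exp_pos (-(w * f))
    have h4 : exp (-(w * f)) * ((w * f - W * f) + 1) ≤ exp (-(W * f)) := by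
      rw [h2]; gcongr
    nlinarith [mul_le_mul_of_nonneg_left h4 hc0]

lemma integral_sq_gauss : ∫ u, u ^ 2 ∂(gaussianReal 0 1) = 1 := by
  have h := variance_id_gaussianReal (μ := 0) (v := 1)
  rw [variance_eq_integral (by fun_prop)] at h
  simpa using h

lemma integrable_sq_gauss : Integrable (fun u : ℝ => u ^ 2) (gaussianReal 0 1) :=
  (memLp_id_gaussianReal 2).integrable_sq

lemma jensen_site {C : ι → ι → ℝ} (hC : ∀ a b, 0 ≤ C a b) {W : ι → ℝ} (hW : ∀ a, 0 ≤ W a)
    (x : ι) (β : ℝ) :
    ∫ u, Phi o T (Iw C (Function.update W x (max (β + u) 0)) 0) ∂(gaussianReal 0 1) ≤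
      Phi o T (Iw C (Function.update W x (1 + max β 0)) 0) := by
  have hup : ∀ {t : ℝ}, 0 ≤ t → ∀ a, 0 ≤ Function.update W x t a := by
    intro t ht a
    by_cases h : a = x
    · subst h; simpa using ht
    · simpa [h] using hW a
  have hI : ∀ {t : ℝ}, 0 ≤ t → ∀ e, 0 ≤ Iw C (Function.update W x t) 0 e :=
    fun ht => Iw_nonneg hC (hup ht) (fun _ => le_rfl)
  set b := max β 0 with hb
  have hb0 : 0 ≤ b := le_max_right _ _
  have hw : 0 ≤ 1 + b := by linarith
  have hP := isP_bw (hI hw)
  have hres : ∀ t : ℝ, Phi o T (Iw C (Function.update W x t) 0) =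
      Ex (bw (Iw C (Function.update W x (1 + b)) 0)) (fun ω =>
        Ex (bw (Iw C (Function.update W x t) 0))
          (fun ω' => ind (conn o T ((star x).piecewise ω' ω)))) := by
    intro t
    refine Ex_resample hP (star x) (fun e he => ?_) _
    rw [mem_star, not_or] at he
    funext c
    simp [bw, Iw, he.1, he.2]
  have key : ∀ ω : ι × ι → Bool, ∃ A B : ℝ,
      (A + B ≤ Ex (bw (Iw C (Function.update W x (1 + b)) 0))
          (fun ω' => ind (conn o T ((star x).piecewise ω' ω)))) ∧
      ∀ u, Ex (bw (Iw C (Function.update W x (max (β + u) 0)) 0))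
          (fun ω' => ind (conn o T ((star x).piecewise ω' ω))) ≤ A + B * u ^ 2 := by
    intro ω
    obtain ⟨c0, cF, cS, F, S, h1, h2, h3, h4, h5, h6, hF, hS, h⟩ := Phi_inner (o := o) (T := T) x ω
    set f := ∑ y ∈ F, 2 * C y x * W y with hf
    set s := ∑ z ∈ S, 2 * C x z * W z with hs
    have hf0 : 0 ≤ f := Finset.sum_nonneg fun y _ => by
      have := hC y x; have := hW y; positivity
    have hs0 : 0 ≤ s := Finset.sum_nonneg fun y _ => by
      have := hC x y; have := hW y; positivity
    have e1 : ∀ t, ∑ y ∈ F, Iw C (Function.update W x t) 0 (y, x) = t * f := by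
      intro t
      rw [hf, Finset.mul_sum]
      refine Finset.sum_congr rfl fun y hy => ?_
      have : y ≠ x := fun h => hF (h ▸ hy)
      simp [Iw, this]; ring
    have e2 : ∀ t, ∑ y ∈ S, Iw C (Function.update W x t) 0 (x, y) = t * s := by
      intro t
      rw [hs, Finset.mul_sum]
      refine Finset.sum_congr rfl fun y hy => ?_
      have : y ≠ x := fun h => hS (h ▸ hy)
      simp [Iw, this]; ring
    obtain ⟨α, β1, a1, a2, a3, a4⟩ := tangent h3 h4 hf0 hw
    obtain ⟨α', β', b1, b2, b3, b4⟩ := tangent h5 h6 hs0 hw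
    refine ⟨c0 + (1 - c0) * (α * α' + (α * β' + α' * β1) * (b + 1 / 2) + β1 * β' * (b ^ 2 + b)),
      (1 - c0) * ((α * β' + α' * β1) * (1 / 2) + β1 * β' * (b + 1)), ?_, fun u => ?_⟩
    · rw [h _ (hI hw), e1, e2, ← a3, ← b3]
      exact le_of_eq (by ring)
    · have ht : 0 ≤ max (β + u) 0 := le_max_right _ _
      rw [h _ (hI ht), e1, e2]
      set t := max (β + u) 0 with htdef
      obtain ⟨c1, c2⟩ := a4 t ht
      obtain ⟨d1, d2⟩ := b4 t ht
      have t1 : t ≤ b + |u| := by
        refine max_le ?_ (by positivity)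
        linarith [le_max_left β 0, le_abs_self u]
      have u1 : |u| ≤ (1 + u ^ 2) / 2 := by nlinarith [sq_abs u, sq_nonneg (|u| - 1)]
      have t2 : t ≤ b + 1 / 2 + u ^ 2 / 2 := by linarith
      have t3 : t ^ 2 ≤ b ^ 2 + b + (b + 1) * u ^ 2 := by
        have : t ^ 2 ≤ (b + |u|) ^ 2 := by gcongr
        nlinarith [sq_abs u, mul_le_mul_of_nonneg_left u1 hb0]
      have p1 : (1 - cF * exp (-(t * f))) * (1 - cS * exp (-(t * s))) ≤
          (α + β1 * t) * (α' + β' * t) := mul_le_mul c2 d2 d1 (c1.trans c2)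
      have p2 : (α + β1 * t) * (α' + β' * t) ≤
          α * α' + (α * β' + α' * β1) * (b + 1 / 2 + u ^ 2 / 2) +
            β1 * β' * (b ^ 2 + b + (b + 1) * u ^ 2) := by
        have q1 : (α * β' + α' * β1) * t ≤ (α * β' + α' * β1) * (b + 1 / 2 + u ^ 2 / 2) := by
          gcongr
        have q2 : β1 * β' * t ^ 2 ≤ β1 * β' * (b ^ 2 + b + (b + 1) * u ^ 2) := by gcongr
        nlinarith
      have p3 := mul_le_mul_of_nonneg_left (p1.trans p2) (sub_nonneg.2 h2)
      linarith
  choose A B hAB hu using key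
  set μ0 := bw (Iw C (Function.update W x (1 + b)) 0) with hμ0
  have h1 : ∀ u, Phi o T (Iw C (Function.update W x (max (β + u) 0)) 0) ≤
      Ex μ0 A + Ex μ0 B * u ^ 2 := by
    intro u
    rw [hres, mul_comm, ← Ex_mul_left, ← Ex_add]
    exact Ex_mono hP fun ω => by rw [mul_comm]; exact hu ω u
  have hU : U01 fun u : ℝ => Phi o T (Iw C (Function.update W x (max (β + u) 0)) 0) := by
    refine U01_Phi hC (fun u => hup (le_max_right _ _)) (fun _ => le_rfl) fun a => ?_
    by_cases h : a = x
    · subst h; simp only [Function.update_self]; fun_prop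
    · simp only [Function.update_of_ne h]; fun_prop
  have h2 := integral_mono (hU.integrable (gaussianReal 0 1))
    ((integrable_const _).add (integrable_sq_gauss.const_mul _)) h1
  refine h2.trans ?_
  rw [integral_add' (integrable_const _) (integrable_sq_gauss.const_mul _), integral_const_mul,
    integral_sq_gauss, hres]
  simp only [integral_const, probReal_univ, smul_eq_mul, one_mul, mul_one]
  rw [← Ex_add]
  exact Ex_mono hP hAB

lemma jensen_all {C : ι → ι → ℝ} (hC : ∀ a b, 0 ≤ C a b) (β : ι → ℝ) :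
    ∫ ξ, Phi o T (Iw C (fun a => max (β a + ξ a) 0) 0) ∂(gam ι) ≤
      Phi o T (Iw C (fun a => 1 + max (β a) 0) 0) := by
  let Ws : Finset ι → (ι → ℝ) → ι → ℝ := fun s ξ a =>
    if a ∈ s then 1 + max (β a) 0 else max (β a + ξ a) 0
  have hWs : ∀ s ξ a, 0 ≤ Ws s ξ a := by
    intro s ξ a; simp only [Ws]; split_ifs <;> positivity
  have hU : ∀ s, U01 fun ξ => Phi o T (Iw C (Ws s ξ) 0) := by
    intro s
    refine U01_Phi hC (hWs s) (fun _ => le_rfl) fun a => ?_
    simp only [Ws]; split_ifs <;> fun_prop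
  have key : ∀ s : Finset ι, ∫ ξ, Phi o T (Iw C (fun a => max (β a + ξ a) 0) 0) ∂(gam ι) ≤
      ∫ ξ, Phi o T (Iw C (Ws s ξ) 0) ∂(gam ι) := by
    intro s
    induction s using Finset.induction_on with
    | empty => simp [Ws]
    | insert x s hx ih =>
      refine ih.trans ?_
      rw [integral_update _ (hU s) x]
      have hm : Measurable fun p : (ι → ℝ) × ℝ => Function.update p.1 x p.2 := by fun_prop
      refine integral_mono ((((hU s).comp hm).integral_right _).integrable _)
        ((hU _).integrable _) fun ξ => ?_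
      have e1 : ∀ u, Ws s (Function.update ξ x u) =
          Function.update (Ws s ξ) x (max (β x + u) 0) := by
        intro u; funext a
        by_cases h : a = x
        · subst h; simp [Ws, hx]
        · simp [Ws, h]
      have e2 : Ws (insert x s) ξ = Function.update (Ws s ξ) x (1 + max (β x) 0) := by
        funext a
        by_cases h : a = x
        · subst h; simp [Ws]
        · simp [Ws, h]
      simp only [e1, e2]
      exact jensen_site hC (hWs s ξ) x (β x)
  refine (key Finset.univ).trans (le_of_eq ?_)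
  simp [Ws]

lemma Ex_open_indep (E1 : Finset (ι × ι)) {I I' : ι × ι → ℝ} (hI : ∀ e, 0 ≤ I e)
    (hI' : ∀ e, 0 ≤ I' e) (h : ∀ e, e ∉ E1 → I e = I' e) :
    Ex (bw I) (fun ω => ind (conn o T (fun e => ω e || decide (e ∈ E1)))) =
      Ex (bw I') (fun ω => ind (conn o T (fun e => ω e || decide (e ∈ E1)))) := by
  refine Ex_congr_of_indep (isP_bw hI) (isP_bw hI') E1 (fun e he => ?_) fun ω ω' => ?_
  · funext b; simp [bw, h e he]
  · congr 2
    funext e
    by_cases he : e ∈ E1 <;> simp [he]

lemma Ex_bad (E1 : Finset (ι × ι)) (I : ι × ι → ℝ) :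
    Ex (bw I) (fun ω => ind (¬ conn o T ω ∧ conn o T (fun e => ω e || decide (e ∈ E1)))) =
      Ex (bw I) (fun ω => ind (conn o T (fun e => ω e || decide (e ∈ E1)))) - Phi o T I := by
  unfold Phi
  rw [← Ex_sub]
  congr 1
  funext ω
  by_cases h : conn o T ω
  · have : conn o T (fun e => ω e || decide (e ∈ E1)) := h.mono fun e he => by simp [he]
    simp [ind, h, this]
  · rw [ind_neg h, sub_zero]
    exact ind_congr (and_iff_right h)

/-- Removing one finite range Gaussian layer at the price of some sprinkling. -/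
lemma remove_layer {D : ι → ι → ℕ} (hDs : ∀ a b, D a b = D b a) (hD0 : ∀ a, D a a = 0)
    (hDt : ∀ a b c, D a c ≤ D a b + D b c) {C M : ι → ι → ℝ} (hC : ∀ a b, 0 ≤ C a b)
    (hM : ∀ a b, 0 ≤ M a b) {L0 L1 ℓ R n N : ℕ} (hCL : ∀ a b, C a b ≠ 0 → D a b ≤ L0)
    (hML : ∀ a b, M a b ≠ 0 → D a b ≤ L1) {a v s : ℝ} (ha : 0 ≤ a) (hv : 0 < v) (hs : 0 ≤ s)
    (hvar : ∀ x, ∑ z, M x z ^ 2 ≤ v)
    (hch : ∀ x u w, D x u ≤ 2 * L1 + L0 → D x w ≤ 2 * L1 + L0 →
      ∃ Ec : Finset (ι × ι), Ec.card ≤ n ∧ (∀ e ∈ Ec, D e.1 e.2 ≤ ℓ ∧ D x e.1 ≤ R) ∧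
        ∀ ω : ι × ι → Bool, (∀ e ∈ Ec, ω e = true) → Reach ω u w ∨ conn u T ω)
    (hq : exp (-a ^ 2 / (2 * v)) ≤ (1 - exp (-s)) ^ n)
    (hN : ∀ y, (univ.filter fun x => D x y ≤ R).card ≤ N)
    (β : ι → ℝ) {σ : ι × ι → ℝ} (hσ : ∀ e, 0 ≤ σ e) :
    ∫ ζ, Phi o T (Iw C (fun y => 1 + max (β y + ∑ z, M y z * ζ z) 0) σ) ∂(gam ι) ≤
      Phi o T (Iw C (fun y => 1 + max (β y + a) 0)
        (fun e => σ e + if D e.1 e.2 ≤ ℓ then N * s else 0)) := by
  let W : Finset ι → (ι → ℝ) → ι → ℝ := fun P ζ y =>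
    1 + max (β y + if y ∈ P then a else ∑ z, M y z * ζ z) 0
  let sp : ι → ι × ι → ℝ := fun x e => if D e.1 e.2 ≤ ℓ ∧ D x e.1 ≤ R then s else 0
  let σP : Finset ι → ι × ι → ℝ := fun P e => σ e + ∑ x ∈ P, sp x e
  have hW : ∀ P ζ y, 0 ≤ W P ζ y := by intro P ζ y; simp only [W]; positivity
  have hsp : ∀ x e, 0 ≤ sp x e := by intro x e; simp only [sp]; split_ifs <;> simp [hs]
  have hσP : ∀ P e, 0 ≤ σP P e := fun P e =>
    add_nonneg (hσ e) (Finset.sum_nonneg fun x _ => hsp x e)
  have hWm : ∀ P y, Measurable fun ζ => W P ζ y := by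
    intro P y; simp only [W]; split_ifs <;> fun_prop
  have hU : ∀ P Q, U01 fun ζ => Phi o T (Iw C (W P ζ) (σP Q)) :=
    fun P Q => U01_Phi hC (hW P) (hσP Q) (hWm P)
  have hI : ∀ P Q ζ e, 0 ≤ Iw C (W P ζ) (σP Q) e := fun P Q ζ => Iw_nonneg hC (hW P ζ) (hσP Q)
  have key : ∀ P : Finset ι,
      ∫ ζ, Phi o T (Iw C (fun y => 1 + max (β y + ∑ z, M y z * ζ z) 0) σ) ∂(gam ι) ≤
      ∫ ζ, Phi o T (Iw C (W P ζ) (σP P)) ∂(gam ι) := by
    intro P
    induction P using Finset.induction_on with
    | empty => simp [W, σP]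
    | insert x P hx ih =>
      refine ih.trans ?_
      let E1 : Finset (ι × ι) :=
        univ.filter fun e => C e.1 e.2 ≠ 0 ∧ (D x e.1 ≤ 2 * L1 ∨ D x e.2 ≤ 2 * L1)
      let bad : (ι × ι → Bool) → Prop := fun ω =>
        ¬ conn o T ω ∧ conn o T (fun e => ω e || decide (e ∈ E1))
      let G : (ι → ℝ) → ℝ := fun ζ => Ex (bw (Iw C (W (insert x P) ζ) (σP P))) (fun ω => ind (bad ω))
      let f : (ι → ℝ) → ℝ := Set.indicator {ζ | a ≤ ∑ z, M x z * ζ z} (fun _ => 1)
      have hfm : MeasurableSet {ζ : ι → ℝ | a ≤ ∑ z, M x z * ζ z} :=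
        measurableSet_le measurable_const (by fun_prop)
      have hf : U01 f := U01.indicator hfm
      have hG : U01 G := by
        refine ⟨measurable_Ex (measurable_bw fun e => ?_) _,
          fun ζ => Ex_nonneg (isP_bw (hI _ _ _)) fun _ => ind_nonneg _,
          fun ζ => Ex_le_const (isP_bw (hI _ _ _)) fun _ => ind_le_one _⟩
        have := hWm (insert x P) e.1; have := hWm (insert x P) e.2
        unfold Iw; fun_prop
      -- intensities agree off `E1`
      have hoff : ∀ W1 W2 : ι → ℝ, (∀ y, ¬ D x y ≤ 2 * L1 → W1 y = W2 y) →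
          ∀ e, e ∉ E1 → Iw C W1 (σP P) e = Iw C W2 (σP P) e := by
        intro W1 W2 h e he
        simp only [E1, Finset.mem_filter, Finset.mem_univ, true_and, not_and_or, not_or,
          not_not] at he
        rcases he with he | he
        · simp [Iw, he]
        · simp [Iw, h _ he.1, h _ he.2]
      have s1 : ∀ ζ, Phi o T (Iw C (W P ζ) (σP P)) ≤
          Phi o T (Iw C (W (insert x P) ζ) (σP P)) + f ζ * G ζ := by
        intro ζ
        by_cases h : a ≤ ∑ z, M x z * ζ z
        · have hf1 : f ζ = 1 := Set.indicator_of_mem (s := {ζ : ι → ℝ | a ≤ ∑ z, M x z * ζ z}) h _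
          rw [hf1, one_mul]
          simp only [G, bad]
          rw [Ex_bad, add_sub_cancel,
            ← Ex_open_indep E1 (hI P P ζ) (hI _ _ _) (hoff _ _ fun y hy => ?_)]
          · exact Ex_mono (isP_bw (hI _ _ _)) fun ω =>
              ind_mono (conn.mono fun e he => by simp [he])
          · have : y ≠ x := by rintro rfl; simp [hD0] at hy
            simp [W, this]
        · have h1 := mul_nonneg (hf.nonneg ζ) (hG.nonneg ζ)
          refine le_add_of_le_of_nonneg (Phi_mono (hI _ _ _)
            (Iw_mono hC (hW _ _) (fun y => ?_) fun _ => le_rfl)) h1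
          by_cases hy : y = x
          · subst hy
            simp only [W, hx, if_false, Finset.mem_insert_self, if_true]
            have := le_of_lt (not_le.1 h)
            gcongr
          · simp [W, hy]
      have s2 : ∀ ζ, Phi o T (Iw C (W (insert x P) ζ) (σP P)) + (1 - exp (-s)) ^ n * G ζ ≤
          Phi o T (Iw C (W (insert x P) ζ) (σP (insert x P))) := by
        intro ζ
        have e1 : Iw C (W (insert x P) ζ) (σP (insert x P)) =
            fun e => Iw C (W (insert x P) ζ) (σP P) e + sp x e := by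
          funext e; simp only [Iw, σP, Finset.sum_insert hx]; ring
        rw [e1]
        refine Phi_sprinkle (hI _ _ _) (hsp x) bad hs n (fun ω h => h.1) fun ω h => ?_
        obtain ⟨e, he, e', he', h1, h2⟩ := exists_ends E1 h.1 h.2
        simp only [E1, Finset.mem_filter, Finset.mem_univ, true_and] at he he'
        have d1 : D x e.1 ≤ 2 * L1 + L0 := by
          rcases he.2 with h3 | h3
          · omega
          · have := hDt x e.2 e.1; have := hCL _ _ he.1; have := hDs e.1 e.2; omega
        have d2 : D x e'.2 ≤ 2 * L1 + L0 := by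
          rcases he'.2 with h3 | h3
          · have := hDt x e'.1 e'.2; have := hCL _ _ he'.1; omega
          · omega
        obtain ⟨Ec, c1, c2, c3⟩ := hch x e.1 e'.2 d1 d2
        refine ⟨Ec, c1, fun e he => by simp [sp, c2 e he], fun ω' h3 h4 => ?_⟩
        rcases c3 ω' h4 with h5 | ⟨t, ht, h5⟩
        · obtain ⟨t, ht, h6⟩ := h2
          exact ⟨t, ht, ((h1.mono h3).trans h5).trans (h6.mono h3)⟩
        · exact ⟨t, ht, (h1.mono h3).trans h5⟩
      have s3 : ∫ ζ, f ζ * G ζ ∂(gam ι) ≤ (1 - exp (-s)) ^ n * ∫ ζ, G ζ ∂(gam ι) := by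
        have hsum : ∀ y (ζ : ι → ℝ) z u u', u ≤ u' → ∑ z', M y z' * Function.update ζ z u z' ≤
            ∑ z', M y z' * Function.update ζ z u' z' := by
          intro y ζ z u u' h
          refine Finset.sum_le_sum fun z' _ => mul_le_mul_of_nonneg_left ?_ (hM _ _)
          exact Function.update_mono h z'
        have := harris (gaussianReal 0 1) hf hG (univ.filter fun z => M x z ≠ 0) ?_ ?_ ?_
        · refine this.trans (mul_le_mul_of_nonneg_right ?_ (integral_nonneg hG.nonneg))
          refine le_trans ?_ hq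
          simp only [f]
          rw [integral_indicator hfm]
          simpa using gam_tail (M x) hv (hvar x) ha
        · intro ω ω'
          have : ∑ z, M x z * (univ.filter fun z => M x z ≠ 0).piecewise ω ω' z =
              ∑ z, M x z * ω z := by
            refine Finset.sum_congr rfl fun z _ => ?_
            by_cases h : M x z = 0 <;> simp [h, Finset.piecewise]
          simp only [f, Set.indicator, Set.mem_ofPred_eq, this]
        · intro z _ ω u u' h
          simp only [f, Set.indicator, Set.mem_ofPred_eq]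
          have := hsum x ω z u u' h
          split_ifs with h1 h2
          · exact le_rfl
          · exact absurd (h1.trans this) h2
          · exact zero_le_one
          · exact le_rfl
        · intro z hz ω u u' h
          simp only [Finset.mem_filter, Finset.mem_univ, true_and] at hz
          simp only [G, bad]
          rw [Ex_bad, Ex_bad, Ex_open_indep E1 (hI _ P (Function.update ω z u'))
            (hI (insert x P) P (Function.update ω z u)) (hoff _ _ fun y hy => ?_)]
          · refine sub_le_sub_left (Phi_mono (hI _ _ _)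
              (Iw_mono hC (hW _ _) (fun y => ?_) fun _ => le_rfl)) _
            simp only [W]
            split_ifs
            · exact le_rfl
            · have := hsum y ω z u u' h
              gcongr
          · have hyz : M y z = 0 := by
              by_contra h1
              have := hML _ _ h1; have := hML _ _ hz; have := hDt x z y; have := hDs y z
              omega
            have : ∀ u, ∑ z', M y z' * Function.update ω z u z' = ∑ z', M y z' * ω z' := by
              intro u
              refine Finset.sum_congr rfl fun z' _ => ?_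
              by_cases h1 : z' = z
              · subst h1; simp [hyz]
              · simp [h1]
            simp only [W, this]
      have i1 := (hU P P).integrable (gam ι)
      have i2 := (hU (insert x P) P).integrable (gam ι)
      have i3 := (hU (insert x P) (insert x P)).integrable (gam ι)
      have i4 := (hf.mul hG).integrable (gam ι)
      have i5 := (hG.integrable (gam ι)).const_mul ((1 - exp (-s)) ^ n)
      have j1 := integral_mono i1 (i2.add i4) s1
      have j2 := integral_mono (i2.add i5) i3 s2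
      rw [integral_add' i2 i4] at j1
      rw [integral_add' i2 i5, integral_const_mul] at j2
      linarith
  refine (key Finset.univ).trans ?_
  simp only [W, Finset.mem_univ, if_true, integral_const, probReal_univ, smul_eq_mul, one_mul]
  refine Phi_mono (Iw_nonneg hC (fun y => by positivity) (hσP _))
    (Iw_mono hC (fun y => by positivity) (fun _ => le_rfl) fun e => ?_)
  simp only [σP, sp]
  gcongr
  by_cases h : D e.1 e.2 ≤ ℓ
  · simp only [h, true_and, if_true]
    rw [← Finset.sum_filter, Finset.sum_const, nsmul_eq_mul]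
    have : ((univ.filter fun x => D x e.1 ≤ R).card : ℝ) ≤ N := by exact_mod_cast hN e.1
    gcongr
  · simp [h]

end Pool.Agent.P.MP_e2f79e_pr
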