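import Pool.Agent.P.MP_e2f79e_pr.Heat

/-! The network attached to a finite relatively dense family of vertices. -/

set_option linter.unusedSectionVars false

namespace Pool.Agent.P.MP_e2f79e_pr

open Finset Matrix Real

variable {V : Type*} [DecidableEq V] {G : SimpleGraph V} [G.LocallyFinite] {Δ : ℕ} {X : Set V}
  {ι : Type*} [Fintype ι] [DecidableEq ι] {y : ι → V}

variable (G Δ X) in
/-- The lazy trace matrix. -/
noncomputable def Bm (T : ℕ) (y : ι → V) : Matrix ι ι ℝ := fun a b =>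
  AT G Δ X T (y a) (y b) / 2 + if a = b then (1 + mis G Δ X T (y a)) / 2 else 0

lemma Bm_symm (T : ℕ) (a b : ι) : Bm G Δ X T y a b = Bm G Δ X T y b a := by
  unfold Bm
  rw [AT_symm]
  by_cases h : a = b
  · subst h; rfl
  · simp [h, Ne.symm h]

lemma Bm_nonneg (T : ℕ) (a b : ι) : 0 ≤ Bm G Δ X T y a b := by
  have := AT_nonneg (G := G) (Δ := Δ) (X := X) T (y a) (y b)
  have := mis_nonneg (G := G) (Δ := Δ) (X := X) T (y a)
  unfold Bm; split_ifs <;> positivity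

lemma Bm_range (hc : G.Connected) (T : ℕ) (a b : ι) (h : Bm G Δ X T y a b ≠ 0) :
    G.dist (y a) (y b) ≤ T := by
  by_cases hab : a = b
  · simp [hab]
  · refine AT_range (Δ := Δ) (X := X) hc T _ _ fun h' => h ?_
    simp [Bm, hab, h']

lemma Bm_mulVec (T : ℕ) (f : ι → ℝ) (a : ι) : (Bm G Δ X T y *ᵥ f) a =
    (∑ b, AT G Δ X T (y a) (y b) * f b) / 2 + (1 + mis G Δ X T (y a)) / 2 * f a := by
  simp only [mulVec, dotProduct, Bm, add_mul, Finset.sum_add_distrib, ite_mul, zero_mul,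
    Finset.sum_ite_eq, Finset.mem_univ, if_true, Finset.sum_div]
  congr 1
  exact Finset.sum_congr rfl fun b _ => by ring

lemma sum_image_y (hy : Function.Injective y) (f : V → ℝ) :
    ∑ w ∈ univ.image y, f w = ∑ b, f (y b) := Finset.sum_image fun _ _ _ _ h => hy h

lemma AT_row_y (hc : G.Connected) (hreg : G.IsRegularOfDegree Δ) (hΔ : 0 < Δ)
    (hy : Function.Injective y) (hX : ∀ a, y a ∈ X) (T : ℕ) (v : V) :
    ∑ b, AT G Δ X T v (y b) ≤ 1 - mis G Δ X T v := by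
  rw [← sum_image_y hy (fun w => AT G Δ X T v w)]
  refine AT_row_le hc hreg hΔ _ (fun w hw => ?_) T v
  obtain ⟨a, _, rfl⟩ := Finset.mem_image.1 hw
  exact hX a

lemma Bm_row (T : ℕ) (a : ι) : ∑ b, Bm G Δ X T y a b =
    (∑ b, AT G Δ X T (y a) (y b)) / 2 + (1 + mis G Δ X T (y a)) / 2 := by
  have := Bm_mulVec (G := G) (Δ := Δ) (X := X) (y := y) T (fun _ => 1) a
  simpa [mulVec, dotProduct] using this

lemma Bm_row_le (hc : G.Connected) (hreg : G.IsRegularOfDegree Δ) (hΔ : 0 < Δ)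
    (hy : Function.Injective y) (hX : ∀ a, y a ∈ X) (T : ℕ) (a : ι) :
    ∑ b, Bm G Δ X T y a b ≤ 1 := by
  rw [Bm_row]
  linarith [AT_row_y hc hreg hΔ hy hX T (y a)]

lemma Bm_pow_row (hc : G.Connected) (hreg : G.IsRegularOfDegree Δ) (hΔ : 0 < Δ)
    (hy : Function.Injective y) (hX : ∀ a, y a ∈ X) {o : V} {ρ : ℕ}
    (hfar : ∀ w ∈ X, G.dist o w ≤ ρ → ∃ a, y a = w) (T i : ℕ) :
    ∀ a, G.dist o (y a) + i * T ≤ ρ → ∑ b, (Bm G Δ X T y ^ i) a b = 1 := by
  induction i with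
  | zero => intro a _; simp [one_apply]
  | succ i ih =>
    intro a ha
    rw [Nat.succ_mul] at ha
    simp only [pow_succ', mul_apply]
    rw [Finset.sum_comm]
    have e1 : ∑ b, Bm G Δ X T y a b = 1 := by
      rw [Bm_row, ← sum_image_y hy (fun w => AT G Δ X T (y a) w), AT_row hc hreg hΔ]
      · ring
      · intro w hw
        obtain ⟨a, _, rfl⟩ := Finset.mem_image.1 hw
        exact hX a
      · intro w hw h
        have := hc.dist_triangle (u := o) (v := y a) (w := w)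
        obtain ⟨b, rfl⟩ := hfar w hw (by omega)
        exact Finset.mem_image_of_mem _ (Finset.mem_univ _)
    rw [← e1]
    refine Finset.sum_congr rfl fun b _ => ?_
    rw [← Finset.mul_sum]
    by_cases h : Bm G Δ X T y a b = 0
    · simp [h]
    · have h1 := Bm_range hc T a b h
      have := hc.dist_triangle (u := o) (v := y a) (w := y b)
      rw [ih b (by omega), mul_one]

lemma Bm_dirichlet (hc : G.Connected) (hreg : G.IsRegularOfDegree Δ) (hΔ : 0 < Δ)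
    (hy : Function.Injective y) (hX : ∀ a, y a ∈ X) (T : ℕ) (f : ι → ℝ) :
    (∑ a, (1 - mis G Δ X T (y a)) * f a ^ 2 -
      ∑ a, ∑ b, AT G Δ X T (y a) (y b) * (f a * f b)) / 2 ≤
      ∑ a, f a ^ 2 - ∑ a, (Bm G Δ X T y *ᵥ f) a ^ 2 := by
  let A : Matrix ι ι ℝ := fun a b =>
    AT G Δ X T (y a) (y b) + if a = b then mis G Δ X T (y a) else 0
  have hA : ∀ a, (A *ᵥ f) a = ∑ b, AT G Δ X T (y a) (y b) * f b + mis G Δ X T (y a) * f a := by
    intro a
    simp only [mulVec, dotProduct, A, add_mul, Finset.sum_add_distrib, ite_mul, zero_mul,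
      Finset.sum_ite_eq, Finset.mem_univ, if_true]
  have h1 := sq_contract (B := A) (fun a b => by
      simp only [A]
      rw [AT_symm]
      by_cases h : a = b
      · subst h; rfl
      · simp [h, Ne.symm h])
    (fun a b => by
      have := AT_nonneg (G := G) (Δ := Δ) (X := X) T (y a) (y b)
      have := mis_nonneg (G := G) (Δ := Δ) (X := X) T (y a)
      simp only [A]; split_ifs <;> positivity)
    (fun a => by
      simp only [A, Finset.sum_add_distrib, Finset.sum_ite_eq, Finset.mem_univ, if_true]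
      linarith [AT_row_y hc hreg hΔ hy hX T (y a)]) f
  have h2 : ∀ a, (Bm G Δ X T y *ᵥ f) a ^ 2 =
      (f a ^ 2 + (A *ᵥ f) a ^ 2) / 4 + (∑ b, AT G Δ X T (y a) (y b) * (f a * f b) +
        mis G Δ X T (y a) * f a ^ 2) / 2 := by
    intro a
    have : ∑ b, AT G Δ X T (y a) (y b) * (f a * f b) = f a * ∑ b, AT G Δ X T (y a) (y b) * f b := by
      rw [Finset.mul_sum]; exact Finset.sum_congr rfl fun b _ => by ring
    rw [Bm_mulVec, hA, this]; ring
  simp only [h2, Finset.sum_add_distrib, ← Finset.sum_div, sub_mul, one_mul,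
    Finset.sum_sub_distrib]
  linarith

lemma sum_le_fiber {α β : Type*} [DecidableEq β] (s : Finset α) (t : Finset β) (g : α → β)
    (hg : ∀ a ∈ s, g a ∈ t) (n : ℕ) (hn : ∀ b ∈ t, (s.filter fun a => g a = b).card ≤ n)
    (F : β → ℝ) (hF : ∀ b, 0 ≤ F b) : ∑ a ∈ s, F (g a) ≤ n * ∑ b ∈ t, F b := by
  rw [← Finset.sum_fiberwise_of_maps_to hg, Finset.mul_sum]
  refine Finset.sum_le_sum fun b hb => ?_
  rw [Finset.sum_congr rfl (g := fun _ => F b) fun a ha => by rw [(Finset.mem_filter.1 ha).2],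
    Finset.sum_const, nsmul_eq_mul]
  exact mul_le_mul_of_nonneg_right (by exact_mod_cast hn b hb) (hF b)

lemma Bm_nash (hc : G.Connected) (ht : VertexTransitive G) (ha : Amenable G)
    (hreg : G.IsRegularOfDegree Δ) (hΔ : 0 < Δ) (o : V)
    (hy : Function.Injective y) (hX : ∀ a, y a ∈ X) {R : ℕ} (hR : ∀ v, ∃ x ∈ X, G.dist v x ≤ R)
    {T : ℕ} (hT : 2 * R + 1 ≤ T) (f : ι → ℝ) (r : ℕ) :
    ∑ a, f a ^ 2 ≤ 4 * ((Δ + 1) ^ R * Δ * Δ ^ (2 * R + 1)) * r ^ 2 *
      (∑ a, f a ^ 2 - ∑ a, (Bm G Δ X T y *ᵥ f) a ^ 2) +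
        2 * ((Δ + 1) ^ R) ^ 2 * (∑ a, |f a|) ^ 2 / growth G o r := by
  classical
  obtain ⟨pr, p1, p2, p3, p4⟩ := exists_pi hc hΔ hR
  let F : V → ℝ := Function.extend y f 0
  have hF1 : ∀ a, F (y a) = f a := fun a => hy.extend_apply _ _ a
  have hF2 : ∀ w, w ∉ univ.image y → F w = 0 := by
    intro w hw
    refine Function.extend_apply' _ _ _ fun ⟨a, h⟩ => hw ?_
    exact h ▸ Finset.mem_image_of_mem _ (Finset.mem_univ _)
  let Y : Finset V := univ.image y
  let A : Finset V := Y.biUnion fun w => ballF G w R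
  let B : Finset V := Y.biUnion fun w => ballF G w (R + 1)
  let B2 : Finset V := Y.biUnion fun w => ballF G w (R + 2)
  let Z : Finset V := B2.image pr
  have hA : ∀ x, x ∉ A → F (pr x) = 0 := by
    intro x hx
    refine hF2 _ fun h => hx (Finset.mem_biUnion.2 ⟨pr x, h, (mem_ballF hc).2 ?_⟩)
    rw [SimpleGraph.dist_comm]; exact p2 x
  have hB : ∀ z, z ∉ B → En G (fun x => F (pr x)) z = 0 := by
    intro z hz
    have key : ∀ x, G.dist z x ≤ 1 → F (pr x) = 0 := by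
      intro x hx
      refine hA x fun h => hz ?_
      obtain ⟨w, hw, h⟩ := Finset.mem_biUnion.1 h
      refine Finset.mem_biUnion.2 ⟨w, hw, ?_⟩
      rw [mem_ballF hc] at h ⊢
      have := hc.dist_triangle (u := w) (v := x) (w := z)
      rw [SimpleGraph.dist_comm (u := x)] at this
      omega
    refine Finset.sum_eq_zero fun z' hz' => ?_
    beta_reduce
    rw [key z (by simp), key z' (SimpleGraph.dist_eq_one_iff_adj.2
      ((G.mem_neighborFinset _ _).1 hz')).le]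
    simp
  have hYZ : Y ⊆ Z := by
    intro w hw
    obtain ⟨a, _, rfl⟩ := Finset.mem_image.1 hw
    refine Finset.mem_image.2 ⟨y a, Finset.mem_biUnion.2 ⟨y a, hw, (mem_ballF hc).2 (by simp)⟩,
      p3 _ (hX a)⟩
  have hZX : ∀ w ∈ Z, w ∈ X := by
    intro w hw
    obtain ⟨a, _, rfl⟩ := Finset.mem_image.1 hw
    exact p1 a
  have hsumZ : ∀ g : V → ℝ, ∑ w ∈ Z, g w * F w = ∑ a, g (y a) * f a := by
    intro g
    rw [← Finset.sum_subset hYZ fun w _ hw => by rw [hF2 w hw, mul_zero], sum_image_y hy]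
    simp only [hF1]
  have hfib : ∀ (s : Finset V) w, (s.filter fun v => pr v = w).card ≤ (Δ + 1) ^ R := by
    intro s w
    refine le_trans (Finset.card_le_card fun v hv => ?_) (card_ballF_le hreg w R)
    rw [mem_ballF hc, ← (Finset.mem_filter.1 hv).2, SimpleGraph.dist_comm]
    exact p2 v
  have hN := nash hc ht ha o (fun x => F (pr x)) A B hA hB r
  have h1 : ∑ a, f a ^ 2 ≤ ∑ x ∈ A, F (pr x) ^ 2 := by
    have : ∑ a, f a ^ 2 = ∑ w ∈ Y, F (pr w) ^ 2 := by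
      rw [sum_image_y hy]
      exact Finset.sum_congr rfl fun a _ => by rw [p3 _ (hX a), hF1]
    rw [this]
    refine Finset.sum_le_sum_of_subset_of_nonneg (fun w hw => ?_) fun _ _ _ => sq_nonneg _
    exact Finset.mem_biUnion.2 ⟨w, hw, (mem_ballF hc).2 (by simp)⟩
  have hsub : ∀ {k : ℕ}, k ≤ R + 2 → ∀ v ∈ Y.biUnion fun w => ballF G w k, pr v ∈ Z := by
    intro k hk v hv
    obtain ⟨w, hw, h⟩ := Finset.mem_biUnion.1 hv
    refine Finset.mem_image_of_mem _ (Finset.mem_biUnion.2 ⟨w, hw, ?_⟩)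
    rw [mem_ballF hc] at h ⊢; omega
  have h2 : ∑ x ∈ A, |F (pr x)| ≤ (Δ + 1) ^ R * ∑ a, |f a| := by
    have := sum_le_fiber A Z pr (hsub (by omega)) _ (fun w _ => hfib A w) (fun w => |F w|)
      fun _ => abs_nonneg _
    rw [← Finset.sum_subset hYZ fun w _ hw => by rw [hF2 w hw, abs_zero], sum_image_y hy] at this
    simpa [hF1] using this
  let Ψ : V × V → ℝ := fun p => AT G Δ X T p.1 p.2 * (F p.1 - F p.2) ^ 2
  have hΨ : ∀ p, 0 ≤ Ψ p := fun p => mul_nonneg (AT_nonneg _ _ _) (sq_nonneg _)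
  have h3 : ∑ z ∈ B, En G (fun x => F (pr x)) z ≤
      Δ ^ (2 * R + 1) * (((Δ + 1) ^ R * Δ : ℕ) * ∑ p ∈ Z ×ˢ Z, Ψ p) := by
    let s : Finset (Σ _ : V, V) := B.sigma fun z => G.neighborFinset z
    have e1 : ∑ z ∈ B, En G (fun x => F (pr x)) z =
        ∑ q ∈ s, (F (pr q.1) - F (pr q.2)) ^ 2 := by
      simp only [En, s]; rw [Finset.sum_sigma]
    have e2 := sum_le_fiber s (Z ×ˢ Z) (fun q => (pr q.1, pr q.2)) ?_ ((Δ + 1) ^ R * Δ) ?_ Ψ hΨ
    · rw [e1]
      refine le_trans ?_ (mul_le_mul_of_nonneg_left e2 (by positivity))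
      rw [Finset.mul_sum]
      refine Finset.sum_le_sum fun q hq => ?_
      have hadj := (G.mem_neighborFinset _ _).1 (Finset.mem_sigma.1 hq).2
      have := p4 T hT _ _ hadj
      have hpos : (0 : ℝ) < Δ ^ (2 * R + 1) := by positivity
      simp only [Ψ]
      rw [← mul_assoc]
      refine le_mul_of_one_le_left (sq_nonneg _) ?_
      rwa [inv_le_iff_one_le_mul₀' hpos] at this
    · intro q hq
      obtain ⟨hq1, hq2⟩ := Finset.mem_sigma.1 hq
      refine Finset.mem_product.2 ⟨hsub (by omega) _ hq1, hsub le_rfl _ ?_⟩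
      obtain ⟨w, hw, h⟩ := Finset.mem_biUnion.1 hq1
      refine Finset.mem_biUnion.2 ⟨w, hw, ?_⟩
      rw [mem_ballF hc] at h ⊢
      have := dist_adj hc ((G.mem_neighborFinset _ _).1 hq2).symm w
      rw [SimpleGraph.dist_comm (u := q.2), SimpleGraph.dist_comm (u := q.1)] at this
      omega
    · intro p _
      refine le_trans (Finset.card_le_card (t := (B.filter fun v => pr v = p.1).sigma
        fun z => G.neighborFinset z) fun q hq => ?_) ?_
      · obtain ⟨hq1, hq2⟩ := Finset.mem_filter.1 hq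
        obtain ⟨hq3, hq4⟩ := Finset.mem_sigma.1 hq1
        exact Finset.mem_sigma.2 ⟨Finset.mem_filter.2 ⟨hq3, congrArg Prod.fst hq2⟩, hq4⟩
      · rw [Finset.card_sigma]
        simp only [SimpleGraph.card_neighborFinset_eq_degree, hreg.degree_eq, Finset.sum_const,
          smul_eq_mul]
        exact Nat.mul_le_mul_right _ (hfib B p.1)
  have h4 : ∑ p ∈ Z ×ˢ Z, Ψ p ≤ 2 * (∑ a, (1 - mis G Δ X T (y a)) * f a ^ 2 -
      ∑ a, ∑ b, AT G Δ X T (y a) (y b) * (f a * f b)) := by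
    have e1 : ∑ p ∈ Z ×ˢ Z, Ψ p = ∑ v ∈ Z, ∑ w ∈ Z, AT G Δ X T v w * F v ^ 2 +
        ∑ v ∈ Z, ∑ w ∈ Z, AT G Δ X T v w * F w ^ 2 -
        2 * ∑ v ∈ Z, ∑ w ∈ Z, AT G Δ X T v w * (F v * F w) := by
      rw [Finset.sum_product, Finset.mul_sum, ← Finset.sum_add_distrib, ← Finset.sum_sub_distrib]
      refine Finset.sum_congr rfl fun v _ => ?_
      rw [Finset.mul_sum, ← Finset.sum_add_distrib, ← Finset.sum_sub_distrib]
      exact Finset.sum_congr rfl fun w _ => by simp only [Ψ]; ring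
    have e2 : ∑ v ∈ Z, ∑ w ∈ Z, AT G Δ X T v w * F w ^ 2 =
        ∑ v ∈ Z, ∑ w ∈ Z, AT G Δ X T v w * F v ^ 2 := by
      rw [Finset.sum_comm]
      exact Finset.sum_congr rfl fun v _ => Finset.sum_congr rfl fun w _ => by rw [AT_symm]
    have e3 : ∑ v ∈ Z, ∑ w ∈ Z, AT G Δ X T v w * F v ^ 2 ≤
        ∑ a, (1 - mis G Δ X T (y a)) * f a ^ 2 := by
      have := hsumZ (fun v => (1 - mis G Δ X T v) * F v)
      simp only [hF1, mul_assoc, ← sq] at this
      rw [← this]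
      refine Finset.sum_le_sum fun v _ => ?_
      rw [← Finset.sum_mul]
      exact mul_le_mul_of_nonneg_right (AT_row_le hc hreg hΔ Z hZX T v) (sq_nonneg _)
    have e4 : ∑ v ∈ Z, ∑ w ∈ Z, AT G Δ X T v w * (F v * F w) =
        ∑ a, ∑ b, AT G Δ X T (y a) (y b) * (f a * f b) := by
      have a1 : ∀ v, ∑ w ∈ Z, AT G Δ X T v w * (F v * F w) =
          (∑ b, AT G Δ X T v (y b) * f b) * F v := by
        intro v
        rw [← hsumZ (fun w => AT G Δ X T v w), Finset.sum_mul]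
        exact Finset.sum_congr rfl fun w _ => by ring
      simp only [a1]
      rw [hsumZ (fun v => ∑ b, AT G Δ X T v (y b) * f b)]
      refine Finset.sum_congr rfl fun a _ => ?_
      rw [Finset.sum_mul]
      exact Finset.sum_congr rfl fun w _ => by ring
    rw [e1, e2, e4]
    linarith
  have h5 := Bm_dirichlet hc hreg hΔ hy hX T f
  have h6 : ∑ z ∈ B, En G (fun x => F (pr x)) z ≤ 4 * ((Δ + 1) ^ R * Δ * Δ ^ (2 * R + 1)) *
      (∑ a, f a ^ 2 - ∑ a, (Bm G Δ X T y *ᵥ f) a ^ 2) := by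
    refine h3.trans ?_
    push_cast
    have : ∑ p ∈ Z ×ˢ Z, Ψ p ≤ 4 * (∑ a, f a ^ 2 - ∑ a, (Bm G Δ X T y *ᵥ f) a ^ 2) := by linarith
    calc _ ≤ (Δ : ℝ) ^ (2 * R + 1) * ((Δ + 1) ^ R * Δ *
          (4 * (∑ a, f a ^ 2 - ∑ a, (Bm G Δ X T y *ᵥ f) a ^ 2))) := by gcongr
      _ = _ := by ring
  have h7 : 2 * (∑ x ∈ A, |F (pr x)|) ^ 2 / growth G o r ≤
      2 * ((Δ + 1) ^ R) ^ 2 * (∑ a, |f a|) ^ 2 / growth G o r := by
    rw [mul_assoc, ← mul_pow]
    gcongr
  have h8 := mul_le_mul_of_nonneg_left h6 (sq_nonneg (r : ℝ))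
  linarith

lemma Bm_dom (hreg : G.IsRegularOfDegree Δ) (hΔ : 0 < Δ)
    (hy : Function.Injective y) (hX : ∀ a, y a ∈ X) {T : ℕ} {ε : ℝ}
    (hε : ∀ v, mis G Δ X T v ≤ ε) (S : Finset ι) (i : ℕ) : ∀ a,
    ∑ z ∈ S, (Bm G Δ X T y ^ i) a z ≤ (1 + ε / 2) ^ i * hit G Δ (y '' S) (i * T) (y a) := by
  induction i with
  | zero =>
    intro a
    simp only [pow_zero, one_apply, Finset.sum_ite_eq, zero_mul, hit, one_mul]
    split_ifs with h
    · exact (ind_pos ⟨a, h, rfl⟩).ge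
    · exact ind_nonneg _
  | succ i ih =>
    intro a
    have hε0 : 0 ≤ ε := (mis_nonneg _ _).trans (hε (y a))
    simp only [pow_succ', mul_apply]
    rw [Finset.sum_comm]
    have e1 : ∑ b, ∑ z ∈ S, Bm G Δ X T y a b * (Bm G Δ X T y ^ i) b z ≤
        (1 + ε / 2) ^ i * (Bm G Δ X T y *ᵥ fun b => hit G Δ (y '' S) (i * T) (y b)) a := by
      simp only [mulVec, dotProduct]
      rw [Finset.mul_sum]
      refine Finset.sum_le_sum fun b _ => ?_
      rw [← Finset.mul_sum, mul_left_comm]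
      exact mul_le_mul_of_nonneg_left (ih b) (Bm_nonneg _ _ _)
    refine e1.trans ?_
    rw [mul_comm (1 + ε / 2), mul_assoc]
    refine mul_le_mul_of_nonneg_left ?_ (by positivity)
    rw [Bm_mulVec]
    have e2 := AT_dom (G := G) (Δ := Δ) (X := X) (h := hit G Δ (y '' S)) (hit_nonneg _)
      (hit_mono _) (Pop_hit hreg hΔ _) (univ.image y) (fun w hw => by
        obtain ⟨a, _, rfl⟩ := Finset.mem_image.1 hw
        exact hX a) (i * T) T (y a)
    rw [sum_image_y hy (fun w => AT G Δ X T (y a) w * hit G Δ (y '' S) (i * T) w)] at e2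
    have e3 : hit G Δ (y '' S) (i * T) (y a) ≤ hit G Δ (y '' S) (i * T + T) (y a) :=
      hit_mono _ _ (Nat.le_add_right _ _)
    have e4 := hit_nonneg (G := G) (Δ := Δ) (y '' S) (i * T) (y a)
    have e5 := mis_nonneg (G := G) (Δ := Δ) (X := X) T (y a)
    have e6 := hε (y a)
    rw [Nat.succ_mul]
    have e7 : (1 + mis G Δ X T (y a)) / 2 * hit G Δ (y '' S) (i * T) (y a) ≤
        (1 + ε) / 2 * hit G Δ (y '' S) (i * T + T) (y a) := by gcongr
    linarith

lemma chain (hc : G.Connected) (hy : Function.Injective y) {R : ℕ} {pr : V → V}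
    (p2 : ∀ v, G.dist v (pr v) ≤ R) {o : V} {ρ : ℕ} {T : Finset ι}
    (hfar : ∀ v, G.dist o (pr v) ≤ ρ → ∃ a, y a = pr v)
    (hT : ∀ a, ρ < G.dist o (y a) + (2 * R + 1) → a ∈ T) (v' : V) (b : ι) (hb : y b = pr v')
    (n : ℕ) : ∀ v a, y a = pr v → G.dist v v' ≤ n →
      ∃ Ec : Finset (ι × ι), Ec.card ≤ n ∧
        (∀ e ∈ Ec, G.dist (y e.1) (y e.2) ≤ 2 * R + 1 ∧ G.dist v (y e.1) ≤ n + R) ∧
        ∀ ω : ι × ι → Bool, (∀ e ∈ Ec, ω e = true) → Reach ω a b ∨ conn a T ω := by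
  induction n with
  | zero =>
    intro v a ha h
    have : v = v' := hc.dist_eq_zero_iff.1 (by omega)
    have : a = b := hy (by rw [ha, hb, this])
    exact ⟨∅, by simp, by simp, fun ω _ => Or.inl (this ▸ Relation.ReflTransGen.refl)⟩
  | succ n ih =>
    intro v a ha h
    by_cases h0 : G.dist v v' ≤ n
    · obtain ⟨Ec, h1, h2, h3⟩ := ih v a ha h0
      exact ⟨Ec, by omega, fun e he => ⟨(h2 e he).1, by have := (h2 e he).2; omega⟩, h3⟩
    obtain ⟨u, h1, h2⟩ := exists_adj_dist hc (x := v) (y := v') (n := n) (by omega)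
    have hd : G.dist (y a) (pr u) ≤ 2 * R + 1 := by
      have a1 := hc.dist_triangle (u := pr v) (v := v) (w := pr u)
      have a2 := dist_adj hc h1 (pr u)
      have a3 := p2 v
      have a4 := p2 u
      rw [SimpleGraph.dist_comm] at a3
      rw [ha]; omega
    by_cases h3 : G.dist o (pr u) ≤ ρ
    · obtain ⟨a1, ha1⟩ := hfar u h3
      obtain ⟨Ec, c1, c2, c3⟩ := ih u a1 ha1 h2.le
      refine ⟨insert (a, a1) Ec, (Finset.card_insert_le _ _).trans (by omega), fun e he => ?_,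
        fun ω hω => ?_⟩
      · rcases Finset.mem_insert.1 he with rfl | he
        · refine ⟨by rw [ha1]; exact hd, ?_⟩
          have := p2 v
          simp only [ha]; omega
        · have a1 := (c2 e he).2
          have a2 := dist_adj hc h1 (y e.1)
          exact ⟨(c2 e he).1, by omega⟩
      · have h4 : Reach ω a a1 := Relation.ReflTransGen.single (hω _ (Finset.mem_insert_self _ _))
        rcases c3 ω fun e he => hω e (Finset.mem_insert_of_mem he) with h5 | ⟨t, ht, h5⟩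
        · exact Or.inl (h4.trans h5)
        · exact Or.inr ⟨t, ht, h4.trans h5⟩
    · refine ⟨∅, by simp, by simp, fun ω _ => Or.inr ⟨a, hT a ?_, Relation.ReflTransGen.refl⟩⟩
      have := hc.dist_triangle (u := o) (v := y a) (w := pr u)
      omega

theorem window (hc : G.Connected) (ht : VertexTransitive G) (ha : Amenable G)
    (hreg : G.IsRegularOfDegree Δ) (hΔ : 0 < Δ) (o : V) {c : ℝ} (hc0 : 0 < c)
    (hg : ∀ n : ℕ, c * n ^ 12 ≤ growth G o n) (R : ℕ) :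
    ∃ n L : ℕ, ∀ (ι : Type) [Fintype ι] [DecidableEq ι] (y : ι → V), Function.Injective y →
      ∀ (a0 : ι) (ρ : ℕ), (∀ v, G.dist o v ≤ ρ → ∃ a, G.dist v (y a) ≤ R) →
        ∃ I : ι × ι → ℝ, (∀ e, 0 ≤ I e) ∧
          1 / 2 ≤ Phi a0 (univ.filter fun a => ρ < G.dist o (y a) + L) I ∧
          ∀ a (S : Finset ι), a ∉ S → ∑ z ∈ S, I (a, z) ≤ 197 * hit G Δ (y '' S) n (y a) := by
  have hΔ1 : (1 : ℝ) ≤ Δ := by exact_mod_cast hΔ
  set K1 : ℝ := 4 * ((Δ + 1) ^ R * Δ * Δ ^ (2 * R + 1)) with hK1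
  set K2 : ℝ := 2 * ((Δ + 1) ^ R) ^ 2 with hK2
  have hK10 : 0 ≤ K1 := by positivity
  have hK20 : 0 ≤ K2 / c := by positivity
  set K : ℝ := 1 + K1 + K2 / c with hK
  have hKone : 1 ≤ K := by linarith
  obtain ⟨K', hK'0, hdec⟩ := decay hKone
  set c2 : ℝ := ((Δ : ℝ) ^ (2 * R + 1))⁻¹ * (((Δ : ℝ) + 1) ^ (2 * R + 1))⁻¹ with hc2
  have hc20 : 0 < c2 := by positivity
  have hc21 : c2 ≤ 1 := mul_le_one₀ (inv_le_one_of_one_le₀ (one_le_pow₀ hΔ1)) (by positivity)
    (inv_le_one_of_one_le₀ (one_le_pow₀ (by linarith)))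
  obtain ⟨m, hm1, hpar⟩ := params hK'0 hc20 hc21 Δ (2 * Δ ^ R * R + 2 * R + 1)
  set k : ℕ := Δ ^ R * (2 * m) + 2 with hk
  set T0 : ℕ := k * R + 1 with hT0
  have hT1 : 2 * R + 1 ≤ T0 := by
    have : 2 * R ≤ k * R := Nat.mul_le_mul_right _ (by omega)
    omega
  have hT2 : m * T0 ≤ (2 * Δ ^ R * R + 2 * R + 1) * m ^ 2 := by
    have : T0 ≤ (2 * Δ ^ R * R + 2 * R + 1) * m := by
      have : 2 * R + 1 ≤ (2 * R + 1) * m := Nat.le_mul_of_pos_right _ hm1
      rw [hT0, hk]; nlinarith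
    nlinarith
  have hT3 : T0 ≤ m * T0 := Nat.le_mul_of_pos_left _ hm1
  refine ⟨(m + m) * T0, (m + m) * T0, fun ι _ _ y hy a0 ρ hden => ?_⟩
  let X : Set V := Set.range y ∪ {v | ρ < G.dist o v}
  have hX : ∀ a, y a ∈ X := fun a => Or.inl ⟨a, rfl⟩
  have hR : ∀ v, ∃ x ∈ X, G.dist v x ≤ R := by
    intro v
    by_cases h : G.dist o v ≤ ρ
    · obtain ⟨a, h⟩ := hden v h
      exact ⟨y a, hX a, h⟩
    · exact ⟨v, Or.inr (not_le.1 h), by simp⟩
  have hfar : ∀ w ∈ X, G.dist o w ≤ ρ → ∃ a, y a = w := by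
    rintro w (h | h) h'
    · exact h
    · exact absurd h' (not_le.2 h)
  set B := Bm G Δ X T0 y with hB
  have Bs : ∀ a b, B a b = B b a := Bm_symm T0
  have B0 : ∀ a b, 0 ≤ B a b := Bm_nonneg T0
  have Br : ∀ a, ∑ b, B a b ≤ 1 := Bm_row_le hc hreg hΔ hy hX T0
  let D : ι → ι → ℕ := fun a b => G.dist (y a) (y b)
  have Ds : ∀ a b, D a b = D b a := fun a b => SimpleGraph.dist_comm
  have D0 : ∀ a, D a a = 0 := fun a => SimpleGraph.dist_self
  have Dt : ∀ a b c, D a c ≤ D a b + D b c := fun a b c => hc.dist_triangle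
  have hN : ∀ (f : ι → ℝ) (r : ℕ), 1 ≤ r → ∑ a, f a ^ 2 ≤
      K * r ^ 2 * (∑ a, f a ^ 2 - ∑ a, (B *ᵥ f) a ^ 2) + K * (∑ a, |f a|) ^ 2 / r ^ 12 := by
    intro f r hr
    have h1 := Bm_nash hc ht ha hreg hΔ o hy hX hR hT1 f r
    have h2 := sub_nonneg.2 (sq_contract Bs B0 Br f)
    have hr' : (0 : ℝ) < r := by exact_mod_cast hr
    have h3 : K1 * r ^ 2 * (∑ a, f a ^ 2 - ∑ a, (B *ᵥ f) a ^ 2) ≤
        K * r ^ 2 * (∑ a, f a ^ 2 - ∑ a, (B *ᵥ f) a ^ 2) := by gcongr; linarith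
    have h4 : K2 * (∑ a, |f a|) ^ 2 / growth G o r ≤ K * (∑ a, |f a|) ^ 2 / r ^ 12 := by
      calc _ ≤ K2 * (∑ a, |f a|) ^ 2 / (c * r ^ 12) := by gcongr; exact hg r
        _ = K2 / c * (∑ a, |f a|) ^ 2 / r ^ 12 := by field_simp
        _ ≤ _ := by gcongr; linarith
    linarith
  have hheat : ∀ n : ℕ, 1 ≤ n → ∀ a, ∑ z, (B ^ n) a z ^ 2 ≤ K' / n ^ 6 := by
    intro n hn a
    have := hdec (fun n => ∑ z, ((B ^ n) *ᵥ Pi.single a 1) z ^ 2) ?_ ?_ ?_ n hn
    · simpa [pow_symm Bs n _ a] using this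
    · simp [one_apply]
    · intro n
      beta_reduce
      rw [pow_succ' B, ← mulVec_mulVec]
      exact sq_contract Bs B0 Br _
    · intro n r hr
      have h1 := hN ((B ^ n) *ᵥ Pi.single a 1) r hr
      have h2 := pow_abs_contract Bs B0 Br n (Pi.single a 1)
      have h3 : ∑ b, |(Pi.single a 1 : ι → ℝ) b| = 1 := by
        rw [Finset.sum_eq_single a] <;> simp +contextual
      have h4 : (∑ b, |((B ^ n) *ᵥ Pi.single a 1) b|) ^ 2 ≤ 1 :=
        pow_le_one₀ (Finset.sum_nonneg fun _ _ => abs_nonneg _) (h2.trans h3.le)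
      have h5 : K * (∑ b, |((B ^ n) *ᵥ Pi.single a 1) b|) ^ 2 / r ^ 12 ≤ K / r ^ 12 := by
        gcongr
        exact mul_le_of_le_one_right (by linarith) h4
      beta_reduce
      rw [pow_succ' B, ← mulVec_mulVec]
      linarith
  obtain ⟨r, hr⟩ := exists_nat_ge (1 + 2 * K * Fintype.card ι)
  have hr1 : (1 : ℝ) ≤ r := le_trans (by
    have : 0 ≤ 2 * K * Fintype.card ι := by positivity
    linarith) hr
  have hco : ∀ φ : ι → ℝ, 1 / (2 * K * r ^ 2) * ∑ a, φ a ^ 2 ≤ Qf (B ^ m) φ := by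
    intro φ
    have h1 := hN φ r (by exact_mod_cast hr1)
    have h2 := sq_sum_le_card_mul_sum_sq (s := univ) (f := fun a => |φ a|)
    simp only [sq_abs, Finset.card_univ] at h2
    have h3 : K * (∑ a, |φ a|) ^ 2 / r ^ 12 ≤ (∑ a, φ a ^ 2) / 2 := by
      rw [div_le_div_iff₀ (by positivity) two_pos]
      have a1 : (r : ℝ) ≤ r ^ 12 := le_self_pow₀ hr1 (by norm_num)
      have a2 : 0 ≤ ∑ a, φ a ^ 2 := by positivity
      calc K * (∑ a, |φ a|) ^ 2 * 2 ≤ K * (Fintype.card ι * ∑ a, φ a ^ 2) * 2 := by gcongr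
        _ = (∑ a, φ a ^ 2) * (2 * K * Fintype.card ι) := by ring
        _ ≤ _ := by gcongr; linarith
    have h4 : ∑ a, ((B ^ m) *ᵥ φ) a ^ 2 ≤ ∑ a, (B *ᵥ φ) a ^ 2 := by
      obtain ⟨m', rfl⟩ : ∃ m', m = m' + 1 := ⟨m - 1, by omega⟩
      rw [pow_succ, ← mulVec_mulVec]
      exact pow_sq_contract Bs B0 Br _ _
    rw [one_div, inv_mul_le_iff₀ (by positivity), Qf]
    have h5 : K * r ^ 2 * (∑ a, φ a ^ 2 - ∑ a, (B *ᵥ φ) a ^ 2) ≤
        K * r ^ 2 * (∑ a, φ a ^ 2 - ∑ a, ((B ^ m) *ᵥ φ) a ^ 2) := by gcongr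
    linarith
  have hball : ∀ (n : ℕ) (b : ι), (univ.filter fun x => D x b ≤ n).card ≤ (Δ + 1) ^ n := by
    intro n b
    refine le_trans (Finset.card_le_card_of_injOn y (fun x hx => ?_) hy.injOn)
      (card_ballF_le hreg (y b) n)
    have := (Finset.mem_filter.1 hx).2
    rw [Finset.mem_coe, mem_ballF hc, SimpleGraph.dist_comm]
    exact this
  obtain ⟨pr, p1, p2, p3, -⟩ := exists_pi (Δ := Δ) hc hΔ hR
  have hnet := network (o := a0) (T := univ.filter fun a => ρ < G.dist o (y a) + (m + m) * T0)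
    Ds D0 Dt (M := B ^ m) (pow_symm Bs m) (pow_nonneg_entries B0 m) (L := m * T0) (ℓ := 2 * R + 1)
    (pow_range D0 Dt (Bm_range hc T0) m) ?_ (θ := 1 / (2 * K * r ^ 2)) (by positivity) ?_ hco
    (a := fun j => 1 / ((j + 1) * (j + 2))) (v := fun j => K' / ((m * (j + 1) : ℕ) : ℝ) ^ 6)
    (s := fun j => c2 * (1 / ((j + 1) * (j + 2))) /
      (((Δ + 1) ^ (13 * ((j + 1) * (m * T0))) : ℕ) : ℝ))
    (R := fun j => 13 * ((j + 1) * (m * T0))) (n := fun j => 8 * ((j + 1) * (m * T0)))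
    (N := fun j => (Δ + 1) ^ (13 * ((j + 1) * (m * T0)))) (c := c2)
    (fun j => by positivity) (fun j => by positivity) (fun j => by positivity) ?_ ?_
    (fun j => (hpar (m * T0) (by omega) hT2 j).1) (fun j b => hball _ b) sum_a_le ?_ ?_
  · refine ⟨_, Iw_nonneg (fun a b => ?_) (fun _ => by norm_num) (fun e => ?_), hnet,
      fun a S haS => ?_⟩
    · rw [← pow_add]; exact pow_nonneg_entries B0 _ a b
    · split_ifs; exacts [hc20.le, le_rfl]
    have hε : ∀ v, mis G Δ X T0 v ≤ 1 / (2 * m) := by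
      intro v
      refine (mis_bound hc hreg hΔ hR k v).trans ?_
      have hm0 : (0 : ℝ) < m := by exact_mod_cast hm1
      have hx : (0 : ℝ) < (Δ : ℝ) ^ R := by positivity
      have a1 : 1 - ((Δ : ℝ) ^ R)⁻¹ ≤ exp (-((Δ : ℝ) ^ R)⁻¹) := by
        linarith [add_one_le_exp (-((Δ : ℝ) ^ R)⁻¹)]
      have a0 : 0 ≤ 1 - ((Δ : ℝ) ^ R)⁻¹ := sub_nonneg.2 (inv_le_one_of_one_le₀ (one_le_pow₀ hΔ1))
      calc _ ≤ exp (-((Δ : ℝ) ^ R)⁻¹) ^ k := by gcongr
        _ = (exp (k * ((Δ : ℝ) ^ R)⁻¹))⁻¹ := by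
            rw [← Real.exp_nat_mul, ← Real.exp_neg]; congr 1; ring
        _ ≤ 1 / (2 * m) := by
            rw [one_div]
            refine inv_anti₀ (by positivity) (le_trans ?_ (add_one_le_exp _))
            have : (k : ℝ) * ((Δ : ℝ) ^ R)⁻¹ = 2 * m + 2 * ((Δ : ℝ) ^ R)⁻¹ := by
              rw [hk]; push_cast; field_simp
            have : 0 < ((Δ : ℝ) ^ R)⁻¹ := by positivity
            linarith
    have h1 := Bm_dom hreg hΔ hy hX hε S (m + m) a
    have h2 : (1 + 1 / (2 * (m : ℝ)) / 2) ^ (m + m) ≤ 2 := by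
      have hm0 : (0 : ℝ) < m := by exact_mod_cast hm1
      calc _ ≤ exp (1 / (2 * (m : ℝ)) / 2) ^ (m + m) := by
            gcongr; linarith [add_one_le_exp (1 / (2 * (m : ℝ)) / 2)]
        _ = exp (1 / 2) := by
            rw [← Real.exp_nat_mul]; congr 1; push_cast; field_simp; ring
        _ ≤ 2 := by
            have a1 : exp (1 / 2) * exp (1 / 2) = exp 1 := by rw [← Real.exp_add]; norm_num
            have a2 := exp_one_lt_d9
            nlinarith [exp_pos (1 / 2)]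
    have h0 := hit_nonneg (G := G) (Δ := Δ) (y '' S) ((m + m) * T0) (y a)
    have h3 : ∑ z ∈ S, (B ^ (m + m)) a z ≤ 2 * hit G Δ (y '' S) ((m + m) * T0) (y a) :=
      h1.trans (by gcongr)
    have h4 : ∑ z ∈ S, (if D a z ≤ 2 * R + 1 then c2 else 0) ≤
        hit G Δ (y '' S) ((m + m) * T0) (y a) := by
      rw [← Finset.sum_filter, Finset.sum_const, nsmul_eq_mul]
      rcases (S.filter fun z => D a z ≤ 2 * R + 1).eq_empty_or_nonempty with h | ⟨z, hz⟩
      · simpa [h] using h0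
      obtain ⟨hz1, hz2⟩ := Finset.mem_filter.1 hz
      have a1 := hit_near hc hreg hΔ (S := y '' S) ⟨z, hz1, rfl⟩ (2 * R + 1) (y a) hz2
      have a2 : hit G Δ (y '' S) (2 * R + 1) (y a) ≤ hit G Δ (y '' S) ((m + m) * T0) (y a) :=
        hit_mono _ _ (by rw [add_mul]; omega)
      have a3 : ((S.filter fun z => D a z ≤ 2 * R + 1).card : ℝ) ≤ (Δ + 1) ^ (2 * R + 1) := by
        have : (S.filter fun z => D a z ≤ 2 * R + 1).card ≤ (Δ + 1) ^ (2 * R + 1) := by
          refine le_trans (Finset.card_le_card fun z hz => ?_) (hball (2 * R + 1) a)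
          rw [Finset.mem_filter, Ds]
          exact ⟨Finset.mem_univ _, (Finset.mem_filter.1 hz).2⟩
        exact_mod_cast this
      refine le_trans ?_ (a1.trans a2)
      calc _ ≤ ((Δ : ℝ) + 1) ^ (2 * R + 1) * c2 := by gcongr
        _ = _ := by rw [hc2]; field_simp
    simp only [Iw, Finset.sum_add_distrib, ← pow_add]
    have h5 : ∑ z ∈ S, 2 * (B ^ (m + m)) a z * 7 * 7 = 98 * ∑ z ∈ S, (B ^ (m + m)) a z := by
      rw [Finset.mul_sum]; exact Finset.sum_congr rfl fun _ _ => by ring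
    rw [h5]
    linarith
  · intro a ha
    simp only [Finset.mem_filter, Finset.mem_univ, true_and, not_lt] at ha
    rw [← pow_add]
    exact Bm_pow_row hc hreg hΔ hy hX hfar T0 _ a ha
  · rw [div_le_one (by positivity)]
    nlinarith [one_le_pow₀ (n := 2) hr1]
  · intro j x
    rw [← pow_mul]
    exact hheat _ (Nat.mul_pos hm1 (Nat.succ_pos j)) x
  · intro j x u w hu hw
    have e1 : m * T0 ≤ (j + 1) * (m * T0) := Nat.le_mul_of_pos_left _ (Nat.succ_pos j)
    obtain ⟨Ec, c1, c2, c3⟩ := chain hc hy p2 (o := o) (ρ := ρ)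
      (T := univ.filter fun a => ρ < G.dist o (y a) + (m + m) * T0)
      (fun v h => hfar _ (p1 v) h) (fun a h => by
        simp only [Finset.mem_filter, Finset.mem_univ, true_and, add_mul]; omega)
      (y w) w (p3 _ (hX w)).symm (8 * ((j + 1) * (m * T0))) (y u) u (p3 _ (hX u)).symm (by
        have := Dt u x w; have := Ds u x
        change D u w ≤ _
        omega)
    refine ⟨Ec, c1, fun e he => ⟨(c2 e he).1, ?_⟩, c3⟩
    have a1 : D u e.1 ≤ _ := (c2 e he).2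
    have := Dt x u e.1
    omega
  · intro J
    refine (Finset.sum_le_sum fun j _ => (hpar (m * T0) (by omega) hT2 j).2).trans ?_
    rw [← Finset.sum_div]
    linarith [sum_a_le J]
  · intro J
    have : ∀ j : ℕ, (((Δ + 1) ^ (13 * ((j + 1) * (m * T0))) : ℕ) : ℝ) *
        (c2 * (1 / ((j + 1) * (j + 2))) / (((Δ + 1) ^ (13 * ((j + 1) * (m * T0))) : ℕ) : ℝ)) =
        c2 * (1 / ((j + 1) * (j + 2))) := by
      intro j; field_simp
    simp only [this]
    rw [← Finset.mul_sum]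
    exact mul_le_of_le_one_right hc20.le (sum_a_le J)

end Pool.Agent.P.MP_e2f79e_pr
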